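import Mathlib
import Pool.Agent.Lib.P4a7640L.MertensB

/-!
# Mertens' product, upper bound

Module P4a7640G.EulerA (0.7 h). Imports are black boxes.

`- log (1 - s) ≤ s + s^2` for `0 ≤ s ≤ 1/2` (for example `1/(1 - s) = 1 + s + s^2/(1-s) ≤ 1 + s + 2 s^2`-like,
or `Real.log_le_sub_one_of_pos` for `1/(1-s)`: `- log (1-s) ≤ 1/(1-s) - 1 = s/(1-s) ≤ s + 2 s^2`, which is
enough), so `∏ p ≤ M, (1 - 1/p)⁻¹ ≤ exp (∑ p ≤ M, 1/p + 2 ∑ p ≤ M, 1/p^2)`, `∑ p ≤ M, 1/p^2 ≤ 1`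
(`1/n^2 ≤ 1/(n-1) - 1/n`), and `∑ p ≤ M, 1/p = T M ≤ T 2 + ll M - ll 2 + C/log 2` by `mertens_nat` (`n = 2`, `m = M`;
`T n` is the sum of `1/p` over `Nat.primesLE n`); `exp (ll M) = log M`.
-/

open Finset Filter Topology
open Pool.Agent.Lib.P4a7640

namespace Pool.Agent.Lib.P4a7640G

namespace EulerAAux

open Pool.Agent.Lib.P4a7640L Pool.Agent.Lib.P4a7640L.MertensBAux

theorem factor_le {s : ℝ} (h0 : 0 < s) (h1 : s ≤ 1 / 2) :
    (1 - s)⁻¹ ≤ Real.exp (s + 2 * s ^ 2) := by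
  have h2 : (1 - s)⁻¹ ≤ 1 + (s + 2 * s ^ 2) := by
    rw [inv_le_iff_one_le_mul₀ (by linarith)]
    nlinarith [mul_nonneg (sq_nonneg s) (by linarith : (0:ℝ) ≤ 1 - 2 * s)]
  have h3 := Real.add_one_le_exp (s + 2 * s ^ 2)
  linarith

theorem tele (M : ℕ) : ∑ n ∈ Icc 2 M, 1 / (n:ℝ) ^ 2 ≤ 1 := by
  have h : ∀ M : ℕ, 1 ≤ M → ∑ n ∈ Icc 2 M, 1 / (n:ℝ) ^ 2 ≤ 1 - 1 / (M:ℝ) := by
    intro M hM
    induction M, hM using Nat.le_induction with
    | base => simp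
    | succ k hk ih =>
      rw [Finset.sum_Icc_succ_top (by omega)]
      have hk0 : (0:ℝ) < k := by exact_mod_cast hk
      have h1 : 1 / ((k:ℝ) + 1) ^ 2 ≤ 1 / (k:ℝ) - 1 / ((k:ℝ) + 1) := by
        rw [div_sub_div _ _ hk0.ne' (by positivity), div_le_div_iff₀ (by positivity) (by positivity)]
        nlinarith
      push_cast
      linarith
  rcases Nat.eq_zero_or_pos M with rfl | hM
  · simp
  · have h1 := h M hM
    have h2 : (0:ℝ) ≤ 1 / (M:ℝ) := by positivity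
    linarith

theorem primes_sq_le (M : ℕ) : ∑ p ∈ Nat.primesBelow (M + 1), 1 / (p:ℝ) ^ 2 ≤ 1 := by
  refine (Finset.sum_le_sum_of_subset_of_nonneg ?_ fun n _ _ => by positivity).trans (tele M)
  intro p hp
  rw [Nat.mem_primesBelow] at hp
  exact mem_Icc.2 ⟨hp.2.two_le, by omega⟩

end EulerAAux

open EulerAAux Pool.Agent.Lib.P4a7640L Pool.Agent.Lib.P4a7640L.MertensBAux in
theorem mertens_prod : ∃ C : ℝ, 0 < C ∧ ∀ M : ℕ, 2 ≤ M →
    ∏ p ∈ Nat.primesBelow (M + 1), (1 - 1 / (p:ℝ))⁻¹ ≤ C * Real.log M := by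
  obtain ⟨C, hC0, hC⟩ := mertens_nat
  refine ⟨Real.exp (T 2 - ll 2 + C / Real.log 2 + 2), Real.exp_pos _, fun M hM => ?_⟩
  have hM' : (1:ℝ) < M := by exact_mod_cast (by omega : 1 < M)
  have hlM : 0 < Real.log M := Real.log_pos hM'
  have h1 : ∏ p ∈ Nat.primesBelow (M + 1), (1 - 1 / (p:ℝ))⁻¹ ≤
      ∏ p ∈ Nat.primesBelow (M + 1), Real.exp (1 / (p:ℝ) + 2 * (1 / (p:ℝ) ^ 2)) := by
    refine Finset.prod_le_prod (fun p hp => ?_) fun p hp => ?_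
    · rw [Nat.mem_primesBelow] at hp
      have h2 : (2:ℝ) ≤ p := by exact_mod_cast hp.2.two_le
      have h3 : 1 / (p:ℝ) ≤ 1 := by
        rw [div_le_one (by linarith)]
        linarith
      exact inv_nonneg.2 (by linarith)
    · rw [Nat.mem_primesBelow] at hp
      have h2 : (2:ℝ) ≤ p := by exact_mod_cast hp.2.two_le
      have h3 : 1 / (p:ℝ) ≤ 1 / 2 := one_div_le_one_div_of_le (by norm_num) h2
      have h4 := factor_le (s := 1 / (p:ℝ)) (by positivity) h3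
      rw [one_div_pow] at h4
      exact h4
  have h2 := primes_sq_le M
  have h3 := (abs_le.1 (hC 2 M le_rfl hM)).2
  have h4 : ∑ p ∈ Nat.primesBelow (M + 1), 1 / (p:ℝ) = T M := rfl
  refine h1.trans ?_
  rw [← Real.exp_sum, Finset.sum_add_distrib, ← Finset.mul_sum, h4]
  have h5 : Real.exp (ll M) = Real.log M := by
    unfold ll
    exact Real.exp_log hlM
  rw [← h5, ← Real.exp_add]
  refine Real.exp_le_exp.2 ?_
  have h6 : ((2:ℕ):ℝ) = 2 := by norm_num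
  rw [h6] at h3
  linarith

end Pool.Agent.Lib.P4a7640G
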