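import Mathlib
import Pool.Agent.Lib.P4a7640.Periodic
import Pool.Agent.Lib.P4a7640E.DiffF

/-!
# Approximation by almost periodic functions, natural averages

Module P4a7640G.NatDiff (1.2 h). Imports are black boxes.

This is `LA_diff_famW` (P4a7640E/FamCoreQ.lean) / `LA_BI_le` (P4a7640/Periodic.lean) for natural averages and one
function. Let `h n = v n * G n`, `B p = (sgC (h p) ≠ χ p)`. If `n + j` is not `Bad B z m` for all `j ∈ S` then
`∏ j ∈ S, sg (v (n+j)) = (∏ j ∈ S, PP h χ z m (n+j)) * ∏ j ∈ S, sg (G (n+j))` (`PP_eq_of_not_bad`); otherwise the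
difference is at most `2` in absolute value (`|PP| ≤ 1`, see Periodic.lean; or use `prod_PP_fam_close` from
P4a7640E/DiffF.lean). For `j ≤ L` the number of the `n ≤ x` with `n + j` bad is at most
`(x + L) (z (1/2)^(m+1) + 1/z) + L`: at most `(x + j)/d` of the `n ≤ x` have `d ∣ n + j`; `d = p^(m+1) ≥ 2^(m+1)` for
the at most `z` primes `p ≤ z`; `d = p^2` for `p > z`, `∑ k > z, 1/k^2 ≤ 1/z` (`1/k^2 ≤ 1/(k-1) - 1/k`); in the
third case `p > N` (by `htop`), so `n + j ≥ p > N ≥ x`, which holds for at most `j ≤ L` of the `n ≤ x`.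
-/

open Finset Filter Topology
open Pool.Agent.Lib.P4a7640 Pool.Agent.Lib.P4a7640D Pool.Agent.Lib.P4a7640T
open Pool.Agent.Lib.P4a7640E

namespace Pool.Agent.Lib.P4a7640G

namespace NatDiffAux

lemma cnt (x j d : ℕ) : ∑ n ∈ Icc 1 x, (if d ∣ n + j then (1 : ℝ) else 0) ≤ ((x : ℝ) + j) / d := by
  rw [← Finset.sum_filter, Finset.sum_const, nsmul_eq_mul, mul_one]
  have h1 : ((Icc 1 x).filter fun n => d ∣ n + j).card ≤ ((Ioc 0 (x + j)).filter fun n => d ∣ n).card := by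
    apply Finset.card_le_card_of_injOn (fun n => n + j)
    · intro n hn
      have hn' : n ∈ (Icc 1 x).filter fun n => d ∣ n + j := hn
      rw [Finset.mem_filter, Finset.mem_Icc] at hn'
      show n + j ∈ (((Ioc 0 (x + j)).filter fun n => d ∣ n : Finset ℕ) : Set ℕ)
      rw [Finset.mem_coe, Finset.mem_filter, Finset.mem_Ioc]
      exact ⟨⟨by omega, by omega⟩, hn'.2⟩
    · intro a _ b _ hab
      have : a + j = b + j := hab
      omega
  rw [Nat.Ioc_filter_dvd_card_eq_div] at h1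
  calc (((Icc 1 x).filter fun n => d ∣ n + j).card : ℝ) ≤ (((x + j) / d : ℕ) : ℝ) := by exact_mod_cast h1
    _ ≤ ((x + j : ℕ) : ℝ) / d := Nat.cast_div_le
    _ = _ := by push_cast; ring

lemma inv_sq {z : ℕ} (hz : 1 ≤ z) (M : ℕ) : ∑ k ∈ Ioc z M, 1 / ((k : ℝ) ^ 2) ≤ 1 / (z : ℝ) := by
  rcases le_total z M with h | h
  · have h1 := sum_Ioc_inv_sq_le_sub (α := ℝ) (show z ≠ 0 by omega) h
    have h2 : (0 : ℝ) ≤ (M : ℝ)⁻¹ := by positivity
    simp only [one_div]
    linarith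
  · rw [Finset.Ioc_eq_empty (by omega), Finset.sum_empty]
    positivity

lemma big (x j : ℕ) : ∑ n ∈ Icc 1 x, (if x < n + j then (1 : ℝ) else 0) ≤ j := by
  rw [← Finset.sum_filter, Finset.sum_const, nsmul_eq_mul, mul_one]
  have h1 : ((Icc 1 x).filter fun n => x < n + j) ⊆ Ioc (x - j) x := by
    intro n hn
    rw [Finset.mem_filter, Finset.mem_Icc] at hn
    rw [Finset.mem_Ioc]
    omega
  have h2 := Finset.card_le_card h1
  rw [Nat.card_Ioc] at h2
  have h3 : ((Icc 1 x).filter fun n => x < n + j).card ≤ j := by omega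
  exact_mod_cast h3

lemma bi_pt {B : ℕ → Prop} {z m x N j n L : ℕ} (hxN : x ≤ N) (hj : j ≤ L) (hn : n ≤ x) (hn1 : 1 ≤ n)
    (htop : ∀ p : ℕ, p.Prime → z < p → p ≤ N → ¬ B p) :
    BI B z m (n + j) ≤ ∑ p ∈ (Icc 1 z).filter Nat.Prime, (if p ^ (m + 1) ∣ n + j then (1 : ℝ) else 0) +
      ∑ k ∈ Ioc z (x + L), (if k ^ 2 ∣ n + j then (1 : ℝ) else 0) + (if x < n + j then (1 : ℝ) else 0) := by
  classical
  have nn : ∀ (s : Finset ℕ) (φ : ℕ → ℕ), 0 ≤ ∑ p ∈ s, if φ p ∣ n + j then (1:ℝ) else 0 := by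
    intro s φ
    refine Finset.sum_nonneg fun p _ => ?_
    split_ifs
    · exact zero_le_one
    · exact le_rfl
  have single : ∀ (s : Finset ℕ) (φ : ℕ → ℕ) (p : ℕ), p ∈ s → φ p ∣ n + j →
      (1:ℝ) ≤ ∑ p ∈ s, if φ p ∣ n + j then (1:ℝ) else 0 := by
    intro s φ p hp hd
    calc (1:ℝ) = if φ p ∣ n + j then (1:ℝ) else 0 := by rw [if_pos hd]
      _ ≤ _ := Finset.single_le_sum (f := fun p => if φ p ∣ n + j then (1:ℝ) else 0)
          (fun i _ => by
            show 0 ≤ if φ i ∣ n + j then (1:ℝ) else 0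
            split_ifs
            · exact zero_le_one
            · exact le_rfl) hp
  have n1 := nn ((Icc 1 z).filter Nat.Prime) (fun p => p ^ (m + 1))
  have n2 := nn (Ioc z (x + L)) (fun p => p ^ 2)
  have n3 : (0 : ℝ) ≤ if x < n + j then (1 : ℝ) else 0 := by split_ifs <;> norm_num
  unfold BI
  by_cases hbad : Bad B z m (n + j)
  · rw [if_pos hbad]
    rcases hbad with ⟨p, hp, hpy, hd⟩ | ⟨p, hp, hpy, hd⟩ | ⟨p, hp, hpy, hB, hd⟩
    · have := single ((Icc 1 z).filter Nat.Prime) (fun p => p ^ (m + 1)) p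
        (by rw [Finset.mem_filter, Finset.mem_Icc]; exact ⟨⟨hp.pos, hpy⟩, hp⟩) hd
      linarith
    · have hpN : p ≤ x + L := by
        have h1 : p ^ 2 ≤ n + j := Nat.le_of_dvd (by omega) hd
        have h2 : p ≤ p ^ 2 := Nat.le_self_pow (by norm_num) p
        omega
      have := single (Ioc z (x + L)) (fun p => p ^ 2) p
        (by rw [Finset.mem_Ioc]; exact ⟨hpy, hpN⟩) hd
      linarith
    · have hpN : N < p := by
        by_contra hcon
        exact htop p hp hpy (not_lt.1 hcon) hB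
      have h1 : p ≤ n + j := Nat.le_of_dvd (by omega) hd
      rw [if_pos (show x < n + j by omega)]
      linarith
  · rw [if_neg hbad]
    linarith

lemma bi_sum {B : ℕ → Prop} {z m x N j L : ℕ} (hz : 1 ≤ z) (hxN : x ≤ N) (hj : j ≤ L)
    (htop : ∀ p : ℕ, p.Prime → z < p → p ≤ N → ¬ B p) :
    ∑ n ∈ Icc 1 x, BI B z m (n + j) ≤ ((x : ℝ) + L) * (z * (1 / 2) ^ (m + 1) + 1 / z) + L := by
  have hjL : (j : ℝ) ≤ L := by exact_mod_cast hj
  have h1 : ∑ n ∈ Icc 1 x, BI B z m (n + j) ≤ ∑ n ∈ Icc 1 x,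
      (∑ p ∈ (Icc 1 z).filter Nat.Prime, (if p ^ (m + 1) ∣ n + j then (1 : ℝ) else 0) +
      ∑ k ∈ Ioc z (x + L), (if k ^ 2 ∣ n + j then (1 : ℝ) else 0) + (if x < n + j then (1 : ℝ) else 0)) := by
    refine Finset.sum_le_sum fun n hn => ?_
    rw [Finset.mem_Icc] at hn
    exact bi_pt hxN hj hn.2 hn.1 htop
  refine h1.trans ?_
  rw [Finset.sum_add_distrib, Finset.sum_add_distrib, Finset.sum_comm,
    Finset.sum_comm (s := Icc 1 x) (t := Ioc z (x + L))]
  have h2 : ∑ p ∈ (Icc 1 z).filter Nat.Prime, ∑ n ∈ Icc 1 x, (if p ^ (m + 1) ∣ n + j then (1 : ℝ) else 0) ≤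
      ((x : ℝ) + L) * (z * (1 / 2) ^ (m + 1)) := by
    calc ∑ p ∈ (Icc 1 z).filter Nat.Prime, ∑ n ∈ Icc 1 x, (if p ^ (m + 1) ∣ n + j then (1 : ℝ) else 0)
        ≤ ∑ p ∈ (Icc 1 z).filter Nat.Prime, ((x : ℝ) + L) * (1 / 2) ^ (m + 1) := by
          refine Finset.sum_le_sum fun p hp => ?_
          rw [Finset.mem_filter] at hp
          refine (cnt x j (p ^ (m + 1))).trans ?_
          have hp2 : (2 : ℝ) ≤ p := by exact_mod_cast hp.2.two_le
          have h3 : (2 : ℝ) ^ (m + 1) ≤ (p : ℝ) ^ (m + 1) := pow_le_pow_left₀ (by norm_num) hp2 _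
          rw [div_eq_mul_inv]
          push_cast
          have h4 : ((p : ℝ) ^ (m + 1))⁻¹ ≤ (1 / 2) ^ (m + 1) := by
            rw [one_div, inv_pow]
            exact inv_anti₀ (by positivity) h3
          exact mul_le_mul (by linarith) h4 (by positivity) (by positivity)
      _ = (((Icc 1 z).filter Nat.Prime).card : ℝ) * (((x : ℝ) + L) * (1 / 2) ^ (m + 1)) := by
          rw [Finset.sum_const, nsmul_eq_mul]
      _ ≤ (z : ℝ) * (((x : ℝ) + L) * (1 / 2) ^ (m + 1)) := by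
          have h5 : ((Icc 1 z).filter Nat.Prime).card ≤ z := by
            refine (Finset.card_filter_le _ _).trans ?_
            rw [Nat.card_Icc]
            omega
          have h6 : (((Icc 1 z).filter Nat.Prime).card : ℝ) ≤ z := by exact_mod_cast h5
          exact mul_le_mul_of_nonneg_right h6 (by positivity)
      _ = _ := by ring
  have h3 : ∑ k ∈ Ioc z (x + L), ∑ n ∈ Icc 1 x, (if k ^ 2 ∣ n + j then (1 : ℝ) else 0) ≤
      ((x : ℝ) + L) * (1 / z) := by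
    calc ∑ k ∈ Ioc z (x + L), ∑ n ∈ Icc 1 x, (if k ^ 2 ∣ n + j then (1 : ℝ) else 0)
        ≤ ∑ k ∈ Ioc z (x + L), ((x : ℝ) + L) * (1 / (k : ℝ) ^ 2) := by
          refine Finset.sum_le_sum fun k _ => ?_
          refine (cnt x j (k ^ 2)).trans ?_
          rw [div_eq_mul_inv, one_div]
          push_cast
          exact mul_le_mul_of_nonneg_right (by linarith) (by positivity)
      _ = ((x : ℝ) + L) * ∑ k ∈ Ioc z (x + L), 1 / ((k : ℝ) ^ 2) := by rw [Finset.mul_sum]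
      _ ≤ _ := mul_le_mul_of_nonneg_left (inv_sq hz _) (by positivity)
  have h4 := big x j
  rw [mul_add]
  linarith

end NatDiffAux

open NatDiffAux in
theorem nat_diff {v G : ℕ → ℤˣ} (hh : MultS fun n => v n * G n) {q : ℕ}
    (χ : DirichletCharacter ℂ q) {z m L x N : ℕ} (hz : 1 ≤ z) (hxN : x ≤ N)
    (htop : ∀ p : ℕ, p.Prime → z < p → p ≤ N → sgC (v p * G p) = χ (p : ZMod q))
    {S : Finset ℕ} (hS : S ⊆ range L) :
    |∑ n ∈ Icc 1 x, ∏ j ∈ S, sg (v (n + j)) -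
      ∑ n ∈ Icc 1 x, (∏ j ∈ S, PP (fun n => v n * G n) χ z m (n + j)) *
        ∏ j ∈ S, sg (G (n + j))| ≤
      2 * L * ((x + L) * (z * (1 / 2) ^ (m + 1) + 1 / z) + L) := by
  set h : ℕ → ℤˣ := fun n => v n * G n with hhd
  set B : ℕ → Prop := fun p => sgC (h p) ≠ χ (p : ZMod q) with hB
  have htop' : ∀ p : ℕ, p.Prime → z < p → p ≤ N → ¬ B p := fun p hp hz' hN hBp => hBp (htop p hp hz' hN)
  rw [← Finset.sum_sub_distrib]
  refine (Finset.abs_sum_le_sum_abs _ _).trans ?_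
  have h2 : ∀ n, |∏ j ∈ S, sg (v (n + j)) - (∏ j ∈ S, PP h χ z m (n + j)) *
      ∏ j ∈ S, sg (G (n + j))| ≤ ∑ j ∈ S, 2 * BI B z m (n + j) := by
    intro n
    have h3 : ∏ j ∈ S, sg (v (n + j)) = (∏ j ∈ S, sg (h (n + j))) * ∏ j ∈ S, sg (G (n + j)) := by
      rw [← Finset.prod_mul_distrib]
      refine Finset.prod_congr rfl fun j _ => ?_
      show sg (v (n + j)) = sg (v (n + j) * G (n + j)) * sg (G (n + j))
      rw [sg_mul, mul_assoc, sg_mul_self, mul_one]
    have h4 : |∏ j ∈ S, sg (G (n + j))| = 1 := by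
      rw [Finset.abs_prod]
      exact Finset.prod_eq_one fun j _ => abs_sg _
    rw [h3, ← sub_mul, abs_mul, h4, mul_one]
    exact prod_PP_fam_close (h := fun _ => h) (fun _ => χ) z m S (fun _ _ => hh) n
  refine (Finset.sum_le_sum fun n _ => h2 n).trans ?_
  rw [Finset.sum_comm]
  have h5 : ∀ j ∈ S, ∑ n ∈ Icc 1 x, 2 * BI B z m (n + j) ≤
      2 * (((x : ℝ) + L) * (z * (1 / 2) ^ (m + 1) + 1 / z) + L) := by
    intro j hj
    have hjL : j ≤ L := (Finset.mem_range.1 (hS hj)).le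
    rw [← Finset.mul_sum]
    exact mul_le_mul_of_nonneg_left (bi_sum hz hxN hjL htop') (by norm_num)
  refine (Finset.sum_le_sum h5).trans ?_
  rw [Finset.sum_const, nsmul_eq_mul]
  have h6 : (S.card : ℝ) ≤ L := by
    have h7 := Finset.card_le_card hS
    rw [Finset.card_range] at h7
    exact_mod_cast h7
  have h8 : 0 ≤ 2 * (((x : ℝ) + L) * (z * (1 / 2) ^ (m + 1) + 1 / z) + L) := by positivity
  calc (S.card : ℝ) * (2 * (((x : ℝ) + L) * (z * (1 / 2) ^ (m + 1) + 1 / z) + L)) ≤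
        L * (2 * (((x : ℝ) + L) * (z * (1 / 2) ^ (m + 1) + 1 / z) + L)) :=
        mul_le_mul_of_nonneg_right h6 h8
    _ = _ := by ring

end Pool.Agent.Lib.P4a7640G
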