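import Mathlib
import Pool.Agent.Lib.P4a7640D.MainTerm

/-!
# The main terms with general weights and explicit truncation
-/

open Finset

namespace Pool.Agent.Lib.P4a7640G

open Pool.Agent.Lib.P4a7640D

open MainTermAux in
theorem main_termR {C η : ℝ} (hC : 0 ≤ C) (hη : 0 < η) {R : ℕ} (hR : 2 * C ≤ R + 1)
    (hRa : C ^ (R + 1) / ((R + 1).factorial : ℝ) < Real.log (1 + η) / 4)
    (w : ℕ → ℝ) (D : Finset ℕ) (β : ℕ → ℕ) (J : ℕ)
    (hD : ∀ p ∈ D, 0 ≤ w p ∧ 2 * w p ≤ 1) (hβ : ∀ p ∈ D, β p < J)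
    (hCj : ∀ j < J, 2 * ∑ p ∈ D.filter (fun p => β p = j), w p ≤ C) :
    |∏ j ∈ range J, (∑ r ∈ range (R + (J - 1 - j) + 1),
        (-2:ℝ) ^ r * esy w (D.filter fun p => β p = j) r)| ≤
        Real.exp (-(2 * ∑ p ∈ D, w p)) + η ∧
      ∏ j ∈ range J, (1 + 2 ^ (R + (J - 1 - j) + 1) *
        esy w (D.filter fun p => β p = j) (R + (J - 1 - j) + 1)) - 1 ≤ η := by
  set a := C ^ (R + 1) / ((R + 1).factorial : ℝ) with ha
  have ha0 : 0 ≤ a := by positivity
  have hw0 : ∀ p ∈ D, 0 ≤ w p := fun p hp => (hD p hp).1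
  have hw1 : ∀ p ∈ D, 2 * w p ≤ 1 := fun p hp => (hD p hp).2
  have hfil : ∀ j, ∀ p ∈ D.filter (fun p => β p = j), p ∈ D := fun j p hp =>
    (Finset.mem_filter.1 hp).1
  set π : ℕ → ℝ := fun j => ∏ p ∈ D.filter (fun p => β p = j), (1 - 2 * w p) with hπ
  set t : ℕ → ℝ := fun j => 2 * a / 2 ^ (J - 1 - j) with htdef
  have hπ0 : ∀ j, 0 ≤ π j := fun j => Finset.prod_nonneg fun p hp => by
    have := hw1 p (hfil j p hp)
    linarith
  have hπ1 : ∀ j, π j ≤ 1 := fun j => Finset.prod_le_one (fun p hp => by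
    have := hw1 p (hfil j p hp)
    linarith) (fun p hp => by
    have := hw0 p (hfil j p hp)
    linarith)
  have ht0 : ∀ j, 0 ≤ t j := fun j => by positivity
  have hsum : ∑ j ∈ range J, t j ≤ 4 * a := by
    have h2 : ∑ j ∈ range J, t j = ∑ j ∈ range J, 2 * a / 2 ^ j :=
      Finset.sum_range_reflect (fun j => 2 * a / (2:ℝ) ^ j) J
    rw [h2]
    calc ∑ j ∈ range J, 2 * a / 2 ^ j ≤ 2 * (2 * a) := geom_le _ (by positivity) J
      _ = 4 * a := by ring
  have hprod : ∏ j ∈ range J, (1 + t j) - 1 ≤ η := by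
    have h2 : ∏ j ∈ range J, (1 + t j) ≤ Real.exp (∑ j ∈ range J, t j) := by
      rw [Real.exp_sum]
      refine Finset.prod_le_prod (fun j _ => by have := ht0 j; linarith) fun j _ => ?_
      have := Real.add_one_le_exp (t j)
      linarith
    have h3 : Real.exp (∑ j ∈ range J, t j) ≤ Real.exp (Real.log (1 + η)) := by
      apply Real.exp_le_exp.2
      linarith
    rw [Real.exp_log (by linarith)] at h3
    linarith
  constructor
  · rw [Finset.abs_prod]
    calc ∏ j ∈ range J, |∑ r ∈ range (R + (J - 1 - j) + 1),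
          (-2:ℝ) ^ r * esy w (D.filter fun p => β p = j) r|
        ≤ ∏ j ∈ range J, (π j + t j) := by
          refine Finset.prod_le_prod (fun _ _ => abs_nonneg _) fun j hj => ?_
          exact trunc_le (fun p hp => hw0 p (hfil j p hp)) (fun p hp => hw1 p (hfil j p hp)) hC
            (hCj j (Finset.mem_range.1 hj)) hR (J - 1 - j)
      _ ≤ ∏ j ∈ range J, π j + (∏ j ∈ range J, (1 + t j) - 1) :=
          prod_le π t J (fun j _ => hπ0 j) (fun j _ => hπ1 j) (fun j _ => ht0 j)
      _ ≤ Real.exp (-(2 * ∑ p ∈ D, w p)) + η := by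
          refine add_le_add ?_ hprod
          have h2 : ∏ j ∈ range J, π j = ∏ p ∈ D, (1 - 2 * w p) :=
            Finset.prod_fiberwise_of_maps_to (fun p hp => Finset.mem_range.2 (hβ p hp)) _
          rw [h2, Finset.mul_sum, ← Finset.sum_neg_distrib, Real.exp_sum]
          refine Finset.prod_le_prod (fun p hp => by have := hw1 p hp; linarith) fun p _ => ?_
          have := Real.add_one_le_exp (-(2 * w p))
          linarith
  · refine le_trans (sub_le_sub_right ?_ 1) hprod
    refine Finset.prod_le_prod (fun j _ => ?_) fun j hj => ?_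
    · have := esy_nonneg w (D := D.filter fun p => β p = j) (fun p hp => hw0 p (hfil j p hp))
        (R + (J - 1 - j) + 1)
      positivity
    · have h2 := two_pow_esy_le (w := w) (fun p hp => hw0 p (hfil j p hp)) (hCj j (Finset.mem_range.1 hj))
        (R + (J - 1 - j) + 1)
      have h3 := tail_le hC hR (J - 1 - j)
      rw [show R + 1 + (J - 1 - j) = R + (J - 1 - j) + 1 by ring, ← ha] at h3
      have h4 : a / 2 ^ (J - 1 - j) ≤ t j := by
        show a / 2 ^ (J - 1 - j) ≤ 2 * a / 2 ^ (J - 1 - j)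
        apply div_le_div_of_nonneg_right _ (by positivity)
        linarith
      linarith

end Pool.Agent.Lib.P4a7640G
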