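import Mathlib
import Pool.Agent.Lib.P4a7640D.Base

/-!
# The level of the sieve; splitting into residue classes
-/

open Finset Filter Topology
open Pool.Agent.Lib.P4a7640D

namespace Pool.Agent.Lib.P4a7640G

theorem level {A₀ L b c N x : ℕ} (hL : 1 ≤ L) (hc : 16 * (A₀ + 2) * L * 2 ^ b ≤ 2 ^ c)
    (hN : 2 ≤ N) (hNx : N ≤ x ^ (2 ^ b)) (hx : 4 ≤ x) (hx0 : 4 * (A₀ * L + 2) ≤ Nat.log 2 x) :
    ∃ J : ℕ, (∀ p : ℕ, p.Prime → p ^ (2 ^ c) ≤ N → be p < J) ∧
      2 ^ (2 ^ (J + 2) * (A₀ * L + 2)) ≤ x := by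
  set l := Nat.log 2 N with hl
  set b' := Nat.log 2 l with hb
  have hx1 : x ≠ 0 := by omega
  have hl0 : l ≠ 0 := by
    have : 0 < l := Nat.log_pos (by norm_num) hN
    omega
  have hlb : l < 2 ^ (b' + 1) := Nat.lt_pow_succ_log_self (by norm_num) l
  have hbl : 2 ^ b' ≤ l := Nat.pow_log_le_self 2 hl0
  have hpl : ∀ p : ℕ, p.Prime → p ^ (2 ^ c) ≤ N → 1 ≤ Nat.log 2 p ∧ Nat.log 2 p * 2 ^ c ≤ l := by
    intro p h1 h3
    refine ⟨Nat.log_pos (by norm_num) h1.two_le, ?_⟩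
    rw [hl]
    apply Nat.le_log_of_pow_le (by norm_num)
    refine le_trans ?_ h3
    rw [pow_mul]
    exact Nat.pow_le_pow_left (Nat.pow_log_le_self 2 h1.ne_zero) _
  by_cases hcb : c ≤ b'
  · obtain ⟨J, hJ⟩ : ∃ J, b' + 1 = J + c := ⟨b' + 1 - c, by omega⟩
    refine ⟨J, ?_, ?_⟩
    · intro p hp hpN
      obtain ⟨h1, h2⟩ := hpl p hp hpN
      unfold be
      apply Nat.log_lt_of_lt_pow (by omega)
      have h3 : Nat.log 2 p * 2 ^ c < 2 ^ J * 2 ^ c := by
        rw [← pow_add, ← hJ]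
        exact lt_of_le_of_lt h2 hlb
      exact Nat.lt_of_mul_lt_mul_right h3
    · have hX2 : 2 ≤ Nat.log 2 x := Nat.le_log_of_pow_le (by norm_num) (by omega)
      set X := Nat.log 2 x with hX
      have hlX : l < (X + 1) * 2 ^ b := by
        rw [hl]
        apply Nat.log_lt_of_lt_pow (by omega)
        rw [pow_mul]
        refine lt_of_le_of_lt hNx ?_
        exact Nat.pow_lt_pow_left (Nat.lt_pow_succ_log_self (by norm_num) x)
          (by positivity)
      have hle : 2 ^ (J + 2) * (A₀ * L + 2) ≤ X := by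
        have e1 : 2 ^ (J + 2) * 2 ^ c = 8 * 2 ^ b' := by
          rw [← pow_add, show J + 2 + c = b' + 3 by omega, pow_add]
          ring
        have e2 : A₀ * L + 2 ≤ (A₀ + 2) * L := by nlinarith
        have e3 : 2 * (2 ^ (J + 2) * (A₀ * L + 2)) * 2 ^ c ≤ (X + 1) * 2 ^ c := by
          calc 2 * (2 ^ (J + 2) * (A₀ * L + 2)) * 2 ^ c
              = 2 * (A₀ * L + 2) * (2 ^ (J + 2) * 2 ^ c) := by ring
            _ = 16 * (A₀ * L + 2) * 2 ^ b' := by rw [e1]; ring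
            _ ≤ 16 * ((A₀ + 2) * L) * ((X + 1) * 2 ^ b) :=
                Nat.mul_le_mul (Nat.mul_le_mul_left _ e2) (hbl.trans hlX.le)
            _ = (X + 1) * (16 * (A₀ + 2) * L * 2 ^ b) := by ring
            _ ≤ (X + 1) * 2 ^ c := Nat.mul_le_mul_left _ hc
        have e4 := Nat.le_of_mul_le_mul_right e3 (by positivity)
        omega
      calc 2 ^ (2 ^ (J + 2) * (A₀ * L + 2)) ≤ 2 ^ X := Nat.pow_le_pow_right (by norm_num) hle
        _ ≤ x := Nat.pow_log_le_self 2 hx1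
  · refine ⟨0, ?_, ?_⟩
    · intro p hp hpN
      exfalso
      obtain ⟨h1, h2⟩ := hpl p hp hpN
      have h3 : 2 ^ c < 2 ^ (b' + 1) := by
        refine lt_of_le_of_lt ?_ hlb
        calc 2 ^ c = 1 * 2 ^ c := by ring
          _ ≤ Nat.log 2 p * 2 ^ c := Nat.mul_le_mul_right _ h1
          _ ≤ l := h2
      have := (Nat.pow_lt_pow_iff_right (by norm_num : 1 < 2)).1 h3
      omega
    · calc 2 ^ (2 ^ (0 + 2) * (A₀ * L + 2)) ≤ 2 ^ Nat.log 2 x :=
            Nat.pow_le_pow_right (by norm_num) (by norm_num; omega)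
        _ ≤ x := Nat.pow_log_le_self 2 hx1

theorem split_classes {R x : ℕ} (hR : 0 < R) {W F : ℕ → ℝ} (hper : ∀ n, W (n + R) = W n)
    (hW : ∀ n, |W n| ≤ 1) {β : ℝ}
    (h : ∀ a : ℕ, |∑ n ∈ Icc 1 x, (if n ≡ a [MOD R] then (1:ℝ) else 0) * F n| ≤ x / R * β) :
    |∑ n ∈ Icc 1 x, W n * F n| ≤ x * β := by
  have hR0 : (R : ℝ) ≠ 0 := by exact_mod_cast hR.ne'
  have hmod : ∀ n, W (n % R) = W n := fun n =>
    Function.Periodic.map_mod_nat (f := W) hper n
  have e : ∑ n ∈ Icc 1 x, W n * F n =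
      ∑ a ∈ range R, W a * ∑ n ∈ Icc 1 x, (if n ≡ a [MOD R] then (1:ℝ) else 0) * F n := by
    simp only [Finset.mul_sum]
    rw [Finset.sum_comm]
    refine Finset.sum_congr rfl fun n _ => ?_
    rw [Finset.sum_eq_single (n % R)]
    · rw [if_pos (Nat.mod_modEq n R).symm, one_mul, hmod]
    · intro a ha hne
      rw [if_neg, zero_mul, mul_zero]
      intro h1
      apply hne
      have h2 : n % R = a % R := h1
      rw [h2, Nat.mod_eq_of_lt (Finset.mem_range.1 ha)]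
    · intro h1
      exact absurd (Finset.mem_range.2 (Nat.mod_lt n hR)) h1
  rw [e]
  calc |∑ a ∈ range R, W a * ∑ n ∈ Icc 1 x, (if n ≡ a [MOD R] then (1:ℝ) else 0) * F n|
      ≤ ∑ a ∈ range R, |W a * ∑ n ∈ Icc 1 x, (if n ≡ a [MOD R] then (1:ℝ) else 0) * F n| :=
        Finset.abs_sum_le_sum_abs _ _
    _ ≤ ∑ a ∈ range R, (x / R * β) := by
        refine Finset.sum_le_sum fun a _ => ?_
        rw [abs_mul]
        calc |W a| * |∑ n ∈ Icc 1 x, (if n ≡ a [MOD R] then (1:ℝ) else 0) * F n|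
            ≤ 1 * |∑ n ∈ Icc 1 x, (if n ≡ a [MOD R] then (1:ℝ) else 0) * F n| :=
              mul_le_mul_of_nonneg_right (hW a) (abs_nonneg _)
          _ ≤ x / R * β := by rw [one_mul]; exact h a
    _ = x * β := by
        rw [Finset.sum_const, Finset.card_range, nsmul_eq_mul]
        field_simp

end Pool.Agent.Lib.P4a7640G
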