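import Mathlib

/-!
# The choice of the truncation parameter
-/

namespace Pool.Agent.Lib.P4a7640G

theorem num_R {C₁ : ℝ} (hC : 0 < C₁) : ∃ A : ℕ, 0 < A ∧ ∀ L k : ℕ, 1 ≤ L → k ≤ L →
    2 * (2 * (k + 1 : ℕ) * C₁) ≤ ((A * L : ℕ) : ℝ) + 1 ∧
    (2 * (k + 1 : ℕ) * C₁) ^ (A * L + 1) / ((A * L + 1).factorial : ℝ) <
      Real.log (1 + (1 / 4 : ℝ) ^ L / 8 / 4) / 4 := by
  refine ⟨max 10 ⌈64 * C₁⌉₊, lt_of_lt_of_le (by norm_num) (le_max_left _ _), ?_⟩
  intro L k hL hk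
  set A : ℕ := max 10 ⌈64 * C₁⌉₊ with hA
  have hA10 : 10 ≤ A := le_max_left _ _
  have hA64 : 64 * C₁ ≤ (A : ℝ) :=
    (Nat.le_ceil _).trans (by exact_mod_cast le_max_right 10 ⌈64 * C₁⌉₊)
  have hL' : (1 : ℝ) ≤ (L : ℝ) := by exact_mod_cast hL
  have hk' : (k : ℝ) ≤ (L : ℝ) := by exact_mod_cast hk
  have hk0 : (0 : ℝ) ≤ (k : ℝ) := Nat.cast_nonneg _
  have hAL : 64 * C₁ * L ≤ (A : ℝ) * L := mul_le_mul_of_nonneg_right hA64 (by linarith)
  set B : ℝ := 2 * (k + 1 : ℕ) * C₁ with hB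
  have hB0 : 0 ≤ B := by rw [hB]; positivity
  have hBL : B ≤ 4 * C₁ * L := by
    rw [hB]
    push_cast
    nlinarith
  have hCL : 0 < C₁ * L := by positivity
  constructor
  · push_cast
    nlinarith
  · set n : ℕ := A * L + 1 with hn
    have hnR : (n : ℝ) = (A : ℝ) * L + 1 := by rw [hn]; push_cast; ring
    have hn0 : (0 : ℝ) < n := by rw [hnR]; positivity
    have hnL : L + 5 ≤ n := by
      rw [hn]
      nlinarith
    have hexp : Real.exp 1 < 3 := Real.exp_one_lt_d9.trans (by norm_num)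
    have h1 : (n : ℝ) ^ n / (n.factorial : ℝ) ≤ Real.exp 1 ^ n := by
      have := Real.pow_div_factorial_le_exp (n : ℝ) hn0.le n
      rwa [← Real.exp_one_pow n] at this
    have hq : B / n * Real.exp 1 ≤ 1 / 4 := by
      rw [div_mul_eq_mul_div, div_le_iff₀ hn0]
      have : B * Real.exp 1 ≤ B * 3 := mul_le_mul_of_nonneg_left hexp.le hB0
      rw [hnR]
      nlinarith
    have h2 : B ^ n / (n.factorial : ℝ) ≤ (1 / 4 : ℝ) ^ n := by
      have e : B ^ n / (n.factorial : ℝ) = (B / n) ^ n * ((n : ℝ) ^ n / (n.factorial : ℝ)) := by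
        rw [div_pow]
        field_simp
      rw [e]
      calc (B / n) ^ n * ((n : ℝ) ^ n / (n.factorial : ℝ))
          ≤ (B / n) ^ n * Real.exp 1 ^ n :=
            mul_le_mul_of_nonneg_left h1 (by positivity)
        _ = (B / n * Real.exp 1) ^ n := (mul_pow _ _ _).symm
        _ ≤ (1 / 4 : ℝ) ^ n := pow_le_pow_left₀ (by positivity) hq n
    have h3 : (1 / 4 : ℝ) ^ n ≤ (1 / 4 : ℝ) ^ (L + 5) :=
      pow_le_pow_of_le_one (by norm_num) (by norm_num) hnL
    have h4 : (1 / 4 : ℝ) ^ (L + 5) < (1 / 4 : ℝ) ^ L / 256 := by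
      rw [pow_add]
      have : 0 < (1 / 4 : ℝ) ^ L := by positivity
      norm_num
      linarith
    set y : ℝ := (1 / 4 : ℝ) ^ L / 8 / 4 with hy
    have hp0 : 0 < (1 / 4 : ℝ) ^ L := by positivity
    have hp1 : (1 / 4 : ℝ) ^ L ≤ 1 := pow_le_one₀ (by norm_num) (by norm_num)
    have hy0 : 0 < y := by rw [hy]; positivity
    have hy1 : y ≤ 1 := by rw [hy]; linarith
    have h5 : y / 2 ≤ Real.log (1 + y) := by
      have h6 := Real.one_sub_inv_le_log_of_pos (show 0 < 1 + y by linarith)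
      have h7 : y / 2 ≤ 1 - (1 + y)⁻¹ := by
        have h8 : 1 - (1 + y)⁻¹ = y / (1 + y) := by field_simp; ring
        rw [h8]
        exact div_le_div_of_nonneg_left hy0.le (by linarith) (by linarith)
      linarith
    have h9 : (1 / 4 : ℝ) ^ L / 256 ≤ Real.log (1 + y) / 4 := by
      have : y / 2 / 4 = (1 / 4 : ℝ) ^ L / 256 := by rw [hy]; ring
      linarith
    linarith

end Pool.Agent.Lib.P4a7640G
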