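import Mathlib
import Pool.Agent.Lib.P4a7640G.SieveR
import Pool.Agent.Lib.P4a7640G.NumR
import Pool.Agent.Lib.P4a7640G.NatDiff
import Pool.Agent.Lib.P4a7640G.NatLevel
import Pool.Agent.Lib.P4a7640E.Corr0
import Pool.Agent.Lib.P4a7640E.CorrM

/-!
# Correlations on natural averages with an explicit exponent

Module P4a7640G.NatCorr (1.5 h). Imports are black boxes.

`C₁` from `sieveR`, `A₀` from `num_R C₁`, `A = 16 * (A₀ + 2)`. Fix everything up to `c`; finitely many `S`: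
`eventually_all_finset` over `(range L).powerset`. For one `S`: `R = A₀ * L`, `η = (1/4)^L/8`; `z` large: `z ≥ q`,
`z ≥ S.sup id + 1 + (2 (S.card + 1))^2`, `z ≥ 64 L 4^L`; `m` with `z (1/2)^(m+1) ≤ 1/(64 L 4^L)`; `R' = q * QQ z m`.
For `N` large let `D = {z < p, p^(2^c) ≤ N, u p ≠ g p}` (primes), `G = dsg D`, `v = vv c u g N`, `h = v * G`
(multiplicative: `Corr0.vv_mult`, `dsg_mult`); `h p = g p` for all primes `z < p ≤ N`
(`Corr0.vv_top`, `Corr0.vv_low`, and `dsg D p = -1` iff `p ∈ D` for a prime `p`), so `sgC (h p) = χ p` there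
(`p > z ≥ q` does not divide `q`). By `nat_diff` the sum differs from
`∑ n ≤ x, (∏ j ∈ S, PP h χ z m (n+j)) * ∏ j ∈ S, sg (G (n+j))` by at most
`2 L ((x + L) 2/(64 L 4^L) + L) ≤ x (1/4)^L/4` for `x ≥ x₀(L)`; `∏ j ∈ S, sg (G (n+j)) = uP (fun _ => S) D n`
(`prodSeq_dsg` in P4a7640T/NearChar.lean, or `prod_dsg_fam` in P4a7640E/DiffF.lean). `split_classes` with
`W n = ∏ j ∈ S, PP h χ z m (n+j)` (period `R'`: `prod_PP_fam_periodic`, `abs_prod_PP_fam` in DiffF.lean, or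
`PP_periodic`, `abs_PP`), `F = uP (fun _ => S) D`, and `sieveR` (`H := S`, `Hp := fun _ => S`, `q := R'`; `R'` and
`p ∈ D` are coprime as `p > z`; `level` gives `J` and the inequality for `x`): the second sum is at most
`x (exp (-(2 ∑ p ∈ D, |S|/p)) + (1/4)^L/8)` and `∑ p ∈ D, 1/p` tends to infinity with `N`
(`eventually_low` in P4a7640E/Corr0.lean or CorrQ.lean, minus the primes `≤ z`), so `exp (..) ≤ (1/4)^L/8`.
`x ≥ x₀` for all `x` with `N ≤ x^(2^b)`, `N` large: `eventually_scale` (P4a7640E/CorrM.lean).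
-/

open Finset Filter Topology
open Pool.Agent.Lib.P4a7640 Pool.Agent.Lib.P4a7640D Pool.Agent.Lib.P4a7640T
open Pool.Agent.Lib.P4a7640E

namespace Pool.Agent.Lib.P4a7640G

namespace NatCorrAux

open Corr0

theorem uP_eq {S D : Finset ℕ} (h : ∀ p ∈ D, ∀ j ∈ S, j < p) (n : ℕ) :
    ∏ j ∈ S, sg (dsg D (n + j)) = uP (fun _ => S) D n := prodSeq_dsg S D h n

theorem choice_z {L : ℕ} (hL : 1 ≤ L) (w : ℕ) : ∃ z m : ℕ, w ≤ z ∧ 1 ≤ z ∧
    (z:ℝ) * (1 / 2) ^ (m + 1) ≤ 1 / (64 * L) * (1 / 4) ^ L ∧ 1 / (z:ℝ) ≤ 1 / (64 * L) * (1 / 4) ^ L := by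
  have hLR : (0:ℝ) < L := by exact_mod_cast hL
  set z : ℕ := w + 64 * L * 4 ^ L with hz
  have hz1 : 1 ≤ z := by
    have h1 : 1 ≤ 4 ^ L := Nat.one_le_pow _ _ (by norm_num)
    have h2 : 1 * 1 ≤ (64 * L) * 4 ^ L := Nat.mul_le_mul (by omega) h1
    omega
  have hzR : (0:ℝ) < z := by exact_mod_cast hz1
  have he0 : (0:ℝ) < 1 / (64 * L) * (1 / 4) ^ L := by positivity
  obtain ⟨m, hm⟩ : ∃ m : ℕ, (z:ℝ) * (1 / 2) ^ (m + 1) ≤ 1 / (64 * L) * (1 / 4) ^ L := by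
    obtain ⟨m, hm⟩ := exists_pow_lt_of_lt_one
      (show 0 < 1 / (64 * L) * (1 / 4 : ℝ) ^ L / z by positivity) (show (1/2:ℝ) < 1 by norm_num)
    refine ⟨m, ?_⟩
    rw [lt_div_iff₀ hzR] at hm
    have h1 : ((1:ℝ) / 2) ^ (m + 1) ≤ (1 / 2) ^ m :=
      pow_le_pow_of_le_one (by norm_num) (by norm_num) (Nat.le_succ m)
    nlinarith
  refine ⟨z, m, by omega, hz1, hm, ?_⟩
  have h1 : (64 * (L:ℝ) * 4 ^ L) ≤ z := by
    rw [hz]
    push_cast
    have : (0:ℝ) ≤ w := Nat.cast_nonneg w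
    linarith
  have h2 : (1:ℝ) / (64 * L) * (1 / 4) ^ L = 1 / (64 * L * 4 ^ L) := by
    rw [one_div_pow, one_div_mul_one_div]
  rw [h2]
  exact one_div_le_one_div_of_le (by positivity) h1

theorem corr_one {C₁ : ℝ} (hsv : ∀ (H : Finset ℕ) (η : ℝ) (R : ℕ), 0 < η →
      2 * (2 * (H.card + 1 : ℕ) * C₁) ≤ R + 1 →
      (2 * (H.card + 1 : ℕ) * C₁) ^ (R + 1) / ((R + 1).factorial : ℝ) < Real.log (1 + η / 4) / 4 →
      ∀ (q : ℕ), 0 < q → ∃ x₀ : ℕ, ∀ (Hp : ℕ → Finset ℕ) (D : Finset ℕ) (J x a : ℕ),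
        (∀ p ∈ D, p.Prime ∧ H.sup id + 1 + (2 * (H.card + 1)) ^ 2 ≤ p ∧ be p < J ∧
          Nat.Coprime q p ∧ Hp p ⊆ H) →
        2 ^ (2 ^ (J + 2) * (R + 2)) ≤ x → x₀ ≤ x →
        |∑ n ∈ Icc 1 x, (if n ≡ a [MOD q] then (1:ℝ) else 0) * uP Hp D n| ≤
          x / q * (Real.exp (-(2 * ∑ p ∈ D, ((Hp p).card : ℝ) / p)) + η))
    {A₀ : ℕ} (hnum : ∀ L k : ℕ, 1 ≤ L → k ≤ L →
      2 * (2 * (k + 1 : ℕ) * C₁) ≤ ((A₀ * L : ℕ) : ℝ) + 1 ∧
      (2 * (k + 1 : ℕ) * C₁) ^ (A₀ * L + 1) / ((A₀ * L + 1).factorial : ℝ) <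
        Real.log (1 + (1 / 4 : ℝ) ^ L / 8 / 4) / 4)
    {u g : ℕ → ℤˣ} (hu : MultS u) {q : ℕ} (hq : 0 < q) (χ : DirichletCharacter ℂ q)
    (hg : ∀ p : ℕ, p.Prime → ¬ p ∣ q → sgC (g p) = χ (p : ZMod q))
    (hfar : Tendsto (fun N => PS (fun p => u p ≠ g p) 0 N) atTop atTop)
    {L b c : ℕ} (hL : 1 ≤ L) (hc : 16 * (A₀ + 2) * L * 2 ^ b ≤ 2 ^ c)
    {S : Finset ℕ} (hS : S ⊆ range L) (hne : S.Nonempty) :
    ∀ᶠ N : ℕ in atTop, ∀ x ≤ N, N ≤ x ^ (2 ^ b) →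
        |∑ n ∈ Icc 1 x, ∏ j ∈ S, sg (vv c u g N (n + j))| ≤ x * (1 / 4) ^ L := by
  classical
  have hLR : (0:ℝ) < L := by exact_mod_cast hL
  have hk : S.card ≤ L := by
    have := Finset.card_le_card hS
    rwa [Finset.card_range] at this
  obtain ⟨hn1, hn2⟩ := hnum L S.card hL hk
  set η : ℝ := (1 / 4 : ℝ) ^ L / 8 with hη
  have hη0 : 0 < η := by positivity
  obtain ⟨z, m, hzw, hz1, hzm, hze⟩ := choice_z hL (q + (S.sup id + 1 + (2 * (S.card + 1)) ^ 2))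
  set R' : ℕ := q * QQ z m with hR'
  have hR0 : 0 < R' := Nat.mul_pos hq (QQ_pos z m)
  obtain ⟨x₀, hx₀⟩ := hsv S η (A₀ * L) hη0 hn1 hn2 R' hR0
  set Λ : ℝ := 1 + |Real.log η| with hΛ
  have hexp : Real.exp (-(2 * Λ)) ≤ η := by
    calc Real.exp (-(2 * Λ)) ≤ Real.exp (Real.log η) := by
          apply Real.exp_le_exp.2
          have h1 := neg_abs_le (Real.log η)
          have h2 := abs_nonneg (Real.log η)
          rw [hΛ]
          linarith
      _ = η := Real.exp_log hη0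
  have hlow := eventually_low hfar (2 ^ c) (Λ + z)
  obtain ⟨X, hX1, hX2, hX3, hX4⟩ : ∃ X : ℕ, 4 ≤ X ∧ x₀ ≤ X ∧ 2 ^ (4 * (A₀ * L + 2)) ≤ X ∧
      64 * L ^ 2 * 4 ^ L ≤ X :=
    ⟨max (max 4 x₀) (max (2 ^ (4 * (A₀ * L + 2))) (64 * L ^ 2 * 4 ^ L)),
      (le_max_left _ _).trans (le_max_left _ _), (le_max_right _ _).trans (le_max_left _ _),
      (le_max_left _ _).trans (le_max_right _ _), (le_max_right _ _).trans (le_max_right _ _)⟩
  have hbig := eventually_scale (eventually_ge_atTop X) b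
  filter_upwards [hlow, hbig, eventually_ge_atTop 2, eventually_ge_atTop z] with
    N h1 h2 h3 h4 x hxN hNx
  have hx := h2 x hNx
  have hx4 : 4 ≤ x := hX1.trans hx
  have hxx0 : x₀ ≤ x := hX2.trans hx
  have hxp : 2 ^ (4 * (A₀ * L + 2)) ≤ x := hX3.trans hx
  have hxL : 64 * L ^ 2 * 4 ^ L ≤ x := hX4.trans hx
  have hx0 : (0:ℝ) < x := by
    have : 0 < x := by omega
    exact_mod_cast this
  have hlogx : 4 * (A₀ * L + 2) ≤ Nat.log 2 x := Nat.le_log_of_pow_le (by norm_num) hxp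
  obtain ⟨J, hJ1, hJ2⟩ := level hL hc h3 hNx hx4 hlogx
  set D : Finset ℕ := (Icc 1 N).filter
    (fun p => p.Prime ∧ z < p ∧ p ^ (2 ^ c) ≤ N ∧ u p ≠ g p) with hD
  have hDp : ∀ p ∈ D, p.Prime ∧ z < p ∧ p ^ (2 ^ c) ≤ N ∧ u p ≠ g p := fun p hp =>
    (mem_filter.1 hp).2
  have hprime : ∀ p ∈ D, p.Prime := fun p hp => (hDp p hp).1
  have hmass : Λ ≤ ∑ p ∈ D, (1:ℝ) / p := by
    have hsub : (Icc 1 N).filter (fun p => p.Prime ∧ p ^ (2 ^ c) ≤ N ∧ u p ≠ g p) ⊆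
        D ∪ Icc 1 z := by
      intro p hp
      rw [mem_filter, mem_Icc] at hp
      rw [mem_union, hD, mem_filter, mem_Icc, mem_Icc]
      by_cases hpz : p ≤ z
      · exact Or.inr ⟨hp.1.1, hpz⟩
      · exact Or.inl ⟨hp.1, hp.2.1, not_le.1 hpz, hp.2.2.1, hp.2.2.2⟩
    have k1 := (h1.trans (sum_le_sum_of_subset_of_nonneg hsub (fun p _ _ => by positivity)))
    have k2 := Finset.sum_union_inter (s₁ := D) (s₂ := Icc 1 z) (f := fun p : ℕ => (1:ℝ) / p)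
    have k3 : 0 ≤ ∑ p ∈ D ∩ Icc 1 z, (1:ℝ) / p := Finset.sum_nonneg fun p _ => by positivity
    have k4 : ∑ p ∈ Icc 1 z, (1:ℝ) / p ≤ z := by
      calc ∑ p ∈ Icc 1 z, (1:ℝ) / p ≤ ∑ p ∈ Icc 1 z, (1:ℝ) := by
            refine Finset.sum_le_sum fun p hp => ?_
            rw [Finset.mem_Icc] at hp
            have : (1:ℝ) ≤ p := by exact_mod_cast hp.1
            rw [div_le_one (by linarith)]
            exact this
        _ = z := by simp
    linarith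
  have hHp : ∀ p ∈ D, ∀ h ∈ S, h < p := by
    intro p hp h hh
    have k1 := (hDp p hp).2.1
    have k2 : h ≤ S.sup id := Finset.le_sup (f := id) hh
    omega
  have hcop : ∀ p ∈ D, Nat.Coprime R' p := by
    intro p hp
    have k1 := hDp p hp
    rw [Nat.coprime_comm, Nat.Prime.coprime_iff_not_dvd k1.1, hR']
    intro hdiv
    rcases (Nat.Prime.dvd_mul k1.1).1 hdiv with k2 | k2
    · have := Nat.le_of_dvd hq k2
      omega
    · have k3 : p ∣ z.factorial := k1.1.dvd_of_dvd_pow k2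
      have := (Nat.Prime.dvd_factorial k1.1).1 k3
      omega
  have hh : MultS fun n => vv c u g N n * dsg D n := by
    intro a b ha hb hab
    show vv c u g N (a * b) * dsg D (a * b) =
      vv c u g N a * dsg D a * (vv c u g N b * dsg D b)
    rw [vv_mult hu a b ha hb hab, dsg_mult hprime a b ha hb hab]
    exact mul_mul_mul_comm _ _ _ _
  have htop : ∀ p : ℕ, p.Prime → z < p → p ≤ N →
      sgC (vv c u g N p * dsg D p) = χ (p : ZMod q) := by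
    intro p hp hpz hpN
    have hpq : ¬ p ∣ q := by
      intro k
      have := Nat.le_of_dvd hq k
      omega
    rw [← hg p hp hpq]
    congr 1
    rw [dsg_prime hprime hp]
    by_cases k4 : p ^ (2 ^ c) ≤ N
    · rw [vv_low hp k4]
      by_cases k3 : u p = g p
      · have k5 : p ∉ D := fun k => (hDp p k).2.2.2 k3
        rw [if_neg k5, mul_one, k3]
      · have k5 : p ∈ D := by
          rw [hD, mem_filter, mem_Icc]
          exact ⟨⟨hp.one_le, hpN⟩, hp, hpz, k4, k3⟩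
        rw [if_pos k5]
        rcases Int.units_eq_one_or (u p) with k6 | k6 <;>
          rcases Int.units_eq_one_or (g p) with k7 | k7 <;> rw [k6, k7] at k3 ⊢
        · exact absurd rfl k3
        · simp
        · simp
        · exact absurd rfl k3
    · have k5 : p ∉ D := fun k => k4 (hDp p k).2.2.1
      rw [if_neg k5, mul_one, vv_top hp hpN (not_le.1 k4)]
  have hdiff := nat_diff hh χ (m := m) (L := L) hz1 hxN htop hS
  set P : ℕ → ℝ := fun n => ∏ j ∈ S, PP (fun n => vv c u g N n * dsg D n) χ z m (n + j) with hP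
  have hmain : |∑ n ∈ Icc 1 x, P n * ∏ j ∈ S, sg (dsg D (n + j))| ≤ x * (η + η) := by
    refine split_classes hR0 ?_ ?_ ?_
    · intro n
      exact prod_PP_periodic _ χ z m S n
    · intro n
      exact abs_prod_PP _ χ z m S n
    · intro a
      have k1 := hx₀ (fun _ => S) D J x a (fun p hp => ⟨hprime p hp, ?_, hJ1 p (hprime p hp)
        (hDp p hp).2.2.1, hcop p hp, Finset.Subset.refl _⟩) hJ2 hxx0
      · have k2 : ∀ n, ∏ j ∈ S, sg (dsg D (n + j)) = uP (fun _ => S) D n := uP_eq hHp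
        simp only [k2]
        refine k1.trans ?_
        refine mul_le_mul_of_nonneg_left ?_ (by positivity)
        refine add_le_add ?_ le_rfl
        refine le_trans (Real.exp_le_exp.2 ?_) hexp
        have k3 : ∑ p ∈ D, (1:ℝ) / p ≤ ∑ p ∈ D, (S.card : ℝ) / p := by
          refine Finset.sum_le_sum fun p hp => ?_
          apply div_le_div_of_nonneg_right _ (Nat.cast_nonneg _)
          exact_mod_cast Finset.card_pos.2 hne
        linarith
      · have := (hDp p hp).2.1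
        omega
  have k1 := abs_sub_abs_le_abs_sub (∑ n ∈ Icc 1 x, ∏ j ∈ S, sg (vv c u g N (n + j)))
    (∑ n ∈ Icc 1 x, P n * ∏ j ∈ S, sg (dsg D (n + j)))
  -- numerics
  set e : ℝ := 1 / (64 * L) * (1 / 4) ^ L with he
  have he0 : 0 < e := by positivity
  have k2 : 2 * (L:ℝ) * ((x + L) * (z * (1 / 2) ^ (m + 1) + 1 / z) + L) ≤
      x * ((1 / 4) ^ L / 2) := by
    have k3 : ((x:ℝ) + L) * (z * (1 / 2) ^ (m + 1) + 1 / z) ≤ (x + L) * (e + e) :=
      mul_le_mul_of_nonneg_left (add_le_add hzm hze) (by positivity)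
    have k4 : ((64 * L ^ 2 * 4 ^ L : ℕ) : ℝ) ≤ x := by exact_mod_cast hxL
    push_cast at k4
    have k5 : (L:ℝ) ≤ x := by
      have : L ≤ x := by
        have i1 : 1 ≤ 4 ^ L := Nat.one_le_pow _ _ (by norm_num)
        have i2 : L ≤ L ^ 2 := by nlinarith
        have i3 : L ^ 2 * 1 ≤ L ^ 2 * 4 ^ L := Nat.mul_le_mul_left _ i1
        nlinarith
      exact_mod_cast this
    have k6 : (1 / 4 : ℝ) ^ L = 64 * L * e := by
      rw [he]
      field_simp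
    have k7 : (4:ℝ) ^ L * (1 / 4) ^ L = 1 := by
      rw [← mul_pow]
      norm_num
    have k8 : 64 * (L:ℝ) ^ 2 ≤ x * (1 / 4) ^ L := by
      have i1 := mul_le_mul_of_nonneg_right k4 (show (0:ℝ) ≤ (1 / 4) ^ L by positivity)
      calc 64 * (L:ℝ) ^ 2 = 64 * (L:ℝ) ^ 2 * (4 ^ L * (1 / 4) ^ L) := by rw [k7, mul_one]
        _ = 64 * (L:ℝ) ^ 2 * 4 ^ L * (1 / 4) ^ L := by ring
        _ ≤ x * (1 / 4) ^ L := i1
    have k9 : (x + L) * (e + e) ≤ 4 * x * e := by nlinarith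
    have k10 : 2 * (L:ℝ) * ((x + L) * (z * (1 / 2) ^ (m + 1) + 1 / z) + L) ≤
        2 * L * (4 * x * e + L) := by
      refine mul_le_mul_of_nonneg_left ?_ (by positivity)
      linarith
    have k11 : 2 * (L:ℝ) * (4 * x * e + L) = x * (64 * L * e) / 8 + 2 * L ^ 2 := by ring
    rw [k11, ← k6] at k10
    have k12 : (0:ℝ) ≤ x * (1 / 4) ^ L := by positivity
    linarith
  have k3 := k1.trans hdiff
  have hηe : x * (η + η) = x * ((1 / 4) ^ L / 4) := by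
    rw [hη]
    ring
  rw [hηe] at hmain
  have k4 : (0:ℝ) ≤ x * (1 / 4) ^ L := by positivity
  linarith

end NatCorrAux

open NatCorrAux in
theorem nat_corr : ∃ A : ℕ, 0 < A ∧ ∀ (u g : ℕ → ℤˣ), MultS u → ∀ (q : ℕ), 0 < q →
    ∀ χ : DirichletCharacter ℂ q,
    (∀ p : ℕ, p.Prime → ¬ p ∣ q → sgC (g p) = χ (p : ZMod q)) →
    Tendsto (fun N => PS (fun p => u p ≠ g p) 0 N) atTop atTop →
    ∀ L b c : ℕ, 1 ≤ L → A * L * 2 ^ b ≤ 2 ^ c →
      ∀ᶠ N : ℕ in atTop, ∀ x ≤ N, N ≤ x ^ (2 ^ b) → ∀ S ⊆ range L, S.Nonempty →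
        |∑ n ∈ Icc 1 x, ∏ j ∈ S, sg (vv c u g N (n + j))| ≤ x * (1 / 4) ^ L := by
  classical
  obtain ⟨C₁, hC₁, hsv⟩ := sieveR
  obtain ⟨A₀, hA₀, hnum⟩ := num_R hC₁
  refine ⟨16 * (A₀ + 2), by omega, ?_⟩
  intro u g hu q hq χ hg hfar L b c hL hc
  have h2 : ∀ᶠ N : ℕ in atTop, ∀ S ∈ (range L).powerset, S.Nonempty → ∀ x ≤ N, N ≤ x ^ (2 ^ b) →
      |∑ n ∈ Icc 1 x, ∏ j ∈ S, sg (vv c u g N (n + j))| ≤ x * (1 / 4) ^ L := by
    rw [eventually_all_finset]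
    intro S hS
    rw [mem_powerset] at hS
    by_cases hne : S.Nonempty
    · filter_upwards [corr_one hsv hnum hu hq χ hg hfar hL hc hS hne] with N hN _
      exact hN
    · exact Eventually.of_forall fun N h => absurd h hne
  filter_upwards [h2] with N h3 x hx1 hx2 S hS hne
  exact h3 S (mem_powerset.2 hS) hne x hx1 hx2

end Pool.Agent.Lib.P4a7640G
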