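import Mathlib
import Pool.Agent.Lib.P4a7640.Defs
import Pool.Agent.Lib.P4a7640E.Base
import Pool.Agent.Lib.P4a7640E.Defs

/-!
# Natural averages at a single scale: definitions
-/

open Finset Filter Topology
open Pool.Agent.Lib.P4a7640

namespace Pool.Agent.Lib.P4a7640G

open Classical in
/-- the proportion of the `n ≤ x` with `P n` -/
noncomputable def prn (x : ℕ) (P : ℕ → Prop) : ℝ :=
  (((Icc 1 x).filter fun n => P n).card : ℝ) / x

/-- Shannon entropy of `X n`, `n ≤ x` uniformly distributed -/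
noncomputable def EntN {α : Type} [Fintype α] (x : ℕ) (X : ℕ → α) : ℝ :=
  ∑ a, Real.negMulLog (prn x fun n => X n = a)

/-- the mean value of `t` on `[1, x]` -/
noncomputable def En (x : ℕ) (t : ℕ → ℤˣ) : ℝ := (∑ n ∈ Icc 1 x, sg (t n)) / x

/-- the weights of the natural averages in the logarithmic average -/
noncomputable def wn (N x : ℕ) : ℝ :=
  (if x = N then 1 else 1 / ((x:ℝ) + 1)) / ∑ n ∈ Icc 1 N, (1:ℝ) / n

/-- the sum of `t(n)/n * (y - log n)` over `n ≤ exp y` -/
noncomputable def Dd (t : ℕ → ℤˣ) (y : ℝ) : ℝ :=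
  ∑ n ∈ Icc 1 ⌊Real.exp y⌋₊, sg (t n) / n * (y - Real.log n)

/-- the trapezoidal weight -/
noncomputable def Wt (b N n : ℕ) : ℝ :=
  max 0 (min ((2 ^ b - 2) * (Real.log n - Real.log N / 2 ^ b)) (Real.log N - Real.log n))

end Pool.Agent.Lib.P4a7640G
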