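import Mathlib
import Pool.Agent.Lib.P4a7640E.EntB
import Pool.Agent.Lib.P4a7640G.Base

/-!
# Entropy calculus for natural averages
-/

open Finset Filter Topology
open Pool.Agent.Lib.P4a7640 Pool.Agent.Lib.P4a7640E

namespace Pool.Agent.Lib.P4a7640G

namespace EntNAux

theorem prn_eq (N : ℕ) (P : ℕ → Prop) :
    prn N P = (∑ n ∈ Icc 1 N, EntAAux.ind (P n)) / (N : ℝ) := by
  unfold prn EntAAux.ind
  rw [Finset.card_filter, Nat.cast_sum]
  congr 1
  refine sum_congr rfl (fun n _ => ?_)
  by_cases h : P n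
  · rw [if_pos h, if_pos h, Nat.cast_one]
  · rw [if_neg h, if_neg h, Nat.cast_zero]

theorem prn_zero (P : ℕ → Prop) : prn 0 P = 0 := by
  unfold prn; simp

theorem EntN_zero {α : Type} [Fintype α] (X : ℕ → α) : EntN 0 X = 0 := by
  unfold EntN
  simp [prn_zero]

open EntAAux (ind ind_true ind_false ind_nonneg ind_mono term)

theorem prn_nonneg (N : ℕ) (P : ℕ → Prop) : 0 ≤ prn N P := by
  rw [prn_eq]
  exact div_nonneg (sum_nonneg (fun n _ => ind_nonneg _)) (Nat.cast_nonneg _)

theorem prn_mono {N : ℕ} {P Q : ℕ → Prop} (h : ∀ n, P n → Q n) : prn N P ≤ prn N Q := by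
  rw [prn_eq, prn_eq]
  exact div_le_div_of_nonneg_right
    (sum_le_sum (fun n _ => ind_mono (h n)))
    (Nat.cast_nonneg _)

theorem prn_congr {N : ℕ} {P Q : ℕ → Prop} (h : ∀ n, 1 ≤ n → n ≤ N → (P n ↔ Q n)) :
    prn N P = prn N Q := by
  rw [prn_eq, prn_eq]
  congr 1
  refine sum_congr rfl (fun n hn => ?_)
  have hn' := mem_Icc.1 hn
  rw [propext (h n hn'.1 hn'.2)]

theorem prn_true {N : ℕ} (hN : 1 ≤ N) : prn N (fun _ => True) = 1 := by
  rw [prn_eq]
  have : ∑ n ∈ Icc 1 N, ind True = (N : ℝ) := by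
    rw [sum_congr rfl (fun n _ => ind_true trivial), sum_const, Nat.card_Icc, nsmul_eq_mul,
      mul_one, Nat.add_sub_cancel]
  rw [this]
  exact div_self (by exact_mod_cast (by omega : N ≠ 0))

theorem prn_le_one (N : ℕ) (P : ℕ → Prop) : prn N P ≤ 1 := by
  rcases Nat.eq_zero_or_pos N with h | h
  · subst h; rw [prn_zero]; norm_num
  · rw [← prn_true h]
    exact prn_mono (fun _ _ => trivial)

theorem prn_not {N : ℕ} (hN : 1 ≤ N) (P : ℕ → Prop) : prn N (fun n => ¬ P n) = 1 - prn N P := by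
  rw [eq_sub_iff_add_eq, prn_eq, prn_eq, ← add_div, ← sum_add_distrib]
  have : ∑ n ∈ Icc 1 N, (ind (¬ P n) + ind (P n)) = (N : ℝ) := by
    rw [sum_congr rfl (fun n _ => (by
      by_cases h : P n
      · rw [ind_true h, ind_false (not_not.2 h)]; ring
      · rw [ind_false h, ind_true h]; ring : ind (¬ P n) + ind (P n) = 1)), sum_const,
      Nat.card_Icc, nsmul_eq_mul, mul_one, Nat.add_sub_cancel]
  rw [this]
  exact div_self (by exact_mod_cast (by omega : N ≠ 0))

theorem prn_fiber {β : Type} [Fintype β] (N : ℕ) (P : ℕ → Prop) (Y : ℕ → β) :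
    prn N P = ∑ b, prn N (fun n => P n ∧ Y n = b) := by
  simp only [prn_eq]
  rw [← sum_div, sum_comm]
  congr 1
  refine sum_congr rfl (fun n _ => ?_)
  rw [sum_eq_single (Y n)]
  · by_cases h : P n
    · rw [ind_true h, ind_true ⟨h, rfl⟩]
    · rw [ind_false h, ind_false (fun h' => h h'.1)]
  · intro b _ hb
    exact ind_false (fun h' => hb h'.2.symm)
  · intro h
    exact absurd (mem_univ _) h

theorem prn_sum {α : Type} [Fintype α] {N : ℕ} (hN : 1 ≤ N) (X : ℕ → α) :
    ∑ a, prn N (fun n => X n = a) = 1 := by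
  rw [← prn_true hN, prn_fiber N (fun _ => True) X]
  refine sum_congr rfl (fun a _ => prn_congr (fun n _ _ => ?_))
  exact ⟨fun h => ⟨trivial, h⟩, fun h => h.2⟩

theorem EntN_nonneg {α : Type} [Fintype α] (N : ℕ) (X : ℕ → α) : 0 ≤ EntN N X :=
  sum_nonneg (fun _ _ => Real.negMulLog_nonneg (prn_nonneg _ _) (prn_le_one _ _))

theorem EntN_pair {α β : Type} [Fintype α] [Fintype β] (N : ℕ) (X : ℕ → α) (Y : ℕ → β) :
    EntN N (fun n => (X n, Y n)) ≤ EntN N X + EntN N Y := by
  rcases Nat.eq_zero_or_pos N with h0 | hN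
  · subst h0; rw [EntN_zero, EntN_zero, EntN_zero]; norm_num
  set r : α → β → ℝ := fun a b => prn N (fun n => X n = a ∧ Y n = b) with hr
  set p : α → ℝ := fun a => prn N (fun n => X n = a) with hp
  set q : β → ℝ := fun b => prn N (fun n => Y n = b) with hq
  have hrp : ∀ a, ∑ b, r a b = p a := fun a => (prn_fiber N (fun n => X n = a) Y).symm
  have hrq : ∀ b, ∑ a, r a b = q b := by
    intro b
    rw [hq]
    simp only
    rw [prn_fiber N (fun n => Y n = b) X]
    exact sum_congr rfl (fun a _ => prn_congr (fun n _ _ => and_comm))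
  have hE : EntN N (fun n => (X n, Y n)) = ∑ a, ∑ b, Real.negMulLog (r a b) := by
    unfold EntN
    rw [Fintype.sum_prod_type]
    refine sum_congr rfl (fun a _ => sum_congr rfl (fun b _ => ?_))
    congr 1
    exact prn_congr (fun n _ _ => Prod.mk.injEq _ _ _ _ ▸ Iff.rfl)
  have hterm : ∀ a b, Real.negMulLog (r a b) ≤
      -(r a b * Real.log (p a)) - r a b * Real.log (q b) + (p a * q b - r a b) := fun a b =>
    term _ _ _ (prn_nonneg _ _) (prn_mono (fun n h => h.1)) (prn_mono (fun n h => h.2))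
  have s1 : ∑ a, ∑ b, -(r a b * Real.log (p a)) = ∑ a, Real.negMulLog (p a) := by
    refine sum_congr rfl (fun a _ => ?_)
    rw [sum_neg_distrib, ← sum_mul, hrp]
    unfold Real.negMulLog; ring
  have s2 : ∑ a, ∑ b, r a b * Real.log (q b) = -∑ b, Real.negMulLog (q b) := by
    rw [sum_comm, ← sum_neg_distrib]
    refine sum_congr rfl (fun b _ => ?_)
    rw [← sum_mul, hrq]
    unfold Real.negMulLog; ring
  have s3 : ∑ a, ∑ b, p a * q b = 1 := by
    have hp1 : ∑ a, p a = 1 := prn_sum hN X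
    have hq1 : ∑ b, q b = 1 := prn_sum hN Y
    rw [← sum_mul_sum, hp1, hq1, one_mul]
  have s4 : ∑ a, ∑ b, r a b = 1 := by
    rw [sum_congr rfl (fun a _ => hrp a)]
    exact prn_sum hN X
  rw [hE]
  calc ∑ a, ∑ b, Real.negMulLog (r a b)
      ≤ ∑ a, ∑ b, (-(r a b * Real.log (p a)) - r a b * Real.log (q b) + (p a * q b - r a b)) :=
        sum_le_sum (fun a _ => sum_le_sum (fun b _ => hterm a b))
    _ = ∑ a, ∑ b, -(r a b * Real.log (p a)) - ∑ a, ∑ b, r a b * Real.log (q b) +
          (∑ a, ∑ b, p a * q b - ∑ a, ∑ b, r a b) := by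
        simp only [sum_add_distrib, sum_sub_distrib]
    _ = ∑ a, Real.negMulLog (p a) + ∑ b, Real.negMulLog (q b) := by
        rw [s1, s2, s3, s4]; ring
    _ = EntN N X + EntN N Y := rfl

theorem EntN_comp {α β : Type} [Fintype α] [Fintype β] (N : ℕ) (X : ℕ → α) (φ : α → β) :
    EntN N (fun n => φ (X n)) ≤ EntN N X := by
  set p : α → ℝ := fun a => prn N (fun n => X n = a) with hp
  have hp0 : ∀ a, 0 ≤ p a := fun a => prn_nonneg _ _
  have hs : ∀ c, prn N (fun n => φ (X n) = c) = ∑ a, ind (φ a = c) * p a := by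
    intro c
    rw [prn_fiber N (fun n => φ (X n) = c) X]
    refine sum_congr rfl (fun a _ => ?_)
    by_cases h : φ a = c
    · rw [ind_true h, one_mul]
      refine prn_congr (fun n _ _ => ⟨fun h' => h'.2, fun h' => ⟨by rw [h']; exact h, h'⟩⟩)
    · rw [ind_false h, zero_mul]
      have : prn N (fun n => φ (X n) = c ∧ X n = a) = prn N (fun _ => False) :=
        prn_congr (fun n _ _ => ⟨fun h' => h (by rw [← h'.2]; exact h'.1), fun h' => h'.elim⟩)
      rw [this, prn_eq]
      simp [ind_false not_false]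
  have hc : ∀ c, Real.negMulLog (prn N (fun n => φ (X n) = c)) ≤
      ∑ a, ind (φ a = c) * Real.negMulLog (p a) := by
    intro c
    set S := prn N (fun n => φ (X n) = c) with hS
    have h1 : Real.negMulLog S = ∑ a, ind (φ a = c) * (-(p a) * Real.log S) := by
      have hsS : S = ∑ a, ind (φ a = c) * p a := hs c
      have h1' : -S * Real.log S = -(∑ a, ind (φ a = c) * p a) * Real.log S := by rw [← hsS]
      unfold Real.negMulLog
      rw [h1', ← sum_neg_distrib, sum_mul]
      exact sum_congr rfl (fun a _ => by ring)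
    rw [h1]
    refine sum_le_sum (fun a _ => ?_)
    by_cases h : φ a = c
    · rw [ind_true h, one_mul, one_mul]
      rcases (hp0 a).eq_or_lt with h0 | h0
      · rw [← h0]; simp
      · have h2 : p a ≤ S := prn_mono (fun n hn => by
          have hn' : X n = a := hn
          rw [hn']; exact h)
        have h3 : Real.log (p a) ≤ Real.log S := Real.log_le_log h0 h2
        unfold Real.negMulLog
        nlinarith
    · rw [ind_false h, zero_mul, zero_mul]
  calc EntN N (fun n => φ (X n)) ≤ ∑ c, ∑ a, ind (φ a = c) * Real.negMulLog (p a) :=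
        sum_le_sum (fun c _ => hc c)
    _ = ∑ a, (∑ c, ind (φ a = c)) * Real.negMulLog (p a) := by
        rw [sum_comm]
        exact sum_congr rfl (fun a _ => by rw [sum_mul])
    _ = ∑ a, Real.negMulLog (p a) := by
        refine sum_congr rfl (fun a _ => ?_)
        rw [sum_eq_single (φ a), ind_true rfl, one_mul]
        · intro c _ hc'
          exact ind_false (fun h => hc' h.symm)
        · intro h; exact absurd (mem_univ _) h
    _ = EntN N X := rfl

theorem EntN_fin {α : Type} [Fintype α] (N : ℕ) : ∀ (k : ℕ) (X : Fin k → ℕ → α),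
    EntN N (fun n (i : Fin k) => X i n) ≤ ∑ i, EntN N (X i) := by
  intro k
  induction k with
  | zero =>
    intro X
    rcases Nat.eq_zero_or_pos N with h0 | hN
    · subst h0; rw [EntN_zero]; simp
    · have : EntN N (fun n (i : Fin 0) => X i n) = 0 := by
        unfold EntN
        refine sum_eq_zero (fun a _ => ?_)
        have h1 : prn N (fun n => (fun (i : Fin 0) => X i n) = a) = prn N (fun _ => True) :=
          prn_congr (fun n _ _ => ⟨fun _ => trivial, fun _ => Subsingleton.elim _ _⟩)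
        rw [h1, prn_true hN, Real.negMulLog_one]
      rw [this]; simp
  | succ k ih =>
    intro X
    have h1 : (fun n (i : Fin (k + 1)) => X i n) =
        (fun n => (fun z : α × (Fin k → α) => (Fin.cons z.1 z.2 : Fin (k + 1) → α))
          (X 0 n, fun i => X i.succ n)) := by
      funext n i
      refine Fin.cases ?_ (fun j => ?_) i
      · simp
      · simp
    have h3 : EntN N (fun n => (fun z : α × (Fin k → α) => (Fin.cons z.1 z.2 : Fin (k + 1) → α))
          (X 0 n, fun i => X i.succ n)) ≤ EntN N (fun n => (X 0 n, fun i : Fin k => X i.succ n)) :=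
      EntN_comp N (fun n => (X 0 n, fun i : Fin k => X i.succ n))
        (fun z : α × (Fin k → α) => (Fin.cons z.1 z.2 : Fin (k + 1) → α))
    have h4 : EntN N (fun n => (X 0 n, fun i : Fin k => X i.succ n)) ≤
        EntN N (X 0) + EntN N (fun n (i : Fin k) => X i.succ n) :=
      EntN_pair N (X 0) (fun n (i : Fin k) => X i.succ n)
    have h2 : EntN N (fun n (i : Fin k) => X i.succ n) ≤ ∑ i : Fin k, EntN N (X i.succ) :=
      ih (fun i => X i.succ)
    rw [h1, Fin.sum_univ_succ]
    linarith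

theorem EntN_pi {ι α : Type} [Fintype ι] [DecidableEq ι] [Fintype α] (N : ℕ) (X : ι → ℕ → α) :
    EntN N (fun n (i : ι) => X i n) ≤ ∑ i, EntN N (X i) := by
  set e := Fintype.equivFin ι with he
  have h1 : (fun n (i : ι) => X i n) =
      (fun n => (fun g : Fin (Fintype.card ι) → α => (fun i => g (e i)))
        (fun j => X (e.symm j) n)) := by
    funext n i
    simp
  rw [h1]
  refine (EntN_comp N (fun n (j : Fin (Fintype.card ι)) => X (e.symm j) n)
    (fun g : Fin (Fintype.card ι) → α => (fun i => g (e i)))).trans ?_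
  refine (EntN_fin N _ (fun j => X (e.symm j))).trans (le_of_eq ?_)
  exact Equiv.sum_comp e.symm (fun i => EntN N (X i))


theorem EntN_sign0 {N : ℕ} (hN : 1 ≤ N) (t : ℕ → ℤˣ) :
    EntN N t = Real.binEntropy (prn N fun n => t n = -1) := by
  have h1 : prn N (fun n => t n = 1) = 1 - prn N (fun n => t n = -1) := by
    rw [← prn_not hN]
    refine prn_congr (fun n _ _ => ?_)
    rcases Int.units_eq_one_or (t n) with h | h
    · rw [h]; decide
    · rw [h]; decide
  unfold EntN
  rw [Real.binEntropy_eq_negMulLog_add_negMulLog_one_sub, ← h1, UnitsInt.univ,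
    sum_pair (by decide), add_comm]

theorem prn_neg {N : ℕ} (hN : 1 ≤ N) (t : ℕ → ℤˣ) :
    prn N (fun n => t n = -1) = (1 - En N t) / 2 := by
  have hN0 : (N : ℝ) ≠ 0 := by exact_mod_cast (by omega : N ≠ 0)
  have h1 : ∑ n ∈ Icc 1 N, sg (t n) = (N : ℝ) - 2 * ∑ n ∈ Icc 1 N, ind (t n = -1) := by
    have h2 : ∀ n ∈ Icc 1 N, sg (t n) = 1 - 2 * ind (t n = -1) := by
      intro n _
      rcases Int.units_eq_one_or (t n) with h | h
      · rw [h, ind_false (by decide)]
        simp [sg]
      · rw [h, ind_true rfl]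
        simp [sg]
        norm_num
    rw [sum_congr rfl h2, sum_sub_distrib, ← mul_sum, sum_const, Nat.card_Icc, nsmul_eq_mul,
      mul_one, Nat.add_sub_cancel]
  rw [prn_eq]
  unfold En
  rw [h1]
  field_simp
  ring

end EntNAux

theorem prn_nonneg (x : ℕ) (P : ℕ → Prop) : 0 ≤ prn x P :=
  EntNAux.prn_nonneg x P

theorem prn_le_one (x : ℕ) (P : ℕ → Prop) : prn x P ≤ 1 :=
  EntNAux.prn_le_one x P

theorem prn_sum {α : Type} [Fintype α] {x : ℕ} (hx : 1 ≤ x) (X : ℕ → α) :
    ∑ a, prn x (fun n => X n = a) = 1 :=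
  EntNAux.prn_sum hx X

theorem EntN_nonneg {α : Type} [Fintype α] (x : ℕ) (X : ℕ → α) : 0 ≤ EntN x X :=
  EntNAux.EntN_nonneg x X

theorem EntN_pair {α β : Type} [Fintype α] [Fintype β] (x : ℕ) (X : ℕ → α) (Y : ℕ → β) :
    EntN x (fun n => (X n, Y n)) ≤ EntN x X + EntN x Y :=
  EntNAux.EntN_pair x X Y

theorem EntN_comp {α β : Type} [Fintype α] [Fintype β] (x : ℕ) (X : ℕ → α) (φ : α → β) :
    EntN x (fun n => φ (X n)) ≤ EntN x X :=
  EntNAux.EntN_comp x X φ

theorem EntN_pi {ι α : Type} [Fintype ι] [DecidableEq ι] [Fintype α] (x : ℕ) (X : ι → ℕ → α) :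
    EntN x (fun n (i : ι) => X i n) ≤ ∑ i, EntN x (X i) :=
  EntNAux.EntN_pi x X

theorem EntN_sign {x : ℕ} (hx : 1 ≤ x) (t : ℕ → ℤˣ) :
    EntN x t = Real.binEntropy ((1 - En x t) / 2) := by
  rw [EntNAux.EntN_sign0 hx, EntNAux.prn_neg hx]

theorem abs_En_le_one (x : ℕ) (t : ℕ → ℤˣ) : |En x t| ≤ 1 := by
  rcases Nat.eq_zero_or_pos x with h | h
  · subst h
    unfold En
    simp
  · have h1 := EntNAux.prn_neg h t
    have h2 := prn_nonneg x (fun n => t n = -1)
    have h3 := prn_le_one x (fun n => t n = -1)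
    rw [h1] at h2 h3
    rw [abs_le]
    constructor <;> linarith

end Pool.Agent.Lib.P4a7640G
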