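import Mathlib
import Pool.Agent.Lib.P4a7640G.EntN

/-!
# The logarithmic average is a mixture of natural averages

Module P4a7640G.MixN (1 h). Imports are black boxes.

Abel summation: for `a : ℕ → ℝ`, `∑ n ∈ Icc 1 N, a n / n = ∑ x ∈ Icc 1 N, c x * ∑ n ∈ Icc 1 x, a n`,
`c x = 1/x - 1/(x+1) = 1/(x (x+1))` for `x < N`, `c N = 1/N` (swap the sums: `∑ x ∈ Icc n N, c x = 1/n`,
induction on `N`). With `a = ind P`: `pr N P = ∑ x ∈ Icc 1 N, wn N x * prn x P` (`x * c x = 1/(x+1)`, resp.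
`1`). `P = True`: `sum_wn`. `ent_mixn`: for each value `a`, Jensen for the concave function
`Real.negMulLog` on `[0, ∞)` (`Real.concaveOn_negMulLog`, `ConcaveOn.le_map_sum`, weights `wn N x`), then sum
over `a` and swap the sums. (`EntAAux.pr_eq` expresses `pr` by `ind`.)
-/

open Finset Filter Topology
open Pool.Agent.Lib.P4a7640 Pool.Agent.Lib.P4a7640E

namespace Pool.Agent.Lib.P4a7640G

namespace MixNAux

theorem abel0 (a : ℕ → ℝ) (N : ℕ) : ∑ n ∈ Icc 1 N, a n / n =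
    (∑ x ∈ Icc 1 N, 1 / ((x : ℝ) + 1) * ((∑ n ∈ Icc 1 x, a n) / x)) +
      (∑ n ∈ Icc 1 N, a n) / ((N : ℝ) + 1) := by
  induction N with
  | zero => simp
  | succ N ih =>
    rw [sum_Icc_succ_top (by omega), ih, sum_Icc_succ_top (by omega)]
    have hA : ∑ n ∈ Icc 1 (N + 1), a n = (∑ n ∈ Icc 1 N, a n) + a (N + 1) :=
      sum_Icc_succ_top (by omega) _
    rw [hA]
    push_cast
    have h1 : (N : ℝ) + 1 ≠ 0 := by positivity
    have h2 : (N : ℝ) + 1 + 1 ≠ 0 := by positivity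
    field_simp
    ring

theorem abel (a : ℕ → ℝ) {N : ℕ} (hN : 1 ≤ N) : ∑ n ∈ Icc 1 N, a n / n =
    ∑ x ∈ Icc 1 N, (if x = N then 1 else 1 / ((x : ℝ) + 1)) * ((∑ n ∈ Icc 1 x, a n) / x) := by
  obtain ⟨M, rfl⟩ : ∃ M, N = M + 1 := ⟨N - 1, by omega⟩
  rw [sum_Icc_succ_top (by omega), abel0, sum_Icc_succ_top (b := M) (by omega)
    (fun x : ℕ => (if x = M + 1 then 1 else 1 / ((x : ℝ) + 1)) * ((∑ n ∈ Icc 1 x, a n) / x))]
  have h1 : ∑ x ∈ Icc 1 M, (if x = M + 1 then 1 else 1 / ((x : ℝ) + 1)) *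
      ((∑ n ∈ Icc 1 x, a n) / x) =
      ∑ x ∈ Icc 1 M, 1 / ((x : ℝ) + 1) * ((∑ n ∈ Icc 1 x, a n) / x) := by
    refine sum_congr rfl fun x hx => ?_
    have := (mem_Icc.1 hx).2
    rw [if_neg (by omega)]
  have hA : ∑ n ∈ Icc 1 (M + 1), a n = (∑ n ∈ Icc 1 M, a n) + a (M + 1) :=
    sum_Icc_succ_top (by omega) _
  rw [h1, if_pos rfl, hA]
  push_cast
  ring_nf

theorem prn_eq (x : ℕ) (P : ℕ → Prop) :
    prn x P = (∑ n ∈ Icc 1 x, EntAAux.ind (P n)) / x := by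
  unfold prn
  rw [card_filter]
  push_cast
  refine congrArg (fun t : ℝ => t / (x : ℝ)) (sum_congr rfl fun n _ => ?_)
  by_cases h : P n
  · rw [if_pos h, EntAAux.ind_true h]
  · rw [if_neg h, EntAAux.ind_false h]

theorem pr_mix {N : ℕ} (hN : 1 ≤ N) (P : ℕ → Prop) :
    pr N P = ∑ x ∈ Icc 1 N, wn N x * prn x P := by
  have h1 : ∑ n ∈ Icc 1 N, EntAAux.ind (P n) * ((1 : ℝ) / n) =
      ∑ n ∈ Icc 1 N, EntAAux.ind (P n) / n := sum_congr rfl fun n _ => by ring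
  rw [EntAAux.pr_eq, h1, abel _ hN, sum_div]
  refine sum_congr rfl fun x _ => ?_
  rw [wn, prn_eq]
  ring

end MixNAux

theorem wn_nonneg (N x : ℕ) : 0 ≤ wn N x := by
  unfold wn
  refine div_nonneg ?_ (EntAAux.S_nonneg N)
  split_ifs
  · exact zero_le_one
  · positivity

theorem sum_wn {N : ℕ} (hN : 1 ≤ N) : ∑ x ∈ Icc 1 N, wn N x = 1 := by
  have h1 := MixNAux.abel (fun _ => 1) hN
  have h2 : ∀ x ∈ Icc 1 N, (if x = N then 1 else 1 / ((x : ℝ) + 1)) *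
      ((∑ _n ∈ Icc 1 x, (1 : ℝ)) / x) = (if x = N then 1 else 1 / ((x : ℝ) + 1)) := by
    intro x hx
    have hx1 : 1 ≤ x := (mem_Icc.1 hx).1
    have hx0 : (x : ℝ) ≠ 0 := by positivity
    rw [sum_const, Nat.card_Icc, Nat.add_sub_cancel, nsmul_eq_mul, mul_one, div_self hx0, mul_one]
  rw [sum_congr rfl h2] at h1
  unfold wn
  rw [← sum_div, ← h1]
  exact div_self (EntAAux.S_pos hN).ne'

theorem ent_mixn {α : Type} [Fintype α] {N : ℕ} (hN : 1 ≤ N) (X : ℕ → α) :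
    ∑ x ∈ Icc 1 N, wn N x * EntN x X ≤ Ent N X := by
  unfold EntN Ent
  simp only [mul_sum]
  rw [sum_comm]
  refine sum_le_sum fun a _ => ?_
  have h1 := Real.concaveOn_negMulLog.le_map_sum (t := Icc 1 N) (w := fun x => wn N x)
    (p := fun x => prn x fun n => X n = a) (fun x _ => wn_nonneg N x) (sum_wn hN)
    (fun x _ => prn_nonneg x _)
  simp only [smul_eq_mul] at h1
  rw [MixNAux.pr_mix hN]
  exact h1

end Pool.Agent.Lib.P4a7640G
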