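import Mathlib
import Pool.Agent.Lib.P4a7640G.MixN

/-!
# The Cauchy-Schwarz inequality over the scales

Module P4a7640G.CSQ (1.3 h). Imports are black boxes.

`ω n = Wt b N n / n`, `ω N = 0`. Abel summation:
`∑ n ∈ Icc 1 N, ω n * sg (t n) = ∑ x ∈ Icc 1 (N-1), (ω x - ω (x+1)) * ∑ n ∈ Icc 1 x, sg (t n)
= ∑ x ∈ Icc 1 (N-1), x (ω x - ω (x+1)) * En x t`. `Wt` is between `0` and `ℓ = log N` and
`|Wt x - Wt (x+1)| ≤ 2^b log (1 + 1/x) ≤ 2^b / x ≤ 2^(b+1)/(x+1)`, so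
`x (ω x - ω (x+1)) = Wt x - Wt (x+1) + Wt (x+1)/(x+1)` is `≤ (ℓ + 2^(b+1))/(x+1) ≤ 2 ℓ/(x+1)` in absolute
value for `ℓ ≥ 2^(b+1)`. If the term is not zero then `(x+1)^(2^b) > N`, and then `N ≤ x^(2^(b+1))` for `N ≥ N₀`
(`x + 1 ≤ x^2` for `x ≥ 2`). For `x < N`: `wn N x = 1/((x+1) hs)`, `hs = ∑ n ≤ N, 1/n ≤ 1 + ℓ ≤ 2 ℓ`.
Cauchy-Schwarz (`Finset.sum_mul_sq_le_sq_mul_sq` / `inner_mul_le_norm_mul_norm`):
`(∑ a x * En x t)^2 ≤ (∑ (a x)^2 / wn N x) * ∑ wn N x * (En x t)^2` over these `x`, and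
`∑ (a x)^2 / wn N x ≤ ∑ 4 ℓ^2 hs/(x+1) ≤ 4 ℓ^2 hs^2 ≤ 16 ℓ^4`.
-/

open Finset Filter Topology
open Pool.Agent.Lib.P4a7640 Pool.Agent.Lib.P4a7640E

namespace Pool.Agent.Lib.P4a7640G

namespace CSQAux

/-- Abel summation -/
theorem abel (f g : ℕ → ℝ) {N : ℕ} (hN : 1 ≤ N) :
    ∑ n ∈ Icc 1 N, f n * g n =
      ∑ x ∈ Ico 1 N, (f x - f (x + 1)) * (∑ n ∈ Icc 1 x, g n) + f N * ∑ n ∈ Icc 1 N, g n := by
  induction N, hN using Nat.le_induction with
  | base => simp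
  | succ N hN ih =>
    rw [Finset.sum_Icc_succ_top (by omega), Finset.sum_Ico_succ_top (by omega), ih,
      Finset.sum_Icc_succ_top (f := g) (by omega)]
    ring

theorem harm_le {N : ℕ} (hN : 1 ≤ N) : ∑ n ∈ Icc 1 N, (1 : ℝ) / n ≤ 1 + Real.log N := by
  have h1 := harmonic_le_one_add_log N
  have h2 : ((harmonic N : ℚ) : ℝ) = ∑ n ∈ Icc 1 N, (1 : ℝ) / n := by
    rw [harmonic_eq_sum_Icc]
    push_cast
    refine Finset.sum_congr rfl fun n _ => ?_
    rw [one_div]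
  rw [h2] at h1
  exact h1

theorem Wt_nonneg (b N n : ℕ) : 0 ≤ Wt b N n := le_max_left _ _

theorem Wt_le {b N n : ℕ} : Wt b N n ≤ Real.log N := by
  unfold Wt
  have h0 : 0 ≤ Real.log N := Real.log_natCast_nonneg N
  have h1 : 0 ≤ Real.log n := Real.log_natCast_nonneg n
  refine max_le h0 ((min_le_right _ _).trans ?_)
  linarith

theorem Wt_self (b N : ℕ) : Wt b N N = 0 := by
  unfold Wt
  rw [sub_self]
  exact max_eq_left (min_le_right _ _)

theorem Wt_lip {b N x : ℕ} (hb : 2 ≤ b) (hx : 1 ≤ x) :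
    |Wt b N x - Wt b N (x + 1)| ≤ 2 ^ b / x := by
  have hx0 : (0 : ℝ) < x := by exact_mod_cast hx
  have hA4 : (4 : ℝ) ≤ 2 ^ b := by
    calc (4 : ℝ) = 2 ^ 2 := by norm_num
      _ ≤ 2 ^ b := pow_le_pow_right₀ (by norm_num) hb
  have hl0 : 0 ≤ Real.log ((x : ℝ) + 1) - Real.log x := by
    have := Real.log_le_log hx0 (show (x : ℝ) ≤ (x : ℝ) + 1 by linarith)
    linarith
  have hl : Real.log ((x : ℝ) + 1) - Real.log x ≤ 1 / x := by
    rw [← Real.log_div (by positivity) hx0.ne']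
    have h1 := Real.log_le_sub_one_of_pos (show 0 < ((x : ℝ) + 1) / x by positivity)
    have h2 : ((x : ℝ) + 1) / x - 1 = 1 / x := by field_simp; ring
    linarith
  unfold Wt
  push_cast
  refine (abs_max_sub_max_le_max _ _ _ _).trans (max_le (by rw [sub_self, abs_zero]; positivity) ?_)
  refine (abs_min_sub_min_le_max _ _ _ _).trans ?_
  refine max_le ?_ ?_
  · have e : (2 ^ b - 2) * (Real.log x - Real.log N / 2 ^ b) -
        (2 ^ b - 2) * (Real.log ((x : ℝ) + 1) - Real.log N / 2 ^ b) =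
        -((2 ^ b - 2) * (Real.log ((x : ℝ) + 1) - Real.log x)) := by ring
    rw [e, abs_neg, abs_of_nonneg (mul_nonneg (by linarith) hl0)]
    calc (2 ^ b - 2) * (Real.log ((x : ℝ) + 1) - Real.log x) ≤ 2 ^ b * (1 / x) :=
          mul_le_mul (by linarith) hl hl0 (by positivity)
      _ = 2 ^ b / x := by ring
  · have e : (Real.log N - Real.log x) - (Real.log N - Real.log ((x : ℝ) + 1)) =
        Real.log ((x : ℝ) + 1) - Real.log x := by ring
    rw [e, abs_of_nonneg hl0]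
    refine hl.trans ?_
    exact div_le_div_of_nonneg_right (by linarith) hx0.le

/-- the support of the weight -/
theorem Wt_supp {b N n : ℕ} (hb : 2 ≤ b) (hn : 1 ≤ n) (h : Wt b N n ≠ 0) : N < n ^ (2 ^ b) := by
  by_contra hcon
  push Not at hcon
  apply h
  unfold Wt
  refine max_eq_left ((min_le_left _ _).trans ?_)
  have hA4 : (4 : ℝ) ≤ 2 ^ b := by
    calc (4 : ℝ) = 2 ^ 2 := by norm_num
      _ ≤ 2 ^ b := pow_le_pow_right₀ (by norm_num) hb
  have hn0 : (0 : ℝ) < n := by exact_mod_cast hn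
  have h1 : (n : ℝ) ^ (2 ^ b) ≤ N := by exact_mod_cast hcon
  have h2 : (2 ^ b : ℝ) * Real.log n ≤ Real.log N := by
    have h3 := Real.log_le_log (by positivity) h1
    rw [Real.log_pow] at h3
    push_cast at h3
    exact h3
  have h4 : Real.log n ≤ Real.log N / 2 ^ b := by
    rw [le_div_iff₀ (by positivity)]
    linarith
  exact mul_nonpos_of_nonneg_of_nonpos (by linarith) (by linarith)

theorem sq_sum_le (F : Finset ℕ) (a e w : ℕ → ℝ) (hw : ∀ x ∈ F, 0 < w x) :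
    (∑ x ∈ F, a x * e x) ^ 2 ≤ (∑ x ∈ F, a x ^ 2 / w x) * ∑ x ∈ F, w x * e x ^ 2 := by
  refine Finset.sum_sq_le_sum_mul_sum_of_sq_le_mul F (fun x hx => ?_) (fun x hx => ?_) (fun x hx => ?_)
  · exact div_nonneg (sq_nonneg _) (hw x hx).le
  · exact mul_nonneg (hw x hx).le (sq_nonneg _)
  · have := (hw x hx).ne'
    refine le_of_eq ?_
    field_simp

end CSQAux

open CSQAux

theorem cs_q {b : ℕ} (hb : 2 ≤ b) : ∃ N₀ : ℕ, ∀ N ≥ N₀, ∀ t : ℕ → ℤˣ,
    (∑ n ∈ Icc 1 N, sg (t n) / n * Wt b N n) ^ 2 ≤ 64 * Real.log N ^ 4 *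
      ∑ x ∈ (Icc 1 N).filter (fun x => N ≤ x ^ (2 ^ (b + 1))), wn N x * En x t ^ 2 := by
  refine ⟨max ⌈Real.exp (2 ^ (b + 1))⌉₊ (max (2 ^ (2 ^ b)) 2), fun N hN t => ?_⟩
  have hN1 : 2 ≤ N := ((le_max_right _ _).trans (le_max_right _ _)).trans hN
  have hN2 : 2 ^ (2 ^ b) ≤ N := ((le_max_left _ _).trans (le_max_right _ _)).trans hN
  have hN3 : ⌈Real.exp (2 ^ (b + 1))⌉₊ ≤ N := (le_max_left _ _).trans hN
  have hN0 : (0 : ℝ) < N := by exact_mod_cast (show 0 < N by omega)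
  set l : ℝ := Real.log N with hl
  have hlb : (2 : ℝ) ^ (b + 1) ≤ l := by
    rw [hl, Real.le_log_iff_exp_le hN0]
    refine (Nat.le_ceil _).trans ?_
    exact_mod_cast hN3
  have h2b : (1 : ℝ) ≤ 2 ^ (b + 1) := one_le_pow₀ (by norm_num)
  have hl1 : 1 ≤ l := h2b.trans hlb
  set hs : ℝ := ∑ n ∈ Icc 1 N, (1 : ℝ) / n with hhs
  have hsl : hs ≤ 2 * l := by
    have := harm_le (show 1 ≤ N by omega)
    rw [← hhs, ← hl] at this
    linarith
  have hs0 : 0 < hs := by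
    have h1 : (1 : ℝ) / (1 : ℕ) ≤ hs :=
      Finset.single_le_sum (f := fun n : ℕ => (1 : ℝ) / n) (fun n _ => by positivity)
        (Finset.mem_Icc.2 ⟨le_rfl, by omega⟩)
    simp only [Nat.cast_one, div_one] at h1
    linarith
  set om : ℕ → ℝ := fun n => Wt b N n / n with hom
  set a : ℕ → ℝ := fun x => x * (om x - om (x + 1)) with ha
  -- Abel summation
  have hsum : ∑ n ∈ Icc 1 N, sg (t n) / n * Wt b N n = ∑ x ∈ Ico 1 N, a x * En x t := by
    have h1 : ∀ n ∈ Icc 1 N, sg (t n) / n * Wt b N n = om n * sg (t n) := by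
      intro n _
      rw [hom]
      ring
    rw [Finset.sum_congr rfl h1, abel om (fun n => sg (t n)) (by omega)]
    have h2 : om N = 0 := by
      rw [hom]
      simp only
      rw [Wt_self, zero_div]
    rw [h2, zero_mul, add_zero]
    refine Finset.sum_congr rfl fun x hx => ?_
    have hx0 : (x : ℝ) ≠ 0 := by
      have := (Finset.mem_Ico.1 hx).1
      exact_mod_cast (show x ≠ 0 by omega)
    rw [ha]
    unfold En
    field_simp
  have haeq : ∀ x, 1 ≤ x → a x = (Wt b N x - Wt b N (x + 1)) + Wt b N (x + 1) / ((x : ℝ) + 1) := by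
    intro x hx
    have hx0 : (x : ℝ) ≠ 0 := by exact_mod_cast (show x ≠ 0 by omega)
    have hx1 : (x : ℝ) + 1 ≠ 0 := by positivity
    rw [ha, hom]
    push_cast
    field_simp
    ring
  have habs : ∀ x, 1 ≤ x → |a x| ≤ 2 * l / ((x : ℝ) + 1) := by
    intro x hx
    have hx0 : (1 : ℝ) ≤ x := by exact_mod_cast hx
    rw [haeq x hx]
    refine (abs_add_le _ _).trans ?_
    have h1 : |Wt b N x - Wt b N (x + 1)| ≤ 2 ^ (b + 1) / ((x : ℝ) + 1) := by
      refine (Wt_lip hb hx).trans ?_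
      rw [div_le_div_iff₀ (by linarith) (by linarith), pow_succ]
      have : (0 : ℝ) ≤ 2 ^ b := by positivity
      nlinarith
    have h2 : |Wt b N (x + 1) / ((x : ℝ) + 1)| ≤ l / ((x : ℝ) + 1) := by
      rw [abs_of_nonneg (div_nonneg (Wt_nonneg _ _ _) (by positivity))]
      exact div_le_div_of_nonneg_right Wt_le (by positivity)
    have h3 : 2 ^ (b + 1) / ((x : ℝ) + 1) ≤ l / ((x : ℝ) + 1) :=
      div_le_div_of_nonneg_right hlb (by positivity)
    calc |Wt b N x - Wt b N (x + 1)| + |Wt b N (x + 1) / ((x : ℝ) + 1)|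
        ≤ l / ((x : ℝ) + 1) + l / ((x : ℝ) + 1) := add_le_add (h1.trans h3) h2
      _ = 2 * l / ((x : ℝ) + 1) := by ring
  have hsupp : ∀ x, 1 ≤ x → a x ≠ 0 → N ≤ x ^ (2 ^ (b + 1)) := by
    intro x hx h
    have h1 : N < (x + 1) ^ (2 ^ b) := by
      by_contra hcon
      apply h
      have h2 : Wt b N (x + 1) = 0 := by
        by_contra h3
        exact hcon (Wt_supp hb (by omega) h3)
      have h4 : Wt b N x = 0 := by
        by_contra h3
        have h5 := Wt_supp hb hx h3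
        exact hcon (h5.trans_le (Nat.pow_le_pow_left (by omega) _))
      rw [haeq x hx, h2, h4]
      simp
    have hx2 : 2 ≤ x := by
      by_contra hcon
      have hx1 : x = 1 := by omega
      rw [hx1] at h1
      rw [show (1 + 1 : ℕ) = 2 from rfl] at h1
      exact absurd (hN2.trans_lt h1) (lt_irrefl _)
    have h6 : (x + 1) ^ (2 ^ b) ≤ (x ^ 2) ^ (2 ^ b) := Nat.pow_le_pow_left (by nlinarith) _
    have h7 : (x ^ 2) ^ (2 ^ b) = x ^ (2 ^ (b + 1)) := by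
      rw [← pow_mul, pow_succ 2 b, mul_comm 2]
    rw [h7] at h6
    exact h1.le.trans h6
  set F : Finset ℕ := (Ico 1 N).filter (fun x => N ≤ x ^ (2 ^ (b + 1))) with hF
  have hFsum : ∑ x ∈ Ico 1 N, a x * En x t = ∑ x ∈ F, a x * En x t := by
    rw [hF]
    symm
    refine Finset.sum_subset (Finset.filter_subset _ _) fun x hx hx' => ?_
    have h1 : a x = 0 := by
      by_contra h
      exact hx' (Finset.mem_filter.2 ⟨hx, hsupp x (Finset.mem_Ico.1 hx).1 h⟩)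
    rw [h1, zero_mul]
  have hwn : ∀ x ∈ F, wn N x = 1 / ((x : ℝ) + 1) / hs := by
    intro x hx
    have h1 := Finset.mem_Ico.1 (Finset.mem_filter.1 hx).1
    unfold wn
    rw [if_neg (by omega)]
  have hwpos : ∀ x ∈ F, 0 < wn N x := by
    intro x hx
    rw [hwn x hx]
    positivity
  rw [hsum, hFsum]
  have hcs := sq_sum_le F a (fun x => En x t) (wn N) hwpos
  have h1 : ∑ x ∈ F, a x ^ 2 / wn N x ≤ 64 * l ^ 4 := by
    have h2 : ∀ x ∈ F, a x ^ 2 / wn N x ≤ 4 * l ^ 2 * hs * (1 / ((x + 1 : ℕ) : ℝ)) := by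
      intro x hx
      have hx1 := (Finset.mem_Ico.1 (Finset.mem_filter.1 hx).1).1
      have h3 : a x ^ 2 ≤ (2 * l / ((x : ℝ) + 1)) ^ 2 := by
        rw [← sq_abs]
        exact pow_le_pow_left₀ (abs_nonneg _) (habs x hx1) 2
      rw [hwn x hx]
      calc a x ^ 2 / (1 / ((x : ℝ) + 1) / hs) ≤ (2 * l / ((x : ℝ) + 1)) ^ 2 / (1 / ((x : ℝ) + 1) / hs) :=
            div_le_div_of_nonneg_right h3 (by positivity)
        _ = 4 * l ^ 2 * hs * (1 / ((x + 1 : ℕ) : ℝ)) := by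
            push_cast
            field_simp
            ring
    refine (Finset.sum_le_sum h2).trans ?_
    rw [← Finset.mul_sum]
    have h4 : ∑ x ∈ F, (1 : ℝ) / ((x + 1 : ℕ) : ℝ) ≤ hs := by
      have h5 : ∑ x ∈ F, (1 : ℝ) / ((x + 1 : ℕ) : ℝ) ≤ ∑ x ∈ Ico 1 N, (1 : ℝ) / ((x + 1 : ℕ) : ℝ) :=
        Finset.sum_le_sum_of_subset_of_nonneg (Finset.filter_subset _ _) fun x _ _ => by positivity
      refine h5.trans ?_
      rw [Finset.sum_Ico_add' (fun n : ℕ => (1 : ℝ) / (n : ℝ)) 1 N 1, hhs]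
      refine Finset.sum_le_sum_of_subset_of_nonneg (fun n hn => ?_) fun x _ _ => by positivity
      rw [Finset.mem_Ico] at hn
      rw [Finset.mem_Icc]
      omega
    calc 4 * l ^ 2 * hs * ∑ x ∈ F, (1 : ℝ) / ((x + 1 : ℕ) : ℝ) ≤ 4 * l ^ 2 * hs * hs :=
          mul_le_mul_of_nonneg_left h4 (by positivity)
      _ = 4 * l ^ 2 * hs ^ 2 := by ring
      _ ≤ 4 * l ^ 2 * (2 * l) ^ 2 :=
          mul_le_mul_of_nonneg_left (pow_le_pow_left₀ hs0.le hsl 2) (by positivity)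
      _ ≤ 64 * l ^ 4 := by nlinarith [sq_nonneg (l ^ 2)]
  have h2 : ∑ x ∈ F, wn N x * En x t ^ 2 ≤
      ∑ x ∈ (Icc 1 N).filter (fun x => N ≤ x ^ (2 ^ (b + 1))), wn N x * En x t ^ 2 := by
    refine Finset.sum_le_sum_of_subset_of_nonneg ?_ fun x _ _ =>
      mul_nonneg (wn_nonneg N x) (sq_nonneg _)
    rw [hF]
    exact Finset.filter_subset_filter _ Finset.Ico_subset_Icc_self
  refine hcs.trans ?_
  exact mul_le_mul h1 h2 (Finset.sum_nonneg fun x _ => mul_nonneg (wn_nonneg N x) (sq_nonneg _))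
    (by positivity)

end Pool.Agent.Lib.P4a7640G
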