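import Mathlib
import Pool.Agent.Lib.P4a7640E.DLog

/-!
# An Euler product bound for the divisor sums of `csg`

Module P4a7640G.EulerB (1.2 h). Imports are black boxes.

`csg T n = ∏ p ∈ T, (-1)^(n.factorization p)`, `rr T n = ∑ d ∣ n, csg T d` are from P4a7640E/DLog.lean (namespace
`DLogAux`, with `csg_mul`, `csg_pow`, `rr_eq`, `rr_nonneg`, `ca_mult`). `euler_bound`: let `f k = rr T k / k` for
`k ≥ 1`, `f 0 = 0`; it is `≥ 0`, `f 1 = 1`, multiplicative. `∑ k ≤ M, f k ≤ ∑ over the (M+1)-smooth numbers`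
`= ∏ p ∈ primesBelow (M+1), ∑' a, f (p^a)` (`EulerProduct.summable_and_hasSum_smoothNumbers_prod_primesBelow_tsum`).
For `p ∉ T`: `rr T (p^a) = a + 1`, `∑' a, (a+1)/p^a = (1 - 1/p)^(-2)` (`tsum_geometric`-type lemmas:
`tsum_coe_mul_geometric_of_norm_lt_one`, `tsum_geometric_of_lt_one`, or `hasSum_choose_mul_geometric_of_norm_lt_one`).
For `p ∈ T`: `rr T (p^a) = ∑ i ≤ a, (-1)^i` is `1` for even `a`, `0` for odd `a`:
`∑' = (1 - 1/p^2)^(-1)` (or the Cauchy product of the geometric series of `1/p` and `-1/p`: for `c = csg T p = ±1`,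
`∑' a, (∑ i ≤ a, c^i) s^a = 1/(1-s) * 1/(1 - c s)`, `tsum_mul_tsum_eq_tsum_sum_antidiagonal_of_summable_norm`,
which treats both cases at once). With `s = 1/p`: `(1 - s^2)^(-1) = (1 - s)^(-2) * ((1 - s)/(1 + s))` and
`(1 - s)/(1 + s) ≤ exp (-2 s)` (`1 - s ≤ exp (-s)`, and `1/(1+s) ≤ exp (-s)·..`: use
`log ((1+s)/(1-s)) ≥ 2 s`, e.g. from `Real.hasSum_log_sub_log_of_abs_lt_one`, or
`(1 - s) exp (2 s) ≤ 1 + s` by `exp (2 s) ≤ (1+s)/(1-s)`).
`sum_csg`: `∑ n ≤ M, hs (M/n)/n * csg n = ∑ k ≤ M, rr k / k`: with `cv`, `cv_fiber`, `cv_right` as in the proof of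
`main_lower` (`e1`, `f2` there).
-/

open Finset Filter Topology
open Pool.Agent.Lib.P4a7640 Pool.Agent.Lib.P4a7640T Pool.Agent.Lib.P4a7640E
open Pool.Agent.Lib.P4a7640E.DLogAux

namespace Pool.Agent.Lib.P4a7640G

theorem sum_csg (T : Finset ℕ) (M : ℕ) :
    ∑ n ∈ Icc 1 M, hs (M / n) / n * csg T n = ∑ k ∈ Icc 1 M, rr T k / k := by
  have e1 : ∑ n ∈ Icc 1 M, hs (M / n) / n * csg T n =
      cv M (fun m n => csg T m / m * ((1:ℝ) / n)) := by
    rw [cv_right M (csg T) (fun _ => 1)]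
    refine Finset.sum_congr rfl fun m _ => ?_
    unfold hs
    ring
  rw [e1, cv_fiber]
  refine Finset.sum_congr rfl fun k hk => ?_
  have f2 : ∑ x ∈ k.divisorsAntidiagonal, csg T x.1 / x.1 * ((1:ℝ) / x.2) =
      (1 / (k:ℝ)) * ∑ x ∈ k.divisorsAntidiagonal, csg T x.1 := by
    rw [Finset.mul_sum]
    refine Finset.sum_congr rfl fun x hx => ?_
    obtain ⟨h2, h3⟩ := Nat.mem_divisorsAntidiagonal.1 hx
    rw [← h2, Nat.cast_mul, div_mul_div_comm, mul_one, div_eq_mul_one_div, mul_comm]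
  have h1 : ∑ x ∈ k.divisorsAntidiagonal, csg T x.1 = rr T k :=
    Nat.sum_divisorsAntidiagonal (fun a _ => csg T a)
  rw [f2, h1, one_div, div_eq_inv_mul]

namespace EulerBAux

theorem rr_one (T : Finset ℕ) : rr T 1 = 1 := by
  unfold rr
  rw [Nat.divisors_one, Finset.sum_singleton, csg_one]

theorem rr_coprime (T : Finset ℕ) {m n : ℕ} (h : Nat.Coprime m n) :
    rr T (m * n) = rr T m * rr T n := by
  have hm : ((ArithmeticFunction.zeta : ArithmeticFunction ℝ) * ca T).IsMultiplicative :=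
    (ArithmeticFunction.isMultiplicative_zeta.natCast).mul (ca_mult T)
  rw [← rr_eq, ← rr_eq, ← rr_eq]
  exact hm.map_mul_of_coprime h

theorem rr_prime_pow (T : Finset ℕ) {p : ℕ} (hp : p.Prime) (a : ℕ) :
    rr T (p ^ a) / ((p ^ a : ℕ) : ℝ) =
      ∑ i ∈ range (a + 1), (csg T p * (1 / p)) ^ i * (1 / (p:ℝ)) ^ (a - i) := by
  unfold rr
  rw [Nat.sum_divisors_prime_pow hp, Finset.sum_congr rfl fun i _ => csg_pow T hp.ne_zero i,
    Finset.sum_div]
  refine Finset.sum_congr rfl fun i hi => ?_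
  have hi' : i ≤ a := by
    have := mem_range.1 hi
    omega
  have hp0 : (p:ℝ) ≠ 0 := by exact_mod_cast hp.ne_zero
  rw [mul_pow, mul_assoc, ← pow_add, Nat.add_sub_cancel' hi', Nat.cast_pow, one_div_pow,
    div_eq_mul_one_div]

theorem s_bd {p : ℕ} (hp : p.Prime) : 0 < 1 / (p:ℝ) ∧ 1 / (p:ℝ) < 1 := by
  have h2 : (1:ℝ) < p := by exact_mod_cast hp.one_lt
  refine ⟨by positivity, ?_⟩
  rw [div_lt_one (by linarith)]
  exact h2

theorem abs_cs (T : Finset ℕ) {p : ℕ} (hp : p.Prime) : |csg T p * (1 / (p:ℝ))| < 1 := by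
  obtain ⟨h1, h2⟩ := s_bd hp
  rw [abs_mul]
  have h3 : |csg T p| = 1 := by
    rcases csg_eq T p with h | h <;> rw [h] <;> norm_num
  rw [h3, one_mul, abs_of_pos h1]
  exact h2

theorem sum1 (T : Finset ℕ) {p : ℕ} (hp : p.Prime) :
    Summable fun i : ℕ => ‖(csg T p * (1 / (p:ℝ))) ^ i‖ := by
  simp only [norm_pow]
  refine summable_geometric_of_lt_one (norm_nonneg _) ?_
  rw [Real.norm_eq_abs]
  exact abs_cs T hp

theorem sum2 {p : ℕ} (hp : p.Prime) : Summable fun i : ℕ => ‖(1 / (p:ℝ)) ^ i‖ := by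
  obtain ⟨h1, h2⟩ := s_bd hp
  simp only [norm_pow]
  refine summable_geometric_of_lt_one (norm_nonneg _) ?_
  rw [Real.norm_eq_abs, abs_of_pos h1]
  exact h2

theorem local_tsum (T : Finset ℕ) {p : ℕ} (hp : p.Prime) :
    ∑' a : ℕ, rr T (p ^ a) / ((p ^ a : ℕ) : ℝ) =
      (1 - csg T p * (1 / (p:ℝ)))⁻¹ * (1 - 1 / (p:ℝ))⁻¹ := by
  obtain ⟨h1, h2⟩ := s_bd hp
  rw [← tsum_geometric_of_abs_lt_one (abs_cs T hp), ← tsum_geometric_of_lt_one h1.le h2,
    tsum_mul_tsum_eq_tsum_sum_range_of_summable_norm (sum1 T hp) (sum2 hp)]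
  exact tsum_congr fun a => rr_prime_pow T hp a

theorem local_summable (T : Finset ℕ) {p : ℕ} (hp : p.Prime) :
    Summable fun a : ℕ => ‖rr T (p ^ a) / ((p ^ a : ℕ) : ℝ)‖ := by
  simp only [rr_prime_pow T hp]
  exact summable_norm_sum_mul_range_of_summable_norm (sum1 T hp) (sum2 hp)

theorem csg_mem {T : Finset ℕ} (hT : ∀ p ∈ T, p.Prime) {p : ℕ} (hp : p ∈ T) : csg T p = -1 := by
  unfold csg
  rw [Finset.prod_eq_single p]
  · rw [(hT p hp).factorization_self, pow_one]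
  · intro q hq hqp
    have h1 : p.factorization q = 0 := by
      rw [(hT p hp).factorization, Finsupp.single_apply, if_neg (fun h => hqp h.symm)]
    rw [h1, pow_zero]
  · intro h
    exact absurd hp h

theorem csg_notMem (T : Finset ℕ) {p : ℕ} (hpp : p.Prime) (hp : p ∉ T) : csg T p = 1 := by
  unfold csg
  refine Finset.prod_eq_one fun q hq => ?_
  have h1 : p.factorization q = 0 := by
    rw [hpp.factorization, Finsupp.single_apply, if_neg]
    rintro rfl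
    exact hp hq
  rw [h1, pow_zero]

theorem two_mul_le {s : ℝ} (h0 : 0 ≤ s) (h1 : s < 1) : (1 - s) * Real.exp (2 * s) ≤ 1 + s := by
  have h2 := Real.hasSum_log_sub_log_of_abs_lt_one (x := s) (by rw [abs_of_nonneg h0]; exact h1)
  have h3 := sum_le_hasSum {0} (fun i _ => by positivity) h2
  rw [Finset.sum_singleton] at h3
  have h4 : 2 * s ≤ Real.log (1 + s) - Real.log (1 - s) := by
    refine le_trans (le_of_eq ?_) h3
    norm_num
  have h5 : 0 < 1 - s := by linarith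
  rw [← Real.log_div (by linarith) h5.ne'] at h4
  have h6 := (Real.le_log_iff_exp_le (div_pos (by linarith) h5)).1 h4
  rw [le_div_iff₀ h5] at h6
  linarith

open Classical in
theorem local_le {T : Finset ℕ} (hT : ∀ p ∈ T, p.Prime) {p : ℕ} (hp : p.Prime) :
    (1 - csg T p * (1 / (p:ℝ)))⁻¹ * (1 - 1 / (p:ℝ))⁻¹ ≤
      ((1 - 1 / (p:ℝ))⁻¹) ^ 2 * Real.exp (-(2 * if p ∈ T then 1 / (p:ℝ) else 0)) := by
  obtain ⟨h1, h2⟩ := s_bd hp
  set s : ℝ := 1 / (p:ℝ) with hs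
  have h3 : 0 < 1 - s := by linarith
  by_cases h : p ∈ T
  · rw [if_pos h, csg_mem hT h]
    have h4 := two_mul_le h1.le h2
    have h5 : (1 - -1 * s)⁻¹ = (1 + s)⁻¹ := by ring_nf
    rw [h5, sq, mul_assoc, mul_comm]
    refine mul_le_mul_of_nonneg_left ?_ (inv_nonneg.2 h3.le)
    rw [Real.exp_neg, ← mul_inv]
    exact inv_anti₀ (mul_pos h3 (Real.exp_pos _)) h4
  · rw [if_neg h, csg_notMem T hp h, mul_zero, neg_zero, Real.exp_zero, mul_one, one_mul, sq]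

end EulerBAux

open EulerBAux in
theorem euler_bound {T : Finset ℕ} (hT : ∀ p ∈ T, p.Prime) (M : ℕ) :
    ∑ k ∈ Icc 1 M, rr T k / k ≤ (∏ p ∈ Nat.primesBelow (M + 1), (1 - 1 / (p:ℝ))⁻¹) ^ 2 *
      Real.exp (-(2 * ∑ p ∈ T.filter (fun p => p ≤ M), 1 / (p:ℝ))) := by
  classical
  set f : ℕ → ℝ := fun k => rr T k / k with hf
  have hf1 : f 1 = 1 := by
    simp only [hf]
    rw [rr_one]
    norm_num
  have hmul : ∀ {m n : ℕ}, Nat.Coprime m n → f (m * n) = f m * f n := by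
    intro m n hmn
    simp only [hf]
    rw [rr_coprime T hmn, Nat.cast_mul, mul_div_mul_comm]
  have hsm : ∀ {p : ℕ}, p.Prime → Summable (fun n : ℕ => ‖f (p ^ n)‖) := fun hp =>
    local_summable T hp
  have hfn : ∀ k, 0 ≤ f k := by
    intro k
    rcases Nat.eq_zero_or_pos k with rfl | hk
    · simp [hf]
    · exact div_nonneg (rr_nonneg T hk.ne') (Nat.cast_nonneg k)
  have h1 := (EulerProduct.summable_and_hasSum_smoothNumbers_prod_primesBelow_tsum hf1 hmul hsm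
    (M + 1)).2
  have h2 : HasSum ((Nat.smoothNumbers (M + 1)).indicator f)
      (∏ p ∈ (M + 1).primesBelow, ∑' n : ℕ, f (p ^ n)) := hasSum_subtype_iff_indicator.1 h1
  have h3 := sum_le_hasSum (Icc 1 M) (fun i _ => Set.indicator_nonneg (fun k _ => hfn k) i) h2
  have h4 : ∑ k ∈ Icc 1 M, (Nat.smoothNumbers (M + 1)).indicator f k = ∑ k ∈ Icc 1 M, f k := by
    refine Finset.sum_congr rfl fun k hk => ?_
    obtain ⟨k1, k2⟩ := mem_Icc.1 hk
    exact Set.indicator_of_mem (Nat.mem_smoothNumbers_of_lt k1 (by omega)) f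
  rw [h4] at h3
  refine h3.trans ?_
  have h5 : ∏ p ∈ (M + 1).primesBelow, ∑' n : ℕ, f (p ^ n) ≤
      ∏ p ∈ (M + 1).primesBelow,
        (((1 - 1 / (p:ℝ))⁻¹) ^ 2 * Real.exp (-(2 * if p ∈ T then 1 / (p:ℝ) else 0))) := by
    refine Finset.prod_le_prod (fun p _ => tsum_nonneg fun n => hfn _) fun p hp => ?_
    have hpp : p.Prime := (Nat.mem_primesBelow.1 hp).2
    have e : ∑' n : ℕ, f (p ^ n) = (1 - csg T p * (1 / (p:ℝ)))⁻¹ * (1 - 1 / (p:ℝ))⁻¹ :=
      local_tsum T hpp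
    rw [e]
    exact local_le hT hpp
  refine h5.trans (le_of_eq ?_)
  rw [Finset.prod_mul_distrib, Finset.prod_pow, ← Real.exp_sum]
  congr 2
  rw [Finset.sum_neg_distrib, ← Finset.mul_sum]
  congr 2
  rw [← Finset.sum_filter]
  refine Finset.sum_congr ?_ fun _ _ => rfl
  ext p
  simp only [mem_filter, Nat.mem_primesBelow]
  constructor
  · rintro ⟨⟨h6, _⟩, h7⟩
    exact ⟨h7, by omega⟩
  · rintro ⟨h6, h7⟩
    exact ⟨⟨by omega, hT p h6⟩, h6⟩

end Pool.Agent.Lib.P4a7640G
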