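import Mathlib
import Pool.Agent.Lib.P4a7640G.Base
import Pool.Agent.Lib.P4a7640E.MixD
import Pool.Agent.Lib.P4a7640E.DLog

/-!
# Comparison with harmonic sums and the lower bound

Module P4a7640G.HarmD (1.3 h). Imports are black boxes.

`harm_D`: with `M = ⌊exp y⌋₊ ≥ 1`, `n ≤ M`, `k = M / n ≥ 1`: `log k ≤ log (M/n) ≤ y - log n` and
`log (k + 1) ≥ log (M/n) ≥ y - log n - log 2` (`M ≥ exp y / 2`); `log (k+1) ≤ hs k ≤ 1 + log k` (harmonic numbers,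
`log_add_one_le_harmonic`, `harmonic_le_one_add_log`). So `|hs k - (y - log n)| ≤ 1` and
`∑ n ≤ M, 1/n ≤ 1 + log M ≤ 1 + y`. `WW_D`: `Dd 1 y` (t = 1): `((y - log n)^2 - (y - log (n+1))^2)/2 ≤ (y - log n)/n`
and `(y - log (n+1))/(n+1) ≤ ((y - log n)^2 - (y - log (n+1))^2)/2` while `log (n+1) ≤ y`; telescoping:
`|Dd 1 y - y^2/2| ≤ 2 (1 + y)`-like; combine with `harm_D` for `t = 1` (`∑ n, hs (M/n)/n = WW M`).
`D_low`: `dlog_mean` and `mix_pr` give `∑ n ≤ M, dsg = -1, hs (M/n)/n ≤ ((1 - Π)/2 + s) WW M` with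
`Π = ∏ (1 - 1/p)^2`, `s = ∑ 1/p^2`, so `∑ n ≤ M, sg (dsg T n) hs (M/n)/n ≥ (Π - 2 s) WW M`, and
`|Π - 2 s| ≤ 3` (`s ≤ 1`: `s ≤ ∑ n ≥ 2, 1/n^2 ≤ ∑ 1/(n (n-1))`), `|WW M - y^2/2| ≤ C (1 + y)`, `harm_D`.
-/

open Finset Filter Topology
open Pool.Agent.Lib.P4a7640 Pool.Agent.Lib.P4a7640T Pool.Agent.Lib.P4a7640E

namespace Pool.Agent.Lib.P4a7640G

namespace HarmDAux

theorem hs_eq (k : ℕ) : hs k = ((harmonic k : ℚ) : ℝ) := by
  rw [harmonic_eq_sum_Icc]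
  unfold hs
  push_cast
  exact sum_congr rfl fun n _ => one_div _

theorem hs_lower (k : ℕ) : Real.log ((k : ℝ) + 1) ≤ hs k := by
  rw [hs_eq]
  have := log_add_one_le_harmonic k
  push_cast at this
  exact this

theorem hs_upper (k : ℕ) : hs k ≤ 1 + Real.log k := by
  rw [hs_eq]
  exact harmonic_le_one_add_log k

theorem M_pos {y : ℝ} (hy : 0 ≤ y) : 1 ≤ ⌊Real.exp y⌋₊ :=
  Nat.le_floor (by rw [Nat.cast_one]; exact Real.one_le_exp hy)

theorem M_le (y : ℝ) : ((⌊Real.exp y⌋₊ : ℕ) : ℝ) ≤ Real.exp y := Nat.floor_le (Real.exp_pos y).le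

theorem log_M_le {y : ℝ} (hy : 0 ≤ y) : Real.log ((⌊Real.exp y⌋₊ : ℕ) : ℝ) ≤ y := by
  have h1 : (0:ℝ) < ((⌊Real.exp y⌋₊ : ℕ) : ℝ) := by exact_mod_cast M_pos hy
  rw [Real.log_le_iff_le_exp h1]
  exact M_le y

theorem hs_close {y : ℝ} {n : ℕ} (h1 : 1 ≤ n) (h2 : n ≤ ⌊Real.exp y⌋₊) :
    y - Real.log n ≤ hs (⌊Real.exp y⌋₊ / n) ∧ hs (⌊Real.exp y⌋₊ / n) ≤ 1 + (y - Real.log n) := by
  obtain ⟨M, hM⟩ : ∃ M, M = ⌊Real.exp y⌋₊ := ⟨_, rfl⟩
  have hMe : (M : ℝ) ≤ Real.exp y := by rw [hM]; exact M_le y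
  have hMe2 : Real.exp y < (M : ℝ) + 1 := by rw [hM]; exact Nat.lt_floor_add_one _
  rw [← hM] at h2 ⊢
  have hn0 : (0:ℝ) < n := by exact_mod_cast h1
  obtain ⟨k, hk⟩ : ∃ k, k = M / n := ⟨_, rfl⟩
  have hk1 : 1 ≤ k := by rw [hk]; exact (Nat.one_le_div_iff (by omega)).2 h2
  have hk0 : (0:ℝ) < k := by exact_mod_cast hk1
  have hkn : (k : ℝ) * n ≤ M := by
    have : k * n ≤ M := by rw [hk]; exact Nat.div_mul_le_self M n
    exact_mod_cast this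
  have hkn2 : (M : ℝ) + 1 ≤ (k + 1) * n := by
    have h3 : M < (k + 1) * n := by
      rw [hk, mul_comm]
      exact Nat.lt_mul_div_succ M h1
    exact_mod_cast h3
  rw [← hk]
  constructor
  · refine le_trans ?_ (hs_lower k)
    rw [Real.le_log_iff_exp_le (by positivity), Real.exp_sub, Real.exp_log hn0,
      div_le_iff₀ hn0]
    linarith
  · refine (hs_upper k).trans ?_
    have : Real.log k ≤ y - Real.log n := by
      rw [Real.log_le_iff_le_exp hk0, Real.exp_sub, Real.exp_log hn0, le_div_iff₀ hn0]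
      linarith
    linarith

theorem abs_sg' (u : ℤˣ) : |sg u| = 1 := by
  unfold sg
  rcases Int.units_eq_one_or u with rfl | rfl <;> simp

/-- the quadratic primitive -/
noncomputable def f (y : ℝ) (n : ℕ) : ℝ := (y - Real.log n) ^ 2 / 2

/-- the summand -/
noncomputable def a (y : ℝ) (n : ℕ) : ℝ := (y - Real.log n) / n

theorem log_step {n : ℕ} (hn : 1 ≤ n) : 1 / ((n : ℝ) + 1) ≤ Real.log ((n + 1 : ℕ) : ℝ) - Real.log n ∧
    Real.log ((n + 1 : ℕ) : ℝ) - Real.log n ≤ 1 / n := by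
  have hn0 : (0:ℝ) < n := by exact_mod_cast hn
  push_cast
  constructor
  · have h1 : Real.log ((n : ℝ) / (n + 1)) ≤ (n : ℝ) / (n + 1) - 1 :=
      Real.log_le_sub_one_of_pos (by positivity)
    rw [Real.log_div (by positivity) (by positivity)] at h1
    have h2 : (n : ℝ) / (n + 1) - 1 = -(1 / ((n : ℝ) + 1)) := by
      field_simp
      ring
    linarith
  · have h1 : Real.log (((n : ℝ) + 1) / n) ≤ ((n : ℝ) + 1) / n - 1 :=
      Real.log_le_sub_one_of_pos (by positivity)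
    rw [Real.log_div (by positivity) (by positivity)] at h1
    have h2 : ((n : ℝ) + 1) / n - 1 = 1 / (n : ℝ) := by
      field_simp
      ring
    linarith

theorem f_step {y : ℝ} {n : ℕ} (hn : 1 ≤ n) (hy : Real.log ((n + 1 : ℕ) : ℝ) ≤ y) :
    a y (n + 1) ≤ f y n - f y (n + 1) ∧ f y n - f y (n + 1) ≤ a y n := by
  obtain ⟨h1, h2⟩ := log_step hn
  have hn0 : (0:ℝ) < n := by exact_mod_cast hn
  obtain ⟨L, hL⟩ : ∃ L, L = Real.log (n : ℝ) := ⟨_, rfl⟩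
  obtain ⟨L', hL'⟩ : ∃ L', L' = Real.log ((n + 1 : ℕ) : ℝ) := ⟨_, rfl⟩
  unfold a f
  rw [← hL, ← hL'] at h1 h2
  rw [← hL'] at hy
  rw [← hL, ← hL']
  have h0 : 0 ≤ 1 / ((n : ℝ) + 1) := by positivity
  have e : (y - L) ^ 2 / 2 - (y - L') ^ 2 / 2 = (L' - L) * (((y - L) + (y - L')) / 2) := by ring
  rw [e]
  have hu : 0 ≤ y - L' := by linarith
  constructor
  · have e2 : (y - L') / ((n + 1 : ℕ) : ℝ) = 1 / ((n : ℝ) + 1) * (y - L') := by
      push_cast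
      ring
    rw [e2]
    exact mul_le_mul h1 (by linarith) hu (by linarith)
  · have e2 : (y - L) / (n : ℝ) = 1 / (n : ℝ) * (y - L) := by ring
    rw [e2]
    exact mul_le_mul h2 (by linarith) (by linarith) (by positivity)

theorem sum_a {y : ℝ} : ∀ m : ℕ, 1 ≤ m → Real.log (m : ℝ) ≤ y →
    (∑ n ∈ Icc 1 m, a y n ≤ y + (y ^ 2 / 2 - f y m)) ∧
      y ^ 2 / 2 - f y m + a y m ≤ ∑ n ∈ Icc 1 m, a y n := by
  intro m hm
  induction m, hm using Nat.le_induction with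
  | base =>
    intro _
    rw [Icc_self, sum_singleton]
    unfold a f
    simp
  | succ m hm ih =>
    intro hy
    have hm0 : (0:ℝ) < m := by exact_mod_cast hm
    have h1 : Real.log (m : ℝ) ≤ y := by
      refine le_trans (Real.log_le_log hm0 ?_) hy
      push_cast
      linarith
    obtain ⟨h2, h3⟩ := ih h1
    obtain ⟨h4, h5⟩ := f_step hm hy
    rw [sum_Icc_succ_top (by omega)]
    constructor <;> linarith

theorem Dd_one {y : ℝ} (hy : 0 ≤ y) : |Dd (fun _ => 1) y - y ^ 2 / 2| ≤ 1 + y := by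
  have e : Dd (fun _ => 1) y = ∑ n ∈ Icc 1 ⌊Real.exp y⌋₊, a y n := by
    unfold Dd
    refine sum_congr rfl fun n _ => ?_
    unfold sg a
    simp only [Units.val_one, Int.cast_one]
    ring
  obtain ⟨h1, h2⟩ := sum_a (y := y) ⌊Real.exp y⌋₊ (M_pos hy) (log_M_le hy)
  rw [e]
  have hM1 : (1:ℝ) ≤ ((⌊Real.exp y⌋₊ : ℕ) : ℝ) := by exact_mod_cast M_pos hy
  have hl := log_M_le hy
  have h3 : y - Real.log ((⌊Real.exp y⌋₊ : ℕ) : ℝ) ≤ 1 := by
    have h4 : Real.exp y < ((⌊Real.exp y⌋₊ : ℕ) : ℝ) + 1 := Nat.lt_floor_add_one _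
    have h5 : Real.exp (y - 1) ≤ ((⌊Real.exp y⌋₊ : ℕ) : ℝ) := by
      rw [Real.exp_sub, div_le_iff₀ (Real.exp_pos 1)]
      have h6 : (2:ℝ) ≤ Real.exp 1 := by
        have := Real.add_one_le_exp (1:ℝ)
        linarith
      have h7 : ((⌊Real.exp y⌋₊ : ℕ) : ℝ) * 2 ≤ ((⌊Real.exp y⌋₊ : ℕ) : ℝ) * Real.exp 1 :=
        mul_le_mul_of_nonneg_left h6 (by linarith)
      linarith
    have h8 : y - 1 ≤ Real.log ((⌊Real.exp y⌋₊ : ℕ) : ℝ) := by
      rw [Real.le_log_iff_exp_le (by linarith)]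
      exact h5
    linarith
  have hf0 : 0 ≤ f y ⌊Real.exp y⌋₊ := by
    unfold f
    positivity
  have hf1 : f y ⌊Real.exp y⌋₊ ≤ 1 / 2 := by
    unfold f
    have : (y - Real.log ((⌊Real.exp y⌋₊ : ℕ) : ℝ)) ^ 2 ≤ 1 := by
      rw [sq_le_one_iff_abs_le_one, abs_le]
      constructor <;> linarith
    linarith
  have ha0 : 0 ≤ a y ⌊Real.exp y⌋₊ := by
    unfold a
    apply div_nonneg <;> linarith
  rw [abs_le]
  constructor <;> linarith

theorem sum_sq_le_one {T : Finset ℕ} (hT : ∀ p ∈ T, p.Prime) : ∑ p ∈ T, 1 / (p:ℝ) ^ 2 ≤ 1 := by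
  obtain ⟨K, hK⟩ : ∃ K, K = T.sup id + 1 := ⟨_, rfl⟩
  have hsub : T ⊆ Ioc 1 K := by
    intro p hp
    rw [mem_Ioc]
    refine ⟨(hT p hp).one_lt, ?_⟩
    have : p ≤ T.sup id := le_sup (f := id) hp
    omega
  calc ∑ p ∈ T, 1 / (p:ℝ) ^ 2 ≤ ∑ p ∈ Ioc 1 K, 1 / (p:ℝ) ^ 2 :=
        sum_le_sum_of_subset_of_nonneg hsub fun p _ _ => by positivity
    _ = ∑ p ∈ Ioc 1 K, ((p:ℝ) ^ 2)⁻¹ := sum_congr rfl fun p _ => one_div _
    _ ≤ ((1:ℕ):ℝ)⁻¹ - ((K:ℕ):ℝ)⁻¹ := sum_Ioc_inv_sq_le_sub one_ne_zero (by omega)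
    _ ≤ 1 := by
        have : (0:ℝ) ≤ ((K:ℕ):ℝ)⁻¹ := by positivity
        simp only [Nat.cast_one, inv_one]
        linarith

end HarmDAux

open HarmDAux

theorem harm_D (t : ℕ → ℤˣ) {y : ℝ} (hy : 0 ≤ y) :
    |∑ n ∈ Icc 1 ⌊Real.exp y⌋₊, sg (t n) * (hs (⌊Real.exp y⌋₊ / n) / n) - Dd t y| ≤ 1 + y := by
  have hM := log_M_le hy
  unfold Dd
  rw [← sum_sub_distrib]
  calc |∑ n ∈ Icc 1 ⌊Real.exp y⌋₊, (sg (t n) * (hs (⌊Real.exp y⌋₊ / n) / n) -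
        sg (t n) / n * (y - Real.log n))|
      ≤ ∑ n ∈ Icc 1 ⌊Real.exp y⌋₊, |sg (t n) * (hs (⌊Real.exp y⌋₊ / n) / n) -
        sg (t n) / n * (y - Real.log n)| := abs_sum_le_sum_abs _ _
    _ ≤ ∑ n ∈ Icc 1 ⌊Real.exp y⌋₊, (1:ℝ) / n := by
        refine sum_le_sum fun n hn => ?_
        obtain ⟨h1, h2⟩ := mem_Icc.1 hn
        obtain ⟨h3, h4⟩ := hs_close h1 h2
        have hn0 : (0:ℝ) < n := by exact_mod_cast h1
        have e : sg (t n) * (hs (⌊Real.exp y⌋₊ / n) / n) - sg (t n) / n * (y - Real.log n) =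
            sg (t n) * ((hs (⌊Real.exp y⌋₊ / n) - (y - Real.log n)) * (1 / n)) := by ring
        rw [e, abs_mul, abs_sg', one_mul, abs_mul, abs_of_pos (show (0:ℝ) < 1 / n by positivity)]
        have h5 : |hs (⌊Real.exp y⌋₊ / n) - (y - Real.log n)| ≤ 1 := by
          rw [abs_le]
          constructor <;> linarith
        exact mul_le_of_le_one_left (by positivity) h5
    _ = hs ⌊Real.exp y⌋₊ := rfl
    _ ≤ 1 + y := (hs_upper _).trans (by linarith)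

theorem WW_D : ∃ C : ℝ, 0 < C ∧ ∀ y : ℝ, 0 ≤ y → |WW ⌊Real.exp y⌋₊ - y ^ 2 / 2| ≤ C * (1 + y) := by
  refine ⟨2, by norm_num, fun y hy => ?_⟩
  have h1 := harm_D (fun _ => 1) hy
  have h2 := Dd_one hy
  have e : ∑ n ∈ Icc 1 ⌊Real.exp y⌋₊, sg ((fun _ => 1 : ℕ → ℤˣ) n) *
      (hs (⌊Real.exp y⌋₊ / n) / n) = WW ⌊Real.exp y⌋₊ := by
    unfold WW
    refine sum_congr rfl fun n _ => ?_
    unfold sg
    simp
  rw [e] at h1
  obtain ⟨h3, h4⟩ := abs_le.1 h1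
  obtain ⟨h5, h6⟩ := abs_le.1 h2
  rw [abs_le]
  constructor <;> linarith

theorem D_low : ∃ C : ℝ, 0 < C ∧ ∀ (T : Finset ℕ) (y : ℝ), (∀ p ∈ T, p.Prime) → 0 ≤ y →
    (∏ p ∈ T, (1 - 1 / (p:ℝ)) ^ 2) * (y ^ 2 / 2) - (∑ p ∈ T, 1 / (p:ℝ) ^ 2) * y ^ 2 -
      C * (1 + y) ≤ Dd (dsg T) y := by
  classical
  obtain ⟨C, hC, hW⟩ := WW_D
  refine ⟨3 * C + 1, by positivity, fun T y hT hy => ?_⟩
  have hM := M_pos hy
  have h1 := dlog_mean hT hM
  rw [mix_pr, div_le_iff₀ (WW_pos hM)] at h1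
  have h2 := harm_D (dsg T) hy
  have h3 := hW y hy
  obtain ⟨M, hMd⟩ : ∃ M, M = ⌊Real.exp y⌋₊ := ⟨_, rfl⟩
  rw [← hMd] at h1 h2 h3
  obtain ⟨P, hP⟩ : ∃ P : ℝ, P = ∏ p ∈ T, (1 - 1 / (p:ℝ)) ^ 2 := ⟨_, rfl⟩
  obtain ⟨s, hs'⟩ : ∃ s : ℝ, s = ∑ p ∈ T, 1 / (p:ℝ) ^ 2 := ⟨_, rfl⟩
  have hs1 : s ≤ 1 := by rw [hs']; exact sum_sq_le_one hT
  have hs0 : 0 ≤ s := by rw [hs']; exact sum_nonneg fun p _ => by positivity
  have hP0 : 0 ≤ P := by rw [hP]; exact prod_nonneg fun p _ => by positivity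
  have hP1 : P ≤ 1 := by
    rw [hP]
    refine prod_le_one (fun p _ => by positivity) fun p hp => ?_
    have h4 : (1:ℝ) ≤ p := by exact_mod_cast (hT p hp).one_lt.le
    have h5 : 0 < 1 / (p:ℝ) := by positivity
    have h6 : 1 / (p:ℝ) ≤ 1 := by
      rw [div_le_one (by linarith)]
      exact h4
    exact pow_le_one₀ (by linarith) (by linarith)
  rw [← hP, ← hs'] at h1
  rw [← hP, ← hs']
  have h1' : ∑ n ∈ (Icc 1 M).filter (fun n => dsg T n = -1), hs (M / n) / n ≤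
      ((1 - P) / 2 + s) * WW M := by
    refine le_trans (le_of_eq ?_) h1
    congr
  -- the sum of the signs
  have e : ∑ n ∈ Icc 1 M, sg (dsg T n) * (hs (M / n) / n) = WW M -
      2 * ∑ n ∈ (Icc 1 M).filter (fun n => dsg T n = -1), hs (M / n) / n := by
    unfold WW
    rw [sum_filter, mul_sum, ← sum_sub_distrib]
    refine sum_congr rfl fun n _ => ?_
    rcases Int.units_eq_one_or (dsg T n) with h | h
    · rw [h, if_neg (by decide)]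
      unfold sg
      simp
    · rw [h, if_pos rfl]
      unfold sg
      simp only [Units.val_neg, Units.val_one, Int.cast_neg, Int.cast_one]
      ring
  rw [e] at h2
  obtain ⟨h4, h5⟩ := abs_le.1 h2
  obtain ⟨h6, h7⟩ := abs_le.1 h3
  have h8 : (P - 2 * s) * WW M ≤ WW M -
      2 * ∑ n ∈ (Icc 1 M).filter (fun n => dsg T n = -1), hs (M / n) / n := by
    have e2 : (P - 2 * s) * WW M = WW M - 2 * (((1 - P) / 2 + s) * WW M) := by ring
    rw [e2]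
    linarith
  have h9 : (P - 2 * s) * (y ^ 2 / 2) - 3 * (C * (1 + y)) ≤ (P - 2 * s) * WW M := by
    have e3 : (P - 2 * s) * WW M = (P - 2 * s) * (y ^ 2 / 2) +
        (P - 2 * s) * (WW M - y ^ 2 / 2) := by ring
    rw [e3]
    have h10 : |(P - 2 * s) * (WW M - y ^ 2 / 2)| ≤ 3 * (C * (1 + y)) := by
      rw [abs_mul]
      refine mul_le_mul ?_ h3 (abs_nonneg _) (by norm_num)
      rw [abs_le]
      constructor <;> linarith
    have := (abs_le.1 h10).1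
    linarith
  have e4 : P * (y ^ 2 / 2) - s * y ^ 2 = (P - 2 * s) * (y ^ 2 / 2) := by ring
  rw [e4]
  linarith

end Pool.Agent.Lib.P4a7640G
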