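import Mathlib
import Pool.Agent.Lib.P4a7640G.HarmD
import Pool.Agent.Lib.P4a7640G.EulerA
import Pool.Agent.Lib.P4a7640G.EulerB

/-!
# The upper bound by an Euler product

Module P4a7640G.EulerUp (0.9 h). Imports are black boxes.

`M = ⌊exp y⌋₊ ≥ 2`, `log M ≤ y`. By `sum_csg`, `euler_bound`, `mertens_prod`:
`∑ n ≤ M, hs (M/n)/n * csg n ≤ C^2 y^2 exp (-2 ∑ p ∈ T, p ≤ M, 1/p)` (`p ≤ M ↔ (p:ℝ) ≤ exp y`, `Nat.le_floor_iff`).
`sg (dsg T n)` and `csg T n` differ only if some `p ∈ T` has `p^2 ∣ n` (`DLogAux.csg_of_squarefree` and its proof in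
P4a7640E/DLog.lean: under its hypothesis both are `∏ p ∈ T, (if p ∣ n then -1 else 1)`), so the sums with `dsg` and
`csg` differ by at most `2 ∑ p ∈ T, ∑ n ≤ M, p^2 ∣ n, hs (M/n)/n ≤ 2 ∑ p ∈ T, WW M / p^2` (`DLogAux.mult_le`), and
`WW M ≤ y^2/2 + C (1 + y) ≤ C' y^2` (`WW_D`). Finally `harm_D` (`1 + y ≤ 2 y`).
-/

open Finset Filter Topology
open Pool.Agent.Lib.P4a7640 Pool.Agent.Lib.P4a7640T Pool.Agent.Lib.P4a7640E

namespace Pool.Agent.Lib.P4a7640G

namespace EulerUpAux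

open Pool.Agent.Lib.P4a7640E.DLogAux

theorem csg_of_free {T : Finset ℕ} (hT : ∀ p ∈ T, p.Prime) {n : ℕ} (hn : n ≠ 0)
    (h : ∀ p ∈ T, ¬ p ^ 2 ∣ n) : csg T n = sg (dsg T n) := by
  classical
  have h1 : ∀ p ∈ T, (-1:ℝ) ^ n.factorization p = if p ∣ n then -1 else 1 := by
    intro p hp
    have h2 : ¬ 2 ≤ n.factorization p := fun h3 =>
      h p hp (((hT p hp).pow_dvd_iff_le_factorization hn).2 h3)
    by_cases h3 : p ∣ n
    · have h4 := (hT p hp).factorization_pos_of_dvd hn h3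
      have h5 : n.factorization p = 1 := by omega
      rw [if_pos h3, h5, pow_one]
    · have h5 : n.factorization p = 0 := by
        rw [Nat.factorization_eq_zero_iff]
        exact Or.inr (Or.inl h3)
      rw [if_neg h3, h5, pow_zero]
  unfold csg
  rw [Finset.prod_congr rfl h1, Finset.prod_ite, Finset.prod_const, Finset.prod_const_one, mul_one]
  unfold dsg sg
  simp only [Units.val_pow_eq_pow_val, Units.val_neg, Units.val_one, Int.cast_pow, Int.cast_neg,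
    Int.cast_one]

theorem sg_le (u : ℤˣ) : sg u ≤ 1 := by
  rcases Int.units_eq_one_or u with rfl | rfl
  · rw [sg_one]
  · rw [sg_neg_one]
    norm_num

theorem dsg_le {T : Finset ℕ} (hT : ∀ p ∈ T, p.Prime) (M : ℕ) :
    ∑ n ∈ Icc 1 M, sg (dsg T n) * (hs (M / n) / n) ≤
      ∑ n ∈ Icc 1 M, hs (M / n) / n * csg T n + 2 * ((∑ p ∈ T, 1 / (p:ℝ) ^ 2) * WW M) := by
  classical
  have h1 : ∀ n ∈ Icc 1 M, sg (dsg T n) * (hs (M / n) / n) ≤ hs (M / n) / n * csg T n +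
      2 * ∑ p ∈ T, (if p ^ 2 ∣ n then hs (M / n) / n else 0) := by
    intro n hn
    have hn0 : n ≠ 0 := by
      have := (mem_Icc.1 hn).1
      omega
    have hw := w_nonneg M n
    have hsum : 0 ≤ ∑ p ∈ T, (if p ^ 2 ∣ n then hs (M / n) / (n:ℝ) else 0) := by
      refine Finset.sum_nonneg fun p _ => ?_
      split_ifs
      · exact hw
      · exact le_refl _
    by_cases h : ∀ p ∈ T, ¬ p ^ 2 ∣ n
    · rw [csg_of_free hT hn0 h]
      nlinarith
    · push Not at h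
      obtain ⟨p, hp, hpn⟩ := h
      have h2 : hs (M / n) / (n:ℝ) ≤ ∑ p ∈ T, (if p ^ 2 ∣ n then hs (M / n) / (n:ℝ) else 0) := by
        have h3 := Finset.single_le_sum (s := T)
          (f := fun p => (if p ^ 2 ∣ n then hs (M / n) / (n:ℝ) else 0)) (fun q _ => by
            change 0 ≤ (if q ^ 2 ∣ n then hs (M / n) / (n:ℝ) else 0)
            split_ifs
            · exact hw
            · exact le_refl _) hp
        rw [if_pos hpn] at h3
        exact h3
      have h4 : sg (dsg T n) * (hs (M / n) / n) ≤ hs (M / n) / n := by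
        have := sg_le (dsg T n)
        nlinarith
      have h5 : -(hs (M / n) / n) ≤ hs (M / n) / n * csg T n := by
        rcases csg_eq T n with h6 | h6
        · rw [h6]
          linarith
        · rw [h6]
          linarith
      linarith
  refine (Finset.sum_le_sum h1).trans ?_
  rw [Finset.sum_add_distrib, ← Finset.mul_sum, Finset.sum_comm]
  refine add_le_add_right (mul_le_mul_of_nonneg_left ?_ zero_le_two) _
  rw [Finset.sum_mul]
  refine Finset.sum_le_sum fun p hp => ?_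
  rw [← Finset.sum_filter]
  refine (mult_le (Nat.pos_of_ne_zero (pow_ne_zero 2 (hT p hp).ne_zero)) M).trans (le_of_eq ?_)
  rw [Nat.cast_pow]
  ring

end EulerUpAux

open EulerUpAux Pool.Agent.Lib.P4a7640E.DLogAux in
theorem D_up : ∃ C : ℝ, 0 < C ∧ ∀ (T : Finset ℕ) (y : ℝ), (∀ p ∈ T, p.Prime) → 1 ≤ y →
    Dd (dsg T) y ≤ C * y ^ 2 * (Real.exp (-(2 * ∑ p ∈ T.filter (fun p : ℕ => (p:ℝ) ≤ Real.exp y),
      1 / (p:ℝ))) + ∑ p ∈ T, 1 / (p:ℝ) ^ 2) + C * y := by
  obtain ⟨C1, hC1, hM⟩ := mertens_prod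
  obtain ⟨C2, hC2, hW⟩ := WW_D
  refine ⟨C1 ^ 2 + 4 * C2 + 3, by positivity, fun T y hT hy => ?_⟩
  have hy0 : 0 ≤ y := zero_le_one.trans hy
  set M := ⌊Real.exp y⌋₊ with hMdef
  have hexp : (2:ℝ) ≤ Real.exp y := by
    have := Real.add_one_le_exp y
    linarith
  have hM2 : 2 ≤ M := Nat.le_floor (by exact_mod_cast hexp)
  have hfil : T.filter (fun p : ℕ => (p:ℝ) ≤ Real.exp y) = T.filter (fun p => p ≤ M) := by
    refine Finset.filter_congr fun p _ => ?_
    rw [hMdef, Nat.le_floor_iff (Real.exp_nonneg y)]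
  rw [hfil]
  set E := Real.exp (-(2 * ∑ p ∈ T.filter (fun p => p ≤ M), 1 / (p:ℝ))) with hE
  set S := ∑ p ∈ T, 1 / (p:ℝ) ^ 2 with hS
  have hE0 : 0 ≤ E := Real.exp_nonneg _
  have hS0 : 0 ≤ S := Finset.sum_nonneg fun p _ => by positivity
  have h1 := (abs_le.1 (harm_D (dsg T) hy0)).1
  rw [← hMdef] at h1
  have h2 := dsg_le hT M
  rw [sum_csg] at h2
  have h3 := euler_bound hT M
  rw [← hE] at h3
  have hlogM : Real.log M ≤ y := by
    rw [Real.log_le_iff_le_exp (by exact_mod_cast (by omega : 0 < M))]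
    exact Nat.floor_le (Real.exp_nonneg y)
  have hlog0 : 0 ≤ Real.log M := Real.log_natCast_nonneg M
  have h4 := hM M hM2
  have hprod0 : 0 ≤ ∏ p ∈ Nat.primesBelow (M + 1), (1 - 1 / (p:ℝ))⁻¹ := by
    refine Finset.prod_nonneg fun p hp => ?_
    have hp' := (Nat.mem_primesBelow.1 hp).2
    have : (1:ℝ) ≤ p := by exact_mod_cast hp'.one_le
    rw [inv_nonneg, sub_nonneg, div_le_one (by linarith)]
    exact this
  have h5 : (∏ p ∈ Nat.primesBelow (M + 1), (1 - 1 / (p:ℝ))⁻¹) ^ 2 ≤ C1 ^ 2 * y ^ 2 := by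
    rw [← mul_pow]
    exact pow_le_pow_left₀ hprod0 (h4.trans (mul_le_mul_of_nonneg_left hlogM hC1.le)) 2
  have h6 := mul_le_mul_of_nonneg_right h5 hE0
  have h7 : WW M ≤ (1 / 2 + 2 * C2) * y ^ 2 := by
    have h8 := (abs_le.1 (hW y hy0)).2
    rw [← hMdef] at h8
    have h9 : 1 + y ≤ 2 * y ^ 2 := by nlinarith
    have h10 := mul_le_mul_of_nonneg_left h9 hC2.le
    linarith
  have h8 := mul_le_mul_of_nonneg_left h7 hS0
  have hy2 : 0 ≤ y ^ 2 := by positivity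
  have h9 : 0 ≤ y ^ 2 * E := mul_nonneg hy2 hE0
  have h10 : 0 ≤ y ^ 2 * S := mul_nonneg hy2 hS0
  have h11 : 0 ≤ C1 ^ 2 * (y ^ 2 * S) := by positivity
  have h12 : 0 ≤ C2 * (y ^ 2 * E) := by positivity
  have h13 : 0 ≤ C1 ^ 2 * y := by positivity
  have h14 : 0 ≤ C2 * y := by positivity
  have h15 : Dd (dsg T) y ≤ C1 ^ 2 * y ^ 2 * E + 2 * (S * ((1 / 2 + 2 * C2) * y ^ 2)) + (1 + y) := by
    linarith
  refine h15.trans ?_
  nlinarith

end Pool.Agent.Lib.P4a7640G
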