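import Mathlib

/-!
# A quadratic bound for the binary entropy

Module P4a7640G.Quad (0.6 h). Only Mathlib.

`F m = log 2 - binEntropy ((1 - m)/2) - m^2/2` is even (`Real.binEntropy_one_sub`), `F 0 = 0`, and for
`0 < m < 1`: `F' m = (1/2) log ((1 + m)/(1 - m)) - m ≥ 0` (`Real.deriv_binEntropy`:
`binEntropy' p = log (1 - p) - log p`; and `log ((1+m)/(1-m)) ≥ 2 m`: its derivative is `2/(1 - m^2) ≥ 2`, or
`Real.hasSum_log_sub_log_of_abs_lt_one`). So `F` is monotone on `[0,1]`
(`monotoneOn_of_deriv_nonneg`, continuity of `Real.binEntropy`).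
-/

namespace Pool.Agent.Lib.P4a7640G

namespace QuadAux

private lemma log_bound {m : ℝ} (h0 : 0 ≤ m) (h1 : m < 1) : 2 * m ≤ Real.log (1 + m) - Real.log (1 - m) := by
  have hs := Real.hasSum_log_sub_log_of_abs_lt_one (x := m) (by rw [abs_of_nonneg h0]; exact h1)
  have := le_hasSum hs 0 (fun k _ => by positivity)
  simpa using this

private lemma hderiv {m : ℝ} (h0 : 0 < m) (h1 : m < 1) :
    HasDerivAt (fun m : ℝ => Real.log 2 - Real.binEntropy ((1 - m) / 2) - m ^ 2 / 2)
      ((1 / 2) * (Real.log (1 + m) - Real.log (1 - m)) - m) m := by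
  have hp0 : (1 - m) / 2 ≠ 0 := by
    have : 0 < (1 - m) / 2 := by linarith
    exact this.ne'
  have hp1 : (1 - m) / 2 ≠ 1 := by
    have : (1 - m) / 2 < 1 := by linarith
    exact this.ne
  have d1 := Real.hasDerivAt_binEntropy hp0 hp1
  have d2 : HasDerivAt (fun m : ℝ => (1 - m) / 2) (-1 / 2) m := by
    simpa using ((hasDerivAt_id m).const_sub 1).div_const 2
  have d3 := d1.comp m d2
  have d4 : HasDerivAt (fun m : ℝ => m ^ 2 / 2) m m := by
    have := ((hasDerivAt_id m).pow 2).div_const 2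
    simpa using this
  have d5 := (d3.const_sub (Real.log 2)).sub d4
  refine d5.congr_deriv ?_
  have e1 : 1 - (1 - m) / 2 = (1 + m) / 2 := by ring
  rw [e1, Real.log_div (by linarith) (by norm_num), Real.log_div (by linarith) (by norm_num)]
  ring

private lemma pos_case {m : ℝ} (h0 : 0 ≤ m) (h1 : m ≤ 1) :
    Real.binEntropy ((1 - m) / 2) ≤ Real.log 2 - m ^ 2 / 2 := by
  have hmono : MonotoneOn (fun m : ℝ => Real.log 2 - Real.binEntropy ((1 - m) / 2) - m ^ 2 / 2)
      (Set.Icc 0 1) := by
    refine monotoneOn_of_deriv_nonneg (convex_Icc 0 1) ?_ ?_ ?_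
    · have : Continuous (fun m : ℝ => Real.log 2 - Real.binEntropy ((1 - m) / 2) - m ^ 2 / 2) := by
        have hc := Real.binEntropy_continuous
        fun_prop
      exact this.continuousOn
    · intro x hx
      rw [interior_Icc] at hx
      exact (hderiv hx.1 hx.2).differentiableAt.differentiableWithinAt
    · intro x hx
      rw [interior_Icc] at hx
      rw [(hderiv hx.1 hx.2).deriv]
      have := log_bound hx.1.le hx.2
      linarith
  have := hmono (Set.mem_Icc.mpr ⟨le_rfl, zero_le_one⟩) (Set.mem_Icc.mpr ⟨h0, h1⟩) h0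
  simp only at this
  have e : ((1 : ℝ) - 0) / 2 = 2⁻¹ := by norm_num
  rw [e, Real.binEntropy_two_inv] at this
  linarith

end QuadAux

open QuadAux in
theorem binEntropy_quad {m : ℝ} (h : |m| ≤ 1) :
    Real.binEntropy ((1 - m) / 2) ≤ Real.log 2 - m ^ 2 / 2 := by
  rw [abs_le] at h
  rcases le_total 0 m with h0 | h0
  · exact pos_case h0 h.2
  · have h1 := pos_case (m := -m) (by linarith) (by linarith)
    have e : (1 - -m) / 2 = 1 - (1 - m) / 2 := by ring
    rw [e, Real.binEntropy_one_sub] at h1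
    simpa using h1

end Pool.Agent.Lib.P4a7640G
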