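import Mathlib
import Pool.Agent.Lib.P4a7640G.EntN
import Pool.Agent.Lib.P4a7640G.Quad

/-!
# The entropy inequality on natural averages
-/

open Finset Filter Topology
open Pool.Agent.Lib.P4a7640 Pool.Agent.Lib.P4a7640E

namespace Pool.Agent.Lib.P4a7640G

theorem ineq_nat {x : ℕ} (hx : 1 ≤ x) (f₀ u t : ℕ → ℤˣ) {L : ℕ}
    (hv : L * Real.log 2 - 1 ≤ EntN x (blk (fun n => u n * t n) L)) :
    (1 / 2) * ∑ j : Fin L, (En x fun n => t (n + j)) ^ 2 - 1 ≤
      EntN x (blk f₀ L) + EntN x (blk (fun n => f₀ n * u n) L) := by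
  classical
  have h1 : EntN x (blk (fun n => u n * t n) L) ≤
      EntN x (fun n => ((blk f₀ L n, blk (fun n => f₀ n * u n) L n), blk t L n)) := by
    have h2 := EntN_comp x (fun n => ((blk f₀ L n, blk (fun n => f₀ n * u n) L n), blk t L n))
      (fun z : ((Fin L → ℤˣ) × (Fin L → ℤˣ)) × (Fin L → ℤˣ) => fun j => z.1.1 j * z.1.2 j * z.2 j)
    refine le_trans (le_of_eq ?_) h2
    congr 1
    funext n j
    simp only [blk]
    rw [← mul_assoc (f₀ (n + j)), Int.units_mul_self, one_mul]
  have h3 := EntN_pair x (fun n => (blk f₀ L n, blk (fun n => f₀ n * u n) L n)) (blk t L)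
  have h4 := EntN_pair x (blk f₀ L) (blk (fun n => f₀ n * u n) L)
  have h5 : EntN x (blk t L) ≤ ∑ j : Fin L, EntN x (fun n => t (n + j)) :=
    EntN_pi x (fun (j : Fin L) n => t (n + j))
  have h6 : ∀ j : Fin L, EntN x (fun n => t (n + j)) ≤
      Real.log 2 - (En x fun n => t (n + j)) ^ 2 / 2 := by
    intro j
    rw [EntN_sign hx]
    exact binEntropy_quad (abs_En_le_one x _)
  have h7 : ∑ j : Fin L, EntN x (fun n => t (n + j)) ≤
      L * Real.log 2 - (1 / 2) * ∑ j : Fin L, (En x fun n => t (n + j)) ^ 2 := by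
    refine (Finset.sum_le_sum fun j _ => h6 j).trans (le_of_eq ?_)
    rw [Finset.sum_sub_distrib, Finset.sum_const, Finset.card_univ, Fintype.card_fin,
      nsmul_eq_mul, ← Finset.sum_div]
    ring
  linarith

/-- shifting the mean value -/
theorem En_shift (t : ℕ → ℤˣ) (x j : ℕ) :
    |En x (fun n => t (n + j)) - En x t| ≤ 2 * j / x := by
  classical
  rcases Nat.eq_zero_or_pos x with hx | hx
  · subst hx
    simp [En]
  have hx0 : (0:ℝ) < x := by exact_mod_cast hx
  unfold En
  rw [← sub_div, abs_div, abs_of_pos hx0]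
  refine div_le_div_of_nonneg_right ?_ hx0.le
  have key : ∀ j : ℕ, |∑ n ∈ Icc 1 x, sg (t (n + j)) - ∑ n ∈ Icc 1 x, sg (t n)| ≤ 2 * j := by
    intro j
    induction j with
    | zero => simp
    | succ j ih =>
      have h1 : ∑ n ∈ Icc 1 x, sg (t (n + (j + 1))) =
          ∑ n ∈ Icc 1 x, sg (t (n + j)) - sg (t (1 + j)) + sg (t (x + (j + 1))) := by
        have h2 : ∀ y : ℕ, ∑ n ∈ Icc 1 y, sg (t (n + (j + 1))) =
            ∑ n ∈ Icc 1 y, sg (t (n + j)) - sg (t (1 + j)) + sg (t (y + (j + 1))) := by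
          intro y
          induction y with
          | zero =>
            simp only [Finset.Icc_eq_empty (by norm_num : ¬ (1:ℕ) ≤ 0), Finset.sum_empty]
            rw [show 0 + (j + 1) = 1 + j by ring]
            ring
          | succ y ihy =>
            rw [Finset.sum_Icc_succ_top (by omega), Finset.sum_Icc_succ_top (by omega), ihy,
              show y + 1 + j = y + (j + 1) by ring]
            ring
        exact h2 x
      rw [h1]
      have a1 : |sg (t (1 + j))| ≤ 1 := by
        rcases Int.units_eq_one_or (t (1 + j)) with h | h <;> simp [h, sg]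
      have a2 : |sg (t (x + (j + 1)))| ≤ 1 := by
        rcases Int.units_eq_one_or (t (x + (j + 1))) with h | h <;> simp [h, sg]
      rw [abs_le] at ih a1 a2 ⊢
      push_cast
      constructor <;> linarith
  exact key j

theorem sum_En_sq {x : ℕ} (hx : 1 ≤ x) (t : ℕ → ℤˣ) {L : ℕ} (hL : 4 * L ^ 2 ≤ x) :
    L * (En x t) ^ 2 - 1 ≤ ∑ j : Fin L, (En x fun n => t (n + j)) ^ 2 := by
  classical
  have hx0 : (0:ℝ) < x := by exact_mod_cast hx
  have h1 : ∀ j : Fin L, (En x t) ^ 2 - 4 * L / x ≤ (En x fun n => t (n + j)) ^ 2 := by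
    intro j
    have h2 := En_shift t x j
    have h3 := abs_En_le_one x t
    have h4 := abs_En_le_one x fun n => t (n + j)
    have h5 : (2 * (j:ℕ) / x : ℝ) ≤ 2 * L / x := by
      refine div_le_div_of_nonneg_right ?_ hx0.le
      have : ((j:ℕ):ℝ) ≤ L := by exact_mod_cast j.2.le
      linarith
    have h6 : |(En x fun n => t (n + j)) ^ 2 - (En x t) ^ 2| ≤ 4 * L / x := by
      have e1 : (En x fun n => t (n + j)) ^ 2 - (En x t) ^ 2 =
          ((En x fun n => t (n + j)) - En x t) * ((En x fun n => t (n + j)) + En x t) := by ring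
      rw [e1, abs_mul]
      have h7 : |(En x fun n => t (n + j)) + En x t| ≤ 2 := by
        refine (abs_add_le _ _).trans ?_
        linarith
      have h8 : (4 * L / x : ℝ) = (2 * L / x) * 2 := by ring
      rw [h8]
      exact mul_le_mul (h2.trans h5) h7 (abs_nonneg _) (by positivity)
    have := (abs_le.1 h6).1
    linarith
  have h9 : ∑ j : Fin L, ((En x t) ^ 2 - 4 * L / x) ≤ ∑ j : Fin L, (En x fun n => t (n + j)) ^ 2 :=
    Finset.sum_le_sum fun j _ => h1 j
  rw [Finset.sum_const, Finset.card_univ, Fintype.card_fin, nsmul_eq_mul] at h9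
  have h10 : (L:ℝ) * (4 * L / x) ≤ 1 := by
    rw [← mul_div_assoc, div_le_one hx0]
    have : ((4 * L ^ 2 : ℕ) : ℝ) ≤ x := by exact_mod_cast hL
    push_cast at this
    linarith
  linarith

end Pool.Agent.Lib.P4a7640G
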