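import Mathlib
import Pool.Agent.Lib.P4a7640G.EntN

/-!
# Entropy from small correlations

Module P4a7640G.NatLaw (1 h). Imports are black boxes.

As `law_of_corr` (P4a7640E/Law.lean): for `z : Fin L → ℤˣ`,
`2^L * 1_{v (n+j) = z j for all j} = ∏ j, (1 + sg (z j) sg (v (n+j))) = ∑ S ⊆ range L, ± ∏ j ∈ S, sg (v (n+j))`,
so `prn x (blk v L = z)` is within `(1/4)^L` of `(1/2)^L`, in particular `p z ≤ (1/2)^L (1 + (1/2)^L)`. Hence
`- log (p z) ≥ L log 2 - log (1 + (1/2)^L) ≥ L log 2 - 1` whenever `p z > 0`, and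
`negMulLog (p z) ≥ p z * (L log 2 - 1)` for all `z`; sum over `z` with `∑ p z = 1` (`prn_sum`).
-/

open Finset Filter Topology
open Pool.Agent.Lib.P4a7640 Pool.Agent.Lib.P4a7640E

namespace Pool.Agent.Lib.P4a7640G

namespace NatLawAux

open EntAAux (ind ind_true ind_false ind_nonneg)

theorem one_add_sg' (a b : ℤˣ) : 1 + sg a * sg b = if b = a then (2 : ℝ) else 0 := by
  rcases Int.units_eq_one_or a with rfl | rfl <;> rcases Int.units_eq_one_or b with rfl | rfl <;>
    norm_num [sg]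

theorem prn_blk_le {L x : ℕ} (hx : 1 ≤ x) (v : ℕ → ℤˣ)
    (h : ∀ S ⊆ range L, S.Nonempty → |∑ n ∈ Icc 1 x, ∏ j ∈ S, sg (v (n + j))| ≤ x * (1 / 4) ^ L)
    (z : Fin L → ℤˣ) :
    prn x (fun n => blk v L n = z) ≤ (1 / 2) ^ L * (1 + (1 / 2) ^ L) := by
  classical
  set z' : ℕ → ℤˣ := fun s => if h : s < L then z ⟨s, h⟩ else 1 with hz'
  have hind : ∀ n : ℕ, (2:ℝ) ^ L * ind (blk v L n = z) =
      ∑ S ∈ (range L).powerset, (∏ s ∈ S, sg (z' s)) * ∏ s ∈ S, sg (v (n + s)) := by
    intro n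
    have h1 : ∑ S ∈ (range L).powerset, (∏ s ∈ S, sg (z' s)) * ∏ s ∈ S, sg (v (n + s)) =
        ∏ s ∈ range L, (1 + sg (z' s) * sg (v (n + s))) := by
      rw [Finset.prod_one_add]
      refine Finset.sum_congr rfl fun S _ => ?_
      rw [Finset.prod_mul_distrib]
    rw [h1]
    by_cases hP : blk v L n = z
    · rw [ind_true hP, mul_one]
      have h2 : (2:ℝ) ^ L = ∏ _s ∈ range L, (2:ℝ) := by rw [Finset.prod_const, card_range]
      rw [h2]
      refine Finset.prod_congr rfl fun s hs => ?_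
      rw [mem_range] at hs
      rw [one_add_sg', if_pos]
      rw [hz']
      simp only
      rw [dif_pos hs, ← hP]
      rfl
    · rw [ind_false hP, mul_zero]
      have hne : ∃ j : Fin L, blk v L n j ≠ z j := by
        by_contra hcon
        push Not at hcon
        exact hP (funext hcon)
      obtain ⟨j, hj⟩ := hne
      symm
      refine Finset.prod_eq_zero (i := (j : ℕ)) (mem_range.2 j.2) ?_
      rw [one_add_sg', if_neg]
      rw [hz']
      simp only
      rw [dif_pos j.2]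
      exact hj
  have hx0 : (0:ℝ) < x := by exact_mod_cast hx
  have h2 : (0:ℝ) < 2 ^ L := by positivity
  have hsum : (2:ℝ) ^ L * ∑ n ∈ Icc 1 x, ind (blk v L n = z) =
      ∑ S ∈ (range L).powerset, (∏ s ∈ S, sg (z' s)) * ∑ n ∈ Icc 1 x, ∏ s ∈ S, sg (v (n + s)) := by
    rw [Finset.mul_sum, Finset.sum_congr rfl fun n _ => hind n, Finset.sum_comm]
    exact Finset.sum_congr rfl fun S _ => (Finset.mul_sum _ _ _).symm
  have hb : (2:ℝ) ^ L * ∑ n ∈ Icc 1 x, ind (blk v L n = z) ≤ x + 2 ^ L * (x * (1 / 4) ^ L) := by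
    rw [hsum]
    have hem : (∅ : Finset ℕ) ∈ (range L).powerset := Finset.empty_mem_powerset _
    rw [← Finset.add_sum_erase _ _ hem]
    simp only [Finset.prod_empty, one_mul]
    refine add_le_add ?_ ?_
    · rw [sum_const, Nat.card_Icc, nsmul_eq_mul, mul_one, Nat.add_sub_cancel]
    · have hb' : ∀ S ∈ (range L).powerset.erase ∅,
          (∏ s ∈ S, sg (z' s)) * ∑ n ∈ Icc 1 x, ∏ s ∈ S, sg (v (n + s)) ≤ x * (1 / 4) ^ L := by
        intro S hS
        rw [mem_erase, mem_powerset] at hS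
        refine (le_abs_self _).trans ?_
        rw [abs_mul, Finset.abs_prod, Finset.prod_congr rfl fun s _ => abs_sg (z' s),
          Finset.prod_const_one, one_mul]
        exact h S hS.2 (Finset.nonempty_iff_ne_empty.2 hS.1)
      refine (Finset.sum_le_sum hb').trans ?_
      rw [Finset.sum_const, nsmul_eq_mul]
      refine mul_le_mul_of_nonneg_right ?_ (by positivity)
      have h1 : ((range L).powerset.erase ∅).card ≤ 2 ^ L := by
        calc ((range L).powerset.erase ∅).card ≤ (range L).powerset.card := Finset.card_erase_le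
          _ = 2 ^ L := by rw [card_powerset, card_range]
      exact_mod_cast h1
  rw [EntNAux.prn_eq, div_le_iff₀ hx0]
  have h3 : (2:ℝ) ^ L * ((1 / 2) ^ L * (1 + (1 / 2) ^ L) * x) = x + 2 ^ L * (x * (1 / 4) ^ L) := by
    have e1 : (2:ℝ) ^ L * (1 / 2) ^ L = 1 := by
      rw [← mul_pow]
      norm_num
    have e2 : ((1:ℝ) / 4) ^ L = (1 / 2) ^ L * (1 / 2) ^ L := by
      rw [← mul_pow]
      norm_num
    rw [e2]
    calc (2:ℝ) ^ L * ((1 / 2) ^ L * (1 + (1 / 2) ^ L) * x)
        = ((2:ℝ) ^ L * (1 / 2) ^ L) * x + 2 ^ L * (x * ((1 / 2) ^ L * (1 / 2) ^ L)) := by ring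
      _ = _ := by rw [e1, one_mul]
  exact le_of_mul_le_mul_left (hb.trans (le_of_eq h3.symm)) h2

end NatLawAux

theorem ent_of_corr {L x : ℕ} (hx : 1 ≤ x) (v : ℕ → ℤˣ)
    (h : ∀ S ⊆ range L, S.Nonempty → |∑ n ∈ Icc 1 x, ∏ j ∈ S, sg (v (n + j))| ≤ x * (1 / 4) ^ L) :
    L * Real.log 2 - 1 ≤ EntN x (blk v L) := by
  unfold EntN
  have h1 : ∀ z : Fin L → ℤˣ, (L * Real.log 2 - 1) * prn x (fun n => blk v L n = z) ≤
      Real.negMulLog (prn x fun n => blk v L n = z) := by
    intro z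
    have h2 := NatLawAux.prn_blk_le hx v h z
    have h3 := prn_nonneg x (fun n => blk v L n = z)
    set p := prn x (fun n => blk v L n = z) with hp
    rcases h3.eq_or_lt with h0 | h0
    · rw [← h0, mul_zero, Real.negMulLog_zero]
    · have h4 : Real.log p ≤ Real.log ((1 / 2) ^ L * (1 + (1 / 2) ^ L)) := Real.log_le_log h0 h2
      have hq : (0:ℝ) < (1 / 2) ^ L := by positivity
      have hq1 : ((1:ℝ) / 2) ^ L ≤ 1 := pow_le_one₀ (by norm_num) (by norm_num)
      rw [Real.log_mul hq.ne' (by positivity), Real.log_pow, one_div, Real.log_inv] at h4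
      have h5 : Real.log (1 + 2⁻¹ ^ L) ≤ 2⁻¹ ^ L := by
        have := Real.log_le_sub_one_of_pos (x := 1 + (2⁻¹:ℝ) ^ L) (by positivity)
        linarith
      rw [one_div] at hq1
      have h6 : L * Real.log 2 - 1 ≤ - Real.log p := by linarith
      unfold Real.negMulLog
      calc (L * Real.log 2 - 1) * p ≤ - Real.log p * p := mul_le_mul_of_nonneg_right h6 h0.le
        _ = -p * Real.log p := by ring
  calc L * Real.log 2 - 1 = (L * Real.log 2 - 1) * ∑ z, prn x (fun n => blk v L n = z) := by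
        rw [prn_sum hx (blk v L), mul_one]
    _ = ∑ z, (L * Real.log 2 - 1) * prn x (fun n => blk v L n = z) := Finset.mul_sum _ _ _
    _ ≤ _ := Finset.sum_le_sum fun z _ => h1 z

end Pool.Agent.Lib.P4a7640G
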