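import Mathlib
import Pool.Agent.Lib.P4a7640G.Base

/-!
# The trapezoidal weight as a combination of three cones

Module P4a7640G.TrapId (0.8 h). Imports are black boxes.

Put `ℓ = log N ≥ 0`, `B = 2^b ≥ 4`, `y = log n ≥ 0`. Real identity:
`max 0 (min ((B - 2) (y - ℓ/B)) (ℓ - y)) = max 0 (ℓ - y) - (B - 1) max 0 (2 ℓ/B - y) + (B - 2) max 0 (ℓ/B - y)`
for `0 ≤ y ≤ ℓ`: cases `y ≤ ℓ/B` (both `0`), `ℓ/B ≤ y ≤ 2ℓ/B` (`(B-2) (y - ℓ/B)`), `2ℓ/B ≤ y ≤ ℓ` (`ℓ - y`).
For `0 ≤ y' ≤ ℓ`: `Dd t y' = ∑ n ∈ Icc 1 N, sg (t n)/n * max 0 (y' - log n)` (`n ≤ ⌊exp y'⌋₊ ↔ log n ≤ y'`;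
`⌊exp ℓ⌋₊ = N`). Sum over `n ∈ Icc 1 N`.
-/

open Finset Filter Topology
open Pool.Agent.Lib.P4a7640

namespace Pool.Agent.Lib.P4a7640G

namespace TrapIdAux

theorem cone_id {B y l : ℝ} (hB : 4 ≤ B) (hl : 0 ≤ l) (hyl : y ≤ l) :
    max 0 (min ((B - 2) * (y - l / B)) (l - y)) =
      max 0 (l - y) - (B - 1) * max 0 (2 * l / B - y) + (B - 2) * max 0 (l / B - y) := by
  have hB0 : 0 < B := by linarith
  set a := l / B with ha
  have hla : l = B * a := by
    rw [ha]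
    field_simp
  have ha0 : 0 ≤ a := div_nonneg hl hB0.le
  have h2a : 2 * l / B = 2 * a := by rw [ha]; ring
  rw [h2a]
  rw [max_eq_right (sub_nonneg.2 hyl)]
  rcases le_total y a with h1 | h1
  · have e1 : min ((B - 2) * (y - a)) (l - y) ≤ 0 := by
      refine (min_le_left _ _).trans ?_
      exact mul_nonpos_of_nonneg_of_nonpos (by linarith) (by linarith)
    rw [max_eq_left e1, max_eq_right (by linarith), max_eq_right (by linarith)]
    rw [hla]
    ring
  · rw [max_eq_left (a := 0) (b := a - y) (by linarith)]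
    rcases le_total y (2 * a) with h2 | h2
    · have e2 : (B - 2) * (y - a) ≤ l - y := by
        rw [hla]
        nlinarith
      rw [min_eq_left e2, max_eq_right (mul_nonneg (by linarith) (by linarith)),
        max_eq_right (by linarith)]
      rw [hla]
      ring
    · have e2 : l - y ≤ (B - 2) * (y - a) := by
        rw [hla]
        nlinarith
      rw [min_eq_right e2, max_eq_right (by linarith), max_eq_left (by linarith)]
      ring

theorem Dd_eq {N : ℕ} (hN : 1 ≤ N) (t : ℕ → ℤˣ) {y : ℝ} (hy : y ≤ Real.log N) :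
    Dd t y = ∑ n ∈ Icc 1 N, sg (t n) / n * max 0 (y - Real.log n) := by
  classical
  have hN0 : (0:ℝ) < N := by exact_mod_cast hN
  have hfl : ⌊Real.exp y⌋₊ ≤ N := by
    have h1 : Real.exp y ≤ N := by
      rw [← Real.exp_log hN0]
      exact Real.exp_le_exp.2 hy
    have := Nat.floor_mono h1
    rwa [Nat.floor_natCast] at this
  unfold Dd
  have hsub : Icc 1 ⌊Real.exp y⌋₊ ⊆ Icc 1 N := Finset.Icc_subset_Icc_right hfl
  rw [← Finset.sum_subset hsub]
  · refine Finset.sum_congr rfl fun n hn => ?_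
    obtain ⟨h1, h2⟩ := mem_Icc.1 hn
    have h3 : (n:ℝ) ≤ Real.exp y := (Nat.le_floor_iff (Real.exp_nonneg y)).1 h2
    have h4 : Real.log n ≤ y := by
      rw [Real.log_le_iff_le_exp (by exact_mod_cast h1)]
      exact h3
    rw [max_eq_right (by linarith)]
  · intro n hn hn'
    obtain ⟨h1, h2⟩ := mem_Icc.1 hn
    have h3 : ¬ (n:ℝ) ≤ Real.exp y := by
      intro h4
      exact hn' (mem_Icc.2 ⟨h1, (Nat.le_floor_iff (Real.exp_nonneg y)).2 h4⟩)
    have h4 : y ≤ Real.log n := by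
      rw [Real.le_log_iff_exp_le (by exact_mod_cast h1)]
      linarith
    rw [max_eq_left (by linarith), mul_zero]

end TrapIdAux

open TrapIdAux in
theorem trap_id {b : ℕ} (hb : 2 ≤ b) {N : ℕ} (hN : 1 ≤ N) (t : ℕ → ℤˣ) :
    ∑ n ∈ Icc 1 N, sg (t n) / n * Wt b N n =
      Dd t (Real.log N) - (2 ^ b - 1) * Dd t (2 * Real.log N / 2 ^ b) +
        (2 ^ b - 2) * Dd t (Real.log N / 2 ^ b) := by
  have hl : 0 ≤ Real.log N := Real.log_natCast_nonneg N
  have hB : (4:ℝ) ≤ 2 ^ b := by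
    calc (4:ℝ) = 2 ^ 2 := by norm_num
      _ ≤ 2 ^ b := pow_le_pow_right₀ (by norm_num) hb
  have hB0 : (0:ℝ) < 2 ^ b := by linarith
  have h1 : 2 * Real.log N / 2 ^ b ≤ Real.log N := by
    rw [div_le_iff₀ hB0]
    nlinarith
  have h2 : Real.log N / 2 ^ b ≤ Real.log N := by
    rw [div_le_iff₀ hB0]
    nlinarith
  rw [Dd_eq hN t le_rfl, Dd_eq hN t h1, Dd_eq hN t h2, Finset.mul_sum, Finset.mul_sum,
    ← Finset.sum_sub_distrib, ← Finset.sum_add_distrib]
  refine Finset.sum_congr rfl fun n hn => ?_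
  obtain ⟨h3, h4⟩ := mem_Icc.1 hn
  have hlog : Real.log n ≤ Real.log N :=
    Real.log_le_log (by exact_mod_cast h3) (by exact_mod_cast h4)
  have h5 := cone_id hB hl hlog
  unfold Wt
  rw [h5]
  ring

end Pool.Agent.Lib.P4a7640G
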