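import Mathlib
import Pool.Agent.Lib.P4a7640G.TrapId
import Pool.Agent.Lib.P4a7640G.EulerUp
import Pool.Agent.Lib.P4a7640E.Thin

/-!
# The lower bound for the trapezoidal mean

Module P4a7640G.TrapLow (1.8 h). Imports are black boxes.

Let `ℓ = log N`, `m = ∑ p ∈ T, 1/p ≤ m₀`, `m₂ = ` the part with `N < p^(2^(b-1))`, `m₁ = m - m₂`,
`s = ∑ p ∈ T, 1/p^2`. As `p > N^(1/C)`: `p ≥ y` for any fixed `y` once `N ≥ y^C`, so `s ≤ m₀ / y` and
`prod_ge` gives `∏ (1 - 1/p)^2 ≥ exp (-2 (1 + 2/y) m) ≥ exp (-2 m) / 2` (`4 m₀/y ≤ log 2`). By `trap_id`, `D_low`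
(`y = ℓ` and `y = ℓ/2^b`, where the product is `≥ 0`) and `D_up` (`y = 2ℓ/2^b`, `p ≤ exp y ↔ p^(2^(b-1)) ≤ N`):
`sum ≥ ℓ^2 (exp (-2 m)/4 - (2^b - 1) C₀ (4/4^b) exp (-2 m₁)) - C_b (s ℓ^2 + 1 + ℓ)`, and
`(2^b - 1) C₀ (4/4^b) exp (-2 m₁) ≤ exp (-2 m) * 4 C₀ 2^(-b) exp (2 m₂) ≤ exp (-2 m)/8` when `b` is chosen
(depending on `κ, K` only) with `4 C₀ 2^(-b) exp (2 κ log (2^(b-1)) + 2 K + 2) ≤ 1/8`: possible since
`exp (2 κ log (2^(b-1))) = 2^(2 κ (b-1))` and `2 κ < 1`. The error `C_b (s ℓ^2 + 1 + ℓ)` is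
`≤ exp (-2 m₀) ℓ^2/16` for `N ≥ N₀`. So `c₀ = 1/16`.
-/

open Finset Filter Topology
open Pool.Agent.Lib.P4a7640 Pool.Agent.Lib.P4a7640T Pool.Agent.Lib.P4a7640E

namespace Pool.Agent.Lib.P4a7640G

namespace TrapLowAux

theorem choose_b {κ K C₂ : ℝ} (hκ0 : 0 ≤ κ) (hκ : κ < 1 / 2) (hC : 0 < C₂) :
    ∃ b : ℕ, 2 ≤ b ∧ 4 * C₂ / 2 ^ b *
      Real.exp (2 * (κ * Real.log ((2 ^ (b - 1) : ℕ) : ℝ) + K + 1)) ≤ 1 / 8 := by
  have hlog : 0 < Real.log 2 := Real.log_pos (by norm_num)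
  set ρ : ℝ := Real.exp ((2 * κ - 1) * Real.log 2) with hρ
  have hρ0 : 0 < ρ := Real.exp_pos _
  have hρ1 : ρ < 1 := by
    rw [hρ, Real.exp_lt_one_iff]
    nlinarith
  set E : ℝ := Real.exp (2 * (K + 1)) with hE
  have hE0 : 0 < E := Real.exp_pos _
  obtain ⟨n, hn⟩ := exists_pow_lt_of_lt_one (show 0 < 1 / (32 * C₂ * E) by positivity) hρ1
  refine ⟨n + 2, by omega, ?_⟩
  have h1 : Real.log ((2 ^ (n + 2 - 1) : ℕ) : ℝ) ≤ (n + 2 : ℕ) * Real.log 2 := by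
    rw [Nat.cast_pow, Real.log_pow, Nat.cast_ofNat]
    refine mul_le_mul_of_nonneg_right ?_ hlog.le
    exact_mod_cast (by omega : n + 2 - 1 ≤ n + 2)
  have h2 : Real.exp (2 * (κ * Real.log ((2 ^ (n + 2 - 1) : ℕ) : ℝ) + K + 1)) ≤
      Real.exp ((n + 2 : ℕ) * (2 * κ * Real.log 2)) * E := by
    rw [hE, ← Real.exp_add]
    refine Real.exp_le_exp.2 ?_
    have := mul_le_mul_of_nonneg_left h1 hκ0
    linarith
  have h3 : (2:ℝ) ^ (n + 2) = Real.exp ((n + 2 : ℕ) * Real.log 2) := by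
    rw [Real.exp_nat_mul, Real.exp_log two_pos]
  have h4 : Real.exp ((n + 2 : ℕ) * (2 * κ * Real.log 2)) = ρ ^ (n + 2) * 2 ^ (n + 2) := by
    rw [h3, hρ, ← Real.exp_nat_mul, ← Real.exp_add]
    congr 1
    ring
  have h5 : ρ ^ (n + 2) ≤ ρ ^ n := pow_le_pow_of_le_one hρ0.le hρ1.le (by omega)
  have h6 : (0:ℝ) < 2 ^ (n + 2) := by positivity
  calc 4 * C₂ / 2 ^ (n + 2) *
        Real.exp (2 * (κ * Real.log ((2 ^ (n + 2 - 1) : ℕ) : ℝ) + K + 1))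
      ≤ 4 * C₂ / 2 ^ (n + 2) * (ρ ^ (n + 2) * 2 ^ (n + 2) * E) := by
        rw [← h4]
        exact mul_le_mul_of_nonneg_left h2 (by positivity)
    _ = 4 * C₂ * E * ρ ^ (n + 2) := by
        field_simp
    _ ≤ 4 * C₂ * E * (1 / (32 * C₂ * E)) :=
        mul_le_mul_of_nonneg_left (h5.trans hn.le) (by positivity)
    _ = 1 / 8 := by
        field_simp
        norm_num

/-- the product over the large primes -/
theorem prod_sq_ge {T : Finset ℕ} {y : ℕ} (hy : 2 ≤ y) (hT : ∀ p ∈ T, y ≤ p)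
    (hm : 8 * ∑ p ∈ T, (1:ℝ) / p ≤ y) :
    Real.exp (-(2 * ∑ p ∈ T, (1:ℝ) / p)) / 2 ≤ ∏ p ∈ T, (1 - 1 / (p:ℝ)) ^ 2 := by
  set m : ℝ := ∑ p ∈ T, (1:ℝ) / p with hmd
  have hy0 : (0:ℝ) < y := by
    have : 0 < y := by omega
    exact_mod_cast this
  have hm0 : 0 ≤ m := Finset.sum_nonneg fun p _ => by positivity
  have h1 := prod_ge hy hT
  rw [Finset.prod_pow]
  have h2 : Real.exp (-((1 + 2 / (y:ℝ)) * m)) ^ 2 ≤ (∏ p ∈ T, (1 - 1 / (p:ℝ))) ^ 2 :=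
    pow_le_pow_left₀ (Real.exp_pos _).le h1 2
  refine le_trans ?_ h2
  rw [← Real.exp_nat_mul]
  have h3 : ((2:ℕ):ℝ) * -((1 + 2 / (y:ℝ)) * m) = -(2 * m) + -(4 * m / y) := by
    push_cast
    field_simp
    ring
  rw [h3, Real.exp_add]
  have h4 : (1:ℝ) / 2 ≤ Real.exp (-(4 * m / y)) := by
    have h5 : 4 * m / y ≤ 1 / 2 := by
      rw [div_le_iff₀ hy0]
      linarith
    have := Real.add_one_le_exp (-(4 * m / y))
    linarith
  have h6 : 0 < Real.exp (-(2 * m)) := Real.exp_pos _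
  nlinarith

theorem sum_sq_le {T : Finset ℕ} {y : ℕ} (hy : 1 ≤ y) (hT : ∀ p ∈ T, y ≤ p) :
    ∑ p ∈ T, 1 / (p:ℝ) ^ 2 ≤ (∑ p ∈ T, (1:ℝ) / p) / y := by
  rw [Finset.sum_div]
  refine Finset.sum_le_sum fun p hp => ?_
  have hy0 : (0:ℝ) < y := by exact_mod_cast hy
  have hp : (y:ℝ) ≤ p := by exact_mod_cast hT p hp
  rw [sq, ← one_div_mul_one_div, div_eq_mul_one_div (1 / (p:ℝ))]
  exact mul_le_mul_of_nonneg_left (one_div_le_one_div_of_le hy0 hp) (by positivity)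

/-- the primes below `exp (2 l / 2^b)` -/
theorem low_iff {b N p : ℕ} (hb : 2 ≤ b) (hN : 1 ≤ N) (hp : 1 ≤ p) :
    (p:ℝ) ≤ Real.exp (2 * Real.log N / 2 ^ b) ↔ ¬ N < p ^ (2 ^ (b - 1)) := by
  have hN0 : (0:ℝ) < N := by exact_mod_cast hN
  have hp0 : (0:ℝ) < p := by exact_mod_cast hp
  have e : (2:ℝ) ^ b = 2 * 2 ^ (b - 1) := by
    rw [← pow_succ']
    congr 1
    omega
  rw [← Real.log_le_iff_le_exp hp0, e, mul_div_mul_left _ _ two_ne_zero,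
    le_div_iff₀ (by positivity), not_lt]
  have h1 : Real.log p * 2 ^ (b - 1) = Real.log ((p:ℝ) ^ (2 ^ (b - 1))) := by
    rw [Real.log_pow]
    push_cast
    ring
  rw [h1, Real.log_le_log_iff (by positivity) hN0]
  exact_mod_cast Iff.rfl

end TrapLowAux

open TrapLowAux in
theorem trap_low {κ K : ℝ} (hκ0 : 0 ≤ κ) (hκ : κ < 1 / 2) :
    ∃ b : ℕ, 2 ≤ b ∧ ∃ c₀ : ℝ, 0 < c₀ ∧ ∀ (C : ℕ) (m₀ : ℝ), ∃ N₀ : ℕ, ∀ N ≥ N₀,
      ∀ T : Finset ℕ, (∀ p ∈ T, p.Prime ∧ p ≤ N ∧ N < p ^ C) → ∑ p ∈ T, (1:ℝ) / p ≤ m₀ →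
      ∑ p ∈ T.filter (fun p => N < p ^ (2 ^ (b - 1))), (1:ℝ) / p ≤
        κ * Real.log (2 ^ (b - 1) : ℕ) + K + 1 →
      c₀ * Real.exp (-(2 * ∑ p ∈ T, (1:ℝ) / p)) * Real.log N ^ 2 ≤
        ∑ n ∈ Icc 1 N, sg (dsg T n) / n * Wt b N n := by
  classical
  obtain ⟨C₁, hC₁, hlow⟩ := D_low
  obtain ⟨C₂, hC₂, hup⟩ := D_up
  obtain ⟨b, hb, hbK⟩ := choose_b (K := K) hκ0 hκ hC₂
  refine ⟨b, hb, 1 / 16, by norm_num, ?_⟩
  intro C m₀
  set B : ℝ := 2 ^ b with hB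
  have hB4 : 4 ≤ B := by
    rw [hB]
    calc (4:ℝ) = 2 ^ 2 := by norm_num
      _ ≤ 2 ^ b := pow_le_pow_right₀ (by norm_num) hb
  have hB0 : 0 < B := by linarith
  set E₁ : ℝ := B + 4 * C₂ with hE₁
  set E₂ : ℝ := C₁ * B + 2 * C₂ with hE₂
  have hE₁0 : 0 < E₁ := by positivity
  have hE₂0 : 0 < E₂ := by positivity
  set θ : ℝ := Real.exp (-(2 * m₀)) with hθ
  have hθ0 : 0 < θ := Real.exp_pos _
  set y : ℕ := max 2 (max ⌈8 * m₀⌉₊ ⌈32 * m₀ * E₁ / θ⌉₊) with hy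
  have hy2 : 2 ≤ y := le_max_left _ _
  have hy8 : 8 * m₀ ≤ y := (Nat.le_ceil _).trans
    (by exact_mod_cast (le_max_left _ _).trans (le_max_right _ _))
  have hyE : 32 * m₀ * E₁ / θ ≤ y := (Nat.le_ceil _).trans
    (by exact_mod_cast (le_max_right _ _).trans (le_max_right _ _))
  have hy0 : (0:ℝ) < y := by
    have : 0 < y := by omega
    exact_mod_cast this
  have htend : ∀ᶠ N : ℕ in atTop, 1 + B + 64 * E₂ / θ ≤ Real.log N :=
    (Real.tendsto_log_atTop.comp tendsto_natCast_atTop_atTop).eventually_ge_atTop _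
  obtain ⟨N₀, hN₀⟩ := eventually_atTop.1
    ((htend.and (eventually_ge_atTop 2)).and (eventually_ge_atTop (y ^ C)))
  refine ⟨N₀, ?_⟩
  intro N hN T hT hm hm2
  obtain ⟨⟨hl, hN2⟩, hNy⟩ := hN₀ N hN
  set l : ℝ := Real.log N with hld
  have hl1 : 1 ≤ l := by
    have : 0 ≤ 64 * E₂ / θ := by positivity
    linarith
  have hlB : B ≤ l := by
    have : 0 ≤ 64 * E₂ / θ := by positivity
    linarith
  have hlE : 64 * E₂ / θ ≤ l := by linarith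
  have hTp : ∀ p ∈ T, p.Prime := fun p hp => (hT p hp).1
  have hTy : ∀ p ∈ T, y ≤ p := by
    intro p hp
    by_contra hcon
    have h1 : p ^ C ≤ y ^ C := Nat.pow_le_pow_left (not_le.1 hcon).le C
    have h2 := (hT p hp).2.2
    omega
  set m : ℝ := ∑ p ∈ T, (1:ℝ) / p with hmd
  have hm00 : 0 ≤ m := Finset.sum_nonneg fun p _ => by positivity
  have hm0 : 0 ≤ m₀ := hm00.trans hm
  set s : ℝ := ∑ p ∈ T, 1 / (p:ℝ) ^ 2 with hs
  have hs0 : 0 ≤ s := Finset.sum_nonneg fun p _ => by positivity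
  have hs1 : s ≤ m₀ / y := (sum_sq_le (by omega) hTy).trans (div_le_div_of_nonneg_right hm hy0.le)
  set Q : ℝ := ∏ p ∈ T, (1 - 1 / (p:ℝ)) ^ 2 with hQ
  have hQ0 : 0 ≤ Q := Finset.prod_nonneg fun p _ => sq_nonneg _
  have hQ1 : Real.exp (-(2 * m)) / 2 ≤ Q := prod_sq_ge hy2 hTy (by linarith)
  set m₂ : ℝ := ∑ p ∈ T.filter (fun p => N < p ^ (2 ^ (b - 1))), (1:ℝ) / p with hm₂
  -- the three cones
  have d1 := hlow T l hTp (by linarith)
  have d2 := hlow T (l / B) hTp (by positivity)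
  have hy1 : 1 ≤ 2 * l / B := by
    rw [le_div_iff₀ hB0]
    linarith
  have d3 := hup T (2 * l / B) hTp hy1
  have hm1 : ∑ p ∈ T.filter (fun p : ℕ => (p:ℝ) ≤ Real.exp (2 * l / B)), 1 / (p:ℝ) = m - m₂ := by
    have e1 : T.filter (fun p : ℕ => (p:ℝ) ≤ Real.exp (2 * l / B)) =
        T.filter (fun p => ¬ N < p ^ (2 ^ (b - 1))) := by
      refine Finset.filter_congr fun p hp => ?_
      exact low_iff hb (by omega) (hTp p hp).one_le
    rw [e1, hmd, hm₂, ← Finset.sum_filter_add_sum_filter_not T (fun p => N < p ^ (2 ^ (b - 1)))]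
    ring
  rw [hm1] at d3
  have hid := trap_id (b := b) hb (by omega : 1 ≤ N) (dsg T)
  rw [← hld, ← hB] at hid
  rw [hid]
  -- the exponential factor
  have hexp : 4 * C₂ / B * Real.exp (-(2 * (m - m₂))) ≤ Real.exp (-(2 * m)) / 8 := by
    have h1 : Real.exp (-(2 * (m - m₂))) = Real.exp (-(2 * m)) * Real.exp (2 * m₂) := by
      rw [← Real.exp_add]
      congr 1
      ring
    have h2 : Real.exp (2 * m₂) ≤
        Real.exp (2 * (κ * Real.log ((2 ^ (b - 1) : ℕ) : ℝ) + K + 1)) :=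
      Real.exp_le_exp.2 (by linarith)
    have h3 : 4 * C₂ / B * Real.exp (2 * m₂) ≤ 1 / 8 :=
      (mul_le_mul_of_nonneg_left h2 (by positivity)).trans hbK
    rw [h1]
    have h4 : 0 < Real.exp (-(2 * m)) := Real.exp_pos _
    calc 4 * C₂ / B * (Real.exp (-(2 * m)) * Real.exp (2 * m₂))
        = Real.exp (-(2 * m)) * (4 * C₂ / B * Real.exp (2 * m₂)) := by ring
      _ ≤ Real.exp (-(2 * m)) * (1 / 8) := mul_le_mul_of_nonneg_left h3 h4.le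
      _ = Real.exp (-(2 * m)) / 8 := by ring
  set X : ℝ := Real.exp (-(2 * (m - m₂))) with hX
  have hX0 : 0 < X := Real.exp_pos _
  have hlog2 : 0 ≤ l ^ 2 := by positivity
  -- upper bound for the middle cone
  have u3 : (B - 1) * Dd (dsg T) (2 * l / B) ≤
      4 * C₂ / B * X * l ^ 2 + 4 * C₂ * s * l ^ 2 + 2 * C₂ * l := by
    have h1 : (B - 1) * Dd (dsg T) (2 * l / B) ≤
        (B - 1) * (C₂ * (2 * l / B) ^ 2 * (X + s) + C₂ * (2 * l / B)) :=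
      mul_le_mul_of_nonneg_left d3 (by linarith)
    have h2 : (B - 1) * (C₂ * (2 * l / B) ^ 2 * (X + s) + C₂ * (2 * l / B)) ≤
        B * (C₂ * (2 * l / B) ^ 2 * (X + s) + C₂ * (2 * l / B)) := by
      refine mul_le_mul_of_nonneg_right (by linarith) ?_
      positivity
    have h3 : B * (C₂ * (2 * l / B) ^ 2 * (X + s) + C₂ * (2 * l / B)) =
        4 * C₂ / B * X * l ^ 2 + 4 * C₂ / B * s * l ^ 2 + 2 * C₂ * l := by
      field_simp
      ring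
    have h4 : 4 * C₂ / B * s * l ^ 2 ≤ 4 * C₂ * s * l ^ 2 := by
      have : 4 * C₂ / B ≤ 4 * C₂ := div_le_self (by positivity) (by linarith)
      exact mul_le_mul_of_nonneg_right (mul_le_mul_of_nonneg_right this hs0) hlog2
    linarith
  have u4 : 4 * C₂ / B * X * l ^ 2 ≤ Real.exp (-(2 * m)) / 8 * l ^ 2 :=
    mul_le_mul_of_nonneg_right hexp hlog2
  -- lower bound for the small cone
  have u2 : -((B - 2) * (s * l ^ 2) + (B - 2) * (C₁ * (1 + l))) ≤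
      (B - 2) * Dd (dsg T) (l / B) := by
    have h1 : l / B ≤ l := div_le_self (by linarith) (by linarith)
    have h2 : (l / B) ^ 2 ≤ l ^ 2 := pow_le_pow_left₀ (by positivity) h1 2
    have h3 : s * (l / B) ^ 2 ≤ s * l ^ 2 := mul_le_mul_of_nonneg_left h2 hs0
    have h4 : 0 ≤ Q * ((l / B) ^ 2 / 2) := by positivity
    have h5 : C₁ * (1 + l / B) ≤ C₁ * (1 + l) :=
      mul_le_mul_of_nonneg_left (by linarith) hC₁.le
    have h6 : -(s * l ^ 2 + C₁ * (1 + l)) ≤ Dd (dsg T) (l / B) := by linarith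
    have h7 := mul_le_mul_of_nonneg_left h6 (show 0 ≤ B - 2 by linarith)
    linarith
  -- the errors
  have herr : s * l ^ 2 * E₁ + E₂ * (1 + l) ≤ θ / 16 * l ^ 2 := by
    have h1 : s * E₁ ≤ θ / 32 := by
      have h2 : m₀ / y * E₁ ≤ θ / 32 := by
        rw [div_le_iff₀ hθ0] at hyE
        rw [div_mul_eq_mul_div, div_le_iff₀ hy0]
        linarith
      exact (mul_le_mul_of_nonneg_right hs1 hE₁0.le).trans h2
    have h3 : E₂ * (1 + l) ≤ θ / 32 * l ^ 2 := by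
      have h4 : 1 + l ≤ 2 * l := by linarith
      have h5 : 64 * E₂ ≤ θ * l := by
        rw [div_le_iff₀ hθ0] at hlE
        linarith
      have h6 : E₂ * (1 + l) ≤ E₂ * (2 * l) := mul_le_mul_of_nonneg_left h4 hE₂0.le
      have h7 : 64 * E₂ * l ≤ θ * l * l := mul_le_mul_of_nonneg_right h5 (by linarith)
      linarith
    have h8 : s * E₁ * l ^ 2 ≤ θ / 32 * l ^ 2 := mul_le_mul_of_nonneg_right h1 hlog2
    linarith
  have hθm : θ ≤ Real.exp (-(2 * m)) := Real.exp_le_exp.2 (by linarith)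
  have hθm2 : θ / 16 * l ^ 2 ≤ Real.exp (-(2 * m)) / 16 * l ^ 2 :=
    mul_le_mul_of_nonneg_right (by linarith) hlog2
  have hQ2 : Real.exp (-(2 * m)) / 4 * l ^ 2 ≤ Q * (l ^ 2 / 2) := by
    have := mul_le_mul_of_nonneg_right hQ1 hlog2
    linarith
  have hfin : s * l ^ 2 * E₁ + E₂ * (1 + l) = s * l ^ 2 + 4 * C₂ * s * l ^ 2 +
      (B - 1) * (s * l ^ 2) + C₁ * B * (1 + l) + 2 * C₂ * (1 + l) := by
    rw [hE₁, hE₂]
    ring
  have hsl : 0 ≤ s * l ^ 2 := by positivity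
  have hC1l : 0 ≤ C₁ * (1 + l) := by positivity
  linarith

end Pool.Agent.Lib.P4a7640G
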