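import Mathlib
import Pool.Agent.Lib.P4a7640G.IneqN
import Pool.Agent.Lib.P4a7640G.MixN
import Pool.Agent.Lib.P4a7640G.NatLaw
import Pool.Agent.Lib.P4a7640G.NatCorr
import Pool.Agent.Lib.P4a7640G.TrapLow
import Pool.Agent.Lib.P4a7640G.CSQ
import Pool.Agent.Lib.P4a7640E.Far

/-!
# The block entropies at a scale
-/

open Finset Filter Topology
open Pool.Agent.Lib.P4a7640 Pool.Agent.Lib.P4a7640D Pool.Agent.Lib.P4a7640T
open Pool.Agent.Lib.P4a7640E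

namespace Pool.Agent.Lib.P4a7640G

theorem eventually_big (C b : ℕ) : ∀ᶠ N : ℕ in atTop, ∀ x : ℕ, N ≤ x ^ (2 ^ b) → C ≤ x := by
  filter_upwards [eventually_gt_atTop (C ^ (2 ^ b))] with N hN x hx
  by_contra hcon
  have : x ^ (2 ^ b) ≤ C ^ (2 ^ b) := Nat.pow_le_pow_left (not_le.1 hcon).le _
  omega

/-- the sum over the scales -/
theorem mix_scales {N L b : ℕ} (hN : 1 ≤ N) (f₀ f₁ : ℕ → ℤˣ) (t : ℕ → ℤˣ)
    (h : ∀ x ≤ N, N ≤ x ^ (2 ^ b) →
      (L:ℝ) / 2 * (En x t) ^ 2 - 2 ≤ EntN x (blk f₀ L) + EntN x (blk f₁ L)) :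
    (L:ℝ) / 2 * ∑ x ∈ (Icc 1 N).filter (fun x => N ≤ x ^ (2 ^ b)), wn N x * En x t ^ 2 - 2 ≤
      Ent N (blk f₀ L) + Ent N (blk f₁ L) := by
  classical
  have h1 := ent_mixn hN (blk f₀ L)
  have h2 := ent_mixn hN (blk f₁ L)
  have h3 : ∑ x ∈ Icc 1 N, wn N x * (EntN x (blk f₀ L) + EntN x (blk f₁ L)) ≤
      Ent N (blk f₀ L) + Ent N (blk f₁ L) := by
    simp only [mul_add]
    rw [Finset.sum_add_distrib]
    linarith
  refine le_trans ?_ h3
  have h4 : ∑ x ∈ (Icc 1 N).filter (fun x => N ≤ x ^ (2 ^ b)),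
      wn N x * (EntN x (blk f₀ L) + EntN x (blk f₁ L)) ≤
      ∑ x ∈ Icc 1 N, wn N x * (EntN x (blk f₀ L) + EntN x (blk f₁ L)) :=
    Finset.sum_le_sum_of_subset_of_nonneg (Finset.filter_subset _ _) fun x _ _ =>
      mul_nonneg (wn_nonneg N x) (add_nonneg (EntN_nonneg _ _) (EntN_nonneg _ _))
  refine le_trans ?_ h4
  have h5 : ∑ x ∈ (Icc 1 N).filter (fun x => N ≤ x ^ (2 ^ b)),
      wn N x * ((L:ℝ) / 2 * (En x t) ^ 2 - 2) ≤
      ∑ x ∈ (Icc 1 N).filter (fun x => N ≤ x ^ (2 ^ b)),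
      wn N x * (EntN x (blk f₀ L) + EntN x (blk f₁ L)) := by
    refine Finset.sum_le_sum fun x hx => ?_
    rw [mem_filter, mem_Icc] at hx
    exact mul_le_mul_of_nonneg_left (h x hx.1.2 hx.2) (wn_nonneg N x)
  refine le_trans ?_ h5
  have h6 : ∑ x ∈ (Icc 1 N).filter (fun x => N ≤ x ^ (2 ^ b)), wn N x ≤ 1 := by
    rw [← sum_wn hN]
    exact Finset.sum_le_sum_of_subset_of_nonneg (Finset.filter_subset _ _) fun x _ _ =>
      wn_nonneg N x
  have h7 : ∑ x ∈ (Icc 1 N).filter (fun x => N ≤ x ^ (2 ^ b)),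
      wn N x * ((L:ℝ) / 2 * (En x t) ^ 2 - 2) =
      (L:ℝ) / 2 * ∑ x ∈ (Icc 1 N).filter (fun x => N ≤ x ^ (2 ^ b)), wn N x * En x t ^ 2 -
        2 * ∑ x ∈ (Icc 1 N).filter (fun x => N ≤ x ^ (2 ^ b)), wn N x := by
    rw [Finset.mul_sum, Finset.mul_sum, ← Finset.sum_sub_distrib]
    refine Finset.sum_congr rfl fun x _ => ?_
    ring
  rw [h7]
  linarith

/-- the main inequality with explicit constants -/
theorem scale_ineq {κ K : ℝ} (hκ0 : 0 ≤ κ) (hκ : κ < 1 / 4) :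
    ∃ a : ℝ, 0 < a ∧ ∀ (f₀ u : ℕ → ℤˣ), MultS u → Aperiodic u → ∀ (q : ℕ), 0 < q →
      ∀ (χ : DirichletCharacter ℤ q) (l : Filter ℕ), l ≤ atTop →
      (∀ c : ℕ, 1 ≤ c → ∀ δ : ℝ, 0 < δ →
        ∀ᶠ N in l, topMass c u χ N ≤ κ * Real.log c + K + δ) →
      ∀ L : ℕ, 1 ≤ L → ∀ᶠ N in l, a * (L:ℝ) ^ (1 - 4 * κ) - 2 ≤
        Ent N (blk f₀ L) + Ent N (blk (fun n => f₀ n * u n) L) := by
  classical
  obtain ⟨A, hA, hcorr⟩ := nat_corr
  obtain ⟨b, hb, c₀, hc₀, htrap⟩ := trap_low (K := K) hκ0 (by linarith : κ < 1 / 2)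
  obtain ⟨N₁, hcs⟩ := cs_q hb
  have hAR : (0:ℝ) < A := by exact_mod_cast hA
  set E : ℝ := A * 2 ^ (b + 2) with hE
  have hE0 : 0 < E := by positivity
  refine ⟨c₀ ^ 2 / 128 * Real.exp (-(4 * (K + 1))) * Real.exp (-(4 * κ * Real.log E)),
    by positivity, ?_⟩
  intro f₀ u hu hap q hq χ l hl htop L hL
  have hLR : (0:ℝ) < L := by exact_mod_cast hL
  set g : ℕ → ℤˣ := gch χ with hg
  -- the scale
  set B : ℕ := A * L * 2 ^ (b + 1) with hB
  set c : ℕ := Nat.clog 2 B with hc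
  have hB2 : 1 < B := by
    have h1 : 1 ≤ A * L := Nat.mul_pos hA hL
    have h2 : 2 ≤ 2 ^ (b + 1) := by
      calc 2 = 2 ^ 1 := rfl
        _ ≤ 2 ^ (b + 1) := Nat.pow_le_pow_right (by norm_num) (by omega)
    have h3 : 1 * 2 ≤ A * L * 2 ^ (b + 1) := Nat.mul_le_mul h1 h2
    omega
  have hc1 : B ≤ 2 ^ c := Nat.le_pow_clog (by norm_num) B
  have hc2 : 2 ^ c < 2 * B := by
    have h1 : 2 ^ (c.pred) < B := Nat.pow_pred_clog_lt_self (by norm_num) hB2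
    have h2 : 0 < c := Nat.clog_pos (by norm_num) hB2
    have h3 : 2 ^ c = 2 * 2 ^ (c.pred) := by
      conv_lhs => rw [← Nat.succ_pred_eq_of_pos h2]
      rw [pow_succ]
      ring
    omega
  -- the ingredients
  have hfar : Tendsto (fun N => PS (fun p => u p ≠ g p) 0 N) atTop atTop := by
    have h1 := far (m := 1) (u := fun _ => u) (q := fun _ => q) (fun _ => hq) (fun _ => χ)
      ({0} : Finset (Fin 1)) (by
        have e1 : (fun n => ∏ i ∈ ({0} : Finset (Fin 1)), (fun _ : Fin 1 => u) i n) = u := by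
          funext n
          rw [Finset.prod_singleton]
        rw [e1]
        exact hap)
    refine h1.congr fun N => ?_
    congr 1
    funext p
    rw [Finset.prod_singleton, Finset.prod_singleton]
  have e1 := hcorr u g hu q hq (cch χ) (fun p hp hpq => sgC_gch χ hp hpq) hfar L (b + 1) c hL hc1
  have e2 := eventually_big (4 * L ^ 2) (b + 1)
  have e3 := htop (2 ^ c) Nat.one_le_two_pow 1 one_pos
  have e4 := htop (2 ^ (b - 1)) Nat.one_le_two_pow 1 one_pos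
  have e5 := topMass_le hq χ u c
  have e6 := topMass_le hq χ u (b - 1)
  set m₀ : ℝ := κ * Real.log ((2 ^ c : ℕ) : ℝ) + K + 1 with hm₀
  obtain ⟨N₂, htr⟩ := htrap (2 ^ c) m₀
  have e7 : ∀ᶠ N : ℕ in atTop, N₂ ≤ N := eventually_ge_atTop N₂
  have e8 : ∀ᶠ N : ℕ in atTop, N₁ ≤ N := eventually_ge_atTop N₁
  have e9 : ∀ᶠ N : ℕ in atTop, 2 ≤ N := eventually_ge_atTop 2
  filter_upwards [hl e1, hl e2, e3, e4, hl e5, hl e6, hl e7, hl e8, hl e9] with
    N k1 k2 k3 k4 k5 k6 k7 k8 k9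
  set T : Finset ℕ := TT c u g N with hT
  set t : ℕ → ℤˣ := dsg T with ht
  -- the inequality at the scale x
  have hx : ∀ x ≤ N, N ≤ x ^ (2 ^ (b + 1)) →
      (L:ℝ) / 2 * (En x t) ^ 2 - 2 ≤
        EntN x (blk f₀ L) + EntN x (blk (fun n => f₀ n * u n) L) := by
    intro x hxN hNx
    have h1 : 4 * L ^ 2 ≤ x := k2 x hNx
    have h2 : 1 ≤ x := by
      have : 1 ≤ L ^ 2 := Nat.one_le_pow _ _ hL
      omega
    have h3 : L * Real.log 2 - 1 ≤ EntN x (blk (fun n => u n * t n) L) :=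
      ent_of_corr h2 (vv c u g N) (k1 x hxN hNx)
    have h4 := ineq_nat h2 f₀ u t h3
    have h5 := sum_En_sq h2 t h1
    linarith
  have hmix := mix_scales (L := L) (by omega : 1 ≤ N) f₀ (fun n => f₀ n * u n) t hx
  -- the lower bound for the quadratic mean
  have hcs' := hcs N k8 t
  have hTmass : ∑ p ∈ T, (1:ℝ) / p ≤ m₀ := by
    have := k5.trans k3
    exact this
  have hTp : ∀ p ∈ T, p.Prime ∧ p ≤ N ∧ N < p ^ (2 ^ c) := by
    intro p hp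
    rw [hT] at hp
    unfold TT at hp
    rw [mem_filter, mem_Icc] at hp
    exact ⟨hp.2.1, hp.1.2, hp.2.2.1⟩
  have hT2 : ∑ p ∈ T.filter (fun p => N < p ^ (2 ^ (b - 1))), (1:ℝ) / p ≤
      κ * Real.log (2 ^ (b - 1) : ℕ) + K + 1 := by
    refine le_trans ?_ (k6.trans k4)
    refine Finset.sum_le_sum_of_subset_of_nonneg ?_ (fun _ _ _ => by positivity)
    intro p hp
    rw [mem_filter, hT] at hp
    unfold TT at hp ⊢
    rw [mem_filter] at hp ⊢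
    exact ⟨hp.1.1, hp.1.2.1, hp.2, hp.1.2.2.2⟩
  have hlow := htr N k7 T hTp hTmass hT2
  set S : ℝ := ∑ n ∈ Icc 1 N, sg (t n) / n * Wt b N n with hS
  set Q : ℝ := ∑ x ∈ (Icc 1 N).filter (fun x => N ≤ x ^ (2 ^ (b + 1))), wn N x * En x t ^ 2 with hQ
  have hlog : 0 < Real.log N := Real.log_pos (by exact_mod_cast k9)
  have hexp : Real.exp (-(2 * m₀)) ≤ Real.exp (-(2 * ∑ p ∈ T, (1:ℝ) / p)) :=
    Real.exp_le_exp.2 (by linarith)
  have hS1 : c₀ * Real.exp (-(2 * m₀)) * Real.log N ^ 2 ≤ S := by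
    refine le_trans ?_ hlow
    have : 0 ≤ Real.log N ^ 2 := by positivity
    refine mul_le_mul_of_nonneg_right ?_ this
    exact mul_le_mul_of_nonneg_left hexp hc₀.le
  have hS2 : (c₀ * Real.exp (-(2 * m₀)) * Real.log N ^ 2) ^ 2 ≤ S ^ 2 :=
    pow_le_pow_left₀ (by positivity) hS1 2
  have hQ1 : c₀ ^ 2 * Real.exp (-(4 * m₀)) / 64 ≤ Q := by
    have h1 : (c₀ * Real.exp (-(2 * m₀)) * Real.log N ^ 2) ^ 2 =
        c₀ ^ 2 * Real.exp (-(4 * m₀)) * Real.log N ^ 4 := by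
      rw [mul_pow, mul_pow, ← Real.exp_nat_mul]
      push_cast
      ring_nf
    rw [h1] at hS2
    have h2 := hS2.trans hcs'
    have h3 : (0:ℝ) < Real.log N ^ 4 := by positivity
    have h4 : c₀ ^ 2 * Real.exp (-(4 * m₀)) ≤ 64 * Q := by
      by_contra hcon
      rw [not_le] at hcon
      have := mul_lt_mul_of_pos_right hcon h3
      nlinarith
    linarith
  -- the size of m₀
  have hm : m₀ ≤ κ * (Real.log E + Real.log L) + K + 1 := by
    have h1 : Real.log ((2 ^ c : ℕ) : ℝ) ≤ Real.log E + Real.log L := by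
      rw [← Real.log_mul hE0.ne' hLR.ne']
      refine Real.log_le_log (by positivity) ?_
      have h2 : ((2 ^ c : ℕ) : ℝ) ≤ ((2 * B : ℕ) : ℝ) := by exact_mod_cast hc2.le
      refine h2.trans (le_of_eq ?_)
      rw [hE, hB]
      push_cast
      ring
    rw [hm₀]
    have := mul_le_mul_of_nonneg_left h1 hκ0
    linarith
  have hexp2 : Real.exp (-(4 * (K + 1))) * Real.exp (-(4 * κ * Real.log E)) *
      (L:ℝ) ^ (-(4 * κ)) ≤ Real.exp (-(4 * m₀)) := by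
    rw [Real.rpow_def_of_pos hLR, ← Real.exp_add, ← Real.exp_add]
    refine Real.exp_le_exp.2 ?_
    linarith
  have hpow : (L:ℝ) ^ (1 - 4 * κ) = L * (L:ℝ) ^ (-(4 * κ)) := by
    rw [sub_eq_add_neg, Real.rpow_add hLR, Real.rpow_one]
  refine le_trans ?_ hmix
  rw [hpow]
  have h1 : c₀ ^ 2 / 64 * (Real.exp (-(4 * (K + 1))) * Real.exp (-(4 * κ * Real.log E)) *
      (L:ℝ) ^ (-(4 * κ))) ≤ Q := by
    refine le_trans ?_ hQ1
    have h2 : (0:ℝ) ≤ c₀ ^ 2 / 64 := by positivity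
    have := mul_le_mul_of_nonneg_left hexp2 h2
    linarith
  have h3 : (L:ℝ) / 2 * (c₀ ^ 2 / 64 * (Real.exp (-(4 * (K + 1))) *
      Real.exp (-(4 * κ * Real.log E)) * (L:ℝ) ^ (-(4 * κ)))) ≤ (L:ℝ) / 2 * Q :=
    mul_le_mul_of_nonneg_left h1 (by positivity)
  linarith

end Pool.Agent.Lib.P4a7640G
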