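import Mathlib
import Pool.Agent.Lib.P4a7640G.ScaleIneq
import Pool.Agent.Lib.P4a7640E.Final

/-!
# Growth of the block entropies and of the number of patterns
-/

open Finset Filter Topology MeasureTheory
open Pool.Agent.Lib.P4a7640 Pool.Agent.Lib.P4a7640D Pool.Agent.Lib.P4a7640T
open Pool.Agent.Lib.P4a7640E

namespace Pool.Agent.Lib.P4a7640G

/-- **Growth of block entropies and patterns.** -/
theorem main {κ K : ℝ} (hκ0 : 0 ≤ κ) (hκ : κ < 1 / 4) :
    ∃ a : ℝ, 0 < a ∧ ∃ L₀ : ℕ, ∀ f g : ℕ → ℤˣ, (MultS fun n => f n * g n) →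
      (Aperiodic fun n => f n * g n) → ∀ q : ℕ, 0 < q →
      ∀ (χ : DirichletCharacter ℤ q) (l : Filter ℕ), l.NeBot → l ≤ atTop →
      (∀ c : ℕ, 1 ≤ c → ∀ δ : ℝ, 0 < δ →
        ∀ᶠ N in l, topMass c (fun n => f n * g n) χ N ≤ κ * Real.log c + K + δ) →
      ∀ L : ℕ, L₀ ≤ L →
        (∀ᶠ N in l, a * (L:ℝ) ^ (1 - 4 * κ) ≤ Ent N (blk f L) + Ent N (blk g L)) ∧
        a * (L:ℝ) ^ (1 - 4 * κ) ≤ Real.log (pats f l L).card + Real.log (pats g l L).card ∧
        (∀ μ ν : Measure XX, FurstAlong f l μ → FurstAlong g l ν →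
          a * (L:ℝ) ^ (1 - 4 * κ) ≤ HM μ L + HM ν L) := by
  obtain ⟨a, ha, hin⟩ := scale_ineq (K := K) hκ0 hκ
  have hpos : 0 < 1 - 4 * κ := by linarith
  have hlim : Tendsto (fun L : ℕ => (L:ℝ) ^ (1 - 4 * κ)) atTop atTop :=
    (tendsto_rpow_atTop hpos).comp tendsto_natCast_atTop_atTop
  obtain ⟨L₁, hL₁⟩ := eventually_atTop.1 (hlim.eventually_ge_atTop (4 / a))
  refine ⟨a / 2, by positivity, max 1 L₁, ?_⟩
  intro f g hu hap q hq χ l hne hl htop L hL
  have e : (fun n => f n * (f n * g n)) = g := by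
    funext n
    rw [← mul_assoc, Int.units_mul_self, one_mul]
  have h1 : 4 / a ≤ (L:ℝ) ^ (1 - 4 * κ) := hL₁ L ((le_max_right _ _).trans hL)
  have h2 : 2 ≤ a / 2 * (L:ℝ) ^ (1 - 4 * κ) := by
    rw [div_le_iff₀ ha] at h1
    linarith
  have h3 : ∀ᶠ N in l, a / 2 * (L:ℝ) ^ (1 - 4 * κ) ≤ Ent N (blk f L) + Ent N (blk g L) := by
    have h4 := hin f (fun n => f n * g n) hu hap q hq χ l hl htop L ((le_max_left _ _).trans hL)
    rw [e] at h4
    filter_upwards [h4] with N hN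
    linarith
  refine ⟨h3, ?_, ?_⟩
  · have h4 := pats_of_ineq (m := 1) (f := ![f, g]) (l := l) hl (L := L)
      (C := a / 2 * (L:ℝ) ^ (1 - 4 * κ)) (by
        intro ε hε
        filter_upwards [h3] with N hN
        rw [Fin.sum_univ_two]
        simp only [Matrix.cons_val_zero, Matrix.cons_val_one]
        linarith)
    rw [Fin.sum_univ_two] at h4
    simpa only [Matrix.cons_val_zero, Matrix.cons_val_one] using h4
  · intro μ ν hμ hν
    have h5 : Tendsto (fun N => Ent N (blk f L) + Ent N (blk g L)) l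
        (𝓝 (HM μ L + HM ν L)) := (Ent_tendsto hl hμ L).add (Ent_tendsto hl hν L)
    exact ge_of_tendsto h5 h3

end Pool.Agent.Lib.P4a7640G
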